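import Mathlib

set_option autoImplicit false
set_option linter.unusedSectionVars false

namespace Pool.Agent.W455.Cub

/-- the class of a pair, read off from a table -/
def cl (tab a b : ℕ) : ℕ := (tab >>> (4 * (a + 16 * b))) % 16

/-- entries of a table of indices -/
def nb (t i : ℕ) : ℕ := (t >>> (4 * i)) % 16

/-- position of a monomial -/
def ix (a b c d : ℕ) : ℕ := a + 16 * b + 256 * c + 4096 * d

/-- mask of the orderings with given first entry -/
def m3 (a b c d : ℕ) : ℕ :=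
  2 ^ ix a b c d ||| (2 ^ ix a b d c ||| (2 ^ ix a c b d ||| (2 ^ ix a c d b |||
    (2 ^ ix a d b c ||| 2 ^ ix a d c b))))

/-- mask of all orderings -/
def m4 (a b c d : ℕ) : ℕ := m3 a b c d ||| (m3 b a c d ||| (m3 c a b d ||| m3 d a b c))

/-- membership -/
def has (Z a b c d : ℕ) : Bool := Nat.testBit Z (ix a b c d)

/-- one step is correct -/
def ok (r tab tabN Z s : ℕ) : Bool :=
  let a := nb s 1
  let b := nb s 2
  let c := nb s 3
  let d := nb s 4
  let e := nb s 5
  let f := nb s 6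
  let g := nb s 7
  let h := nb s 8
  decide (a < r) && decide (b < r) && decide (c < r) && decide (d < r) &&
  match nb s 0 with
  | 0 => cl tab a b == 15 && cl tab c d == 15
  | 1 => decide (e < r) && decide (f < r) && cl tab a b == 15 && cl tab c d == cl tab e f &&
      has Z a b e f
  | 2 => decide (e < r) && decide (f < r) && decide (g < r) && decide (h < r) &&
      cl tab a b == cl tab e f && cl tab c d == cl tab g h &&
      has Z a b g h && has Z e f c d && has Z e f g h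
  | 3 => nb tabN (3 * a) == b && nb tabN (3 * a + 1) == c && nb tabN (3 * a + 2) == d
  | _ => false

/-- the final test -/
def fin (r Z : ℕ) : Bool :=
  (List.range r).all fun a => (List.range r).all fun b => (List.range r).all fun c =>
    (List.range r).all fun d => has Z a b c d

/-- evaluate the argument first -/
def frc (n : ℕ) (f : ℕ → Bool) : Bool :=
  match n with
  | 0 => f 0
  | m + 1 => f (m + 1)

lemma frc_eq (n : ℕ) (f : ℕ → Bool) : frc n f = f n := by
  cases n <;> rfl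

/-- run the certificate -/
def run (r tab tabN : ℕ) : List ℕ → ℕ → Bool
  | [], Z => fin r Z
  | s :: ss, Z => ok r tab tabN Z s &&
      frc (Z ||| m4 (nb s 1) (nb s 2) (nb s 3) (nb s 4)) (run r tab tabN ss)

lemma nb_lt (t i : ℕ) : nb t i < 16 := Nat.mod_lt _ (by norm_num)

lemma ix_inj {a b c d a' b' c' d' : ℕ} (ha : a < 16) (hb : b < 16) (hc : c < 16) 
    (ha' : a' < 16) (hb' : b' < 16) (hc' : c' < 16) 
    (h : ix a b c d = ix a' b' c' d') : a = a' ∧ b = b' ∧ c = c' ∧ d = d' := by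
  unfold ix at h
  omega

/-- the relations satisfied by the values of a functional -/
structure FRel {M : Type*} [AddCommGroup M] (r tab tabN : ℕ) (F : ℕ → ℕ → ℕ → ℕ → M) : Prop where
  s1 : ∀ a b c d, F a b c d = F b a c d
  s2 : ∀ a b c d, F a b c d = F a c b d
  s3 : ∀ a b c d, F a b c d = F a b d c
  r0 : ∀ a b c d, a < r → b < r → c < r → d < r → cl tab a b = 15 → cl tab c d = 15 → F a b c d = 0
  r1 : ∀ a b c d e f, a < r → b < r → c < r → d < r → e < r → f < r → cl tab a b = 15 →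
    cl tab c d = cl tab e f → F a b c d = F a b e f
  r2 : ∀ a b c d e f g h, a < r → b < r → c < r → d < r → e < r → f < r → g < r → h < r →
    cl tab a b = cl tab e f → cl tab c d = cl tab g h →
    F a b c d - F a b g h - F e f c d + F e f g h = 0
  nrm : ∀ a, a < r → F a (nb tabN (3 * a)) (nb tabN (3 * a + 1)) (nb tabN (3 * a + 2)) = 0

namespace FRel
variable {M : Type*} [AddCommGroup M] {r tab tabN : ℕ} {F : ℕ → ℕ → ℕ → ℕ → M}

/-- the invariant -/
def Inv (F : ℕ → ℕ → ℕ → ℕ → M) (Z : ℕ) : Prop :=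
  ∀ a b c d, a < 16 → b < 16 → c < 16 → has Z a b c d = true → F a b c d = 0

lemma testBit_m3 {a b c d j : ℕ} (h : Nat.testBit (m3 a b c d) j = true) :
    ix a b c d = j ∨ ix a b d c = j ∨ ix a c b d = j ∨ ix a c d b = j ∨ ix a d b c = j ∨
      ix a d c b = j := by
  unfold m3 at h
  simpa only [Nat.testBit_or, Nat.testBit_two_pow, Bool.or_eq_true, decide_eq_true_eq] using h

variable (hF : FRel r tab tabN F)
include hF

lemma m3_zero {a b c d : ℕ} (ha : a < 16) (hb : b < 16) (hc : c < 16) (hd : d < 16)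
    (h0 : F a b c d = 0) {a' b' c' d' : ℕ} (ha' : a' < 16) (hb' : b' < 16) (hc' : c' < 16)
    (h : Nat.testBit (m3 a b c d) (ix a' b' c' d') = true) : F a' b' c' d' = 0 := by
  rcases testBit_m3 h with h | h | h | h | h | h
  · obtain ⟨rfl, rfl, rfl, rfl⟩ := ix_inj ha hb hc ha' hb' hc' h
    exact h0
  · obtain ⟨rfl, rfl, rfl, rfl⟩ := ix_inj ha hb hd ha' hb' hc' h
    rw [hF.s3]; exact h0
  · obtain ⟨rfl, rfl, rfl, rfl⟩ := ix_inj ha hc hb ha' hb' hc' h
    rw [hF.s2]; exact h0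
  · obtain ⟨rfl, rfl, rfl, rfl⟩ := ix_inj ha hc hd ha' hb' hc' h
    rw [hF.s3, hF.s2]; exact h0
  · obtain ⟨rfl, rfl, rfl, rfl⟩ := ix_inj ha hd hb ha' hb' hc' h
    rw [hF.s2, hF.s3]; exact h0
  · obtain ⟨rfl, rfl, rfl, rfl⟩ := ix_inj ha hd hc ha' hb' hc' h
    rw [hF.s2, hF.s3, hF.s2]; exact h0

lemma m4_zero {a b c d : ℕ} (ha : a < 16) (hb : b < 16) (hc : c < 16) (hd : d < 16)
    (h0 : F a b c d = 0) {a' b' c' d' : ℕ} (ha' : a' < 16) (hb' : b' < 16) (hc' : c' < 16)
    (h : Nat.testBit (m4 a b c d) (ix a' b' c' d') = true) : F a' b' c' d' = 0 := by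
  unfold m4 at h
  simp only [Nat.testBit_or, Bool.or_eq_true] at h
  rcases h with h | h | h | h
  · exact hF.m3_zero ha hb hc hd h0 ha' hb' hc' h
  · exact hF.m3_zero hb ha hc hd (by rw [hF.s1]; exact h0) ha' hb' hc' h
  · exact hF.m3_zero hc ha hb hd (by rw [hF.s1, hF.s2]; exact h0) ha' hb' hc' h
  · exact hF.m3_zero hd ha hb hc (by rw [hF.s1, hF.s2, hF.s3]; exact h0) ha' hb' hc' h

lemma ok_zero {Z s : ℕ} (hr : r ≤ 16) (hZ : Inv F Z) (h : ok r tab tabN Z s = true) :
    F (nb s 1) (nb s 2) (nb s 3) (nb s 4) = 0 := by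
  unfold ok at h
  simp only [Bool.and_eq_true, decide_eq_true_eq] at h
  obtain ⟨⟨⟨⟨h1, h2⟩, h3⟩, h4⟩, h5⟩ := h
  split at h5
  · simp only [Bool.and_eq_true, beq_iff_eq] at h5
    exact hF.r0 _ _ _ _ h1 h2 h3 h4 h5.1 h5.2
  · simp only [Bool.and_eq_true, beq_iff_eq, decide_eq_true_eq] at h5
    obtain ⟨⟨⟨⟨h6, h7⟩, h8⟩, h9⟩, h10⟩ := h5
    rw [hF.r1 _ _ _ _ _ _ h1 h2 h3 h4 h6 h7 h8 h9]
    exact hZ _ _ _ _ (by omega) (by omega) (by omega) h10
  · simp only [Bool.and_eq_true, beq_iff_eq, decide_eq_true_eq] at h5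
    obtain ⟨⟨⟨⟨⟨⟨⟨⟨h6, h7⟩, h8⟩, h9⟩, h10⟩, h11⟩, h12⟩, h13⟩, h14⟩ := h5
    have e := hF.r2 _ _ _ _ _ _ _ _ h1 h2 h3 h4 h6 h7 h8 h9 h10 h11
    rw [hZ _ _ _ _ (by omega) (by omega) (by omega) h12,
      hZ _ _ _ _ (by omega) (by omega) (by omega) h13,
      hZ _ _ _ _ (by omega) (by omega) (by omega) h14] at e
    simpa using e
  · simp only [Bool.and_eq_true, beq_iff_eq] at h5
    obtain ⟨⟨h6, h7⟩, h8⟩ := h5
    rw [← h6, ← h7, ← h8]
    exact hF.nrm _ h1
  · simp at h5

lemma run_zero (hr : r ≤ 16) (l : List ℕ) : ∀ Z, Inv F Z → run r tab tabN l Z = true →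
    ∀ a b c d, a < r → b < r → c < r → d < r → F a b c d = 0 := by
  induction l with
  | nil =>
    intro Z hZ h a b c d ha hb hc hd
    simp only [run, fin, List.all_eq_true, List.mem_range] at h
    exact hZ _ _ _ _ (by omega) (by omega) (by omega) (h a ha b hb c hc d hd)
  | cons s l ih =>
    intro Z hZ h
    simp only [run, Bool.and_eq_true, frc_eq] at h
    have h0 := hF.ok_zero hr hZ h.1
    refine ih _ ?_ h.2
    intro a b c d ha hb hc hh
    unfold has at hh
    rw [Nat.testBit_or, Bool.or_eq_true] at hh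
    rcases hh with hh | hh
    · exact hZ a b c d ha hb hc hh
    · exact hF.m4_zero (nb_lt _ _) (nb_lt _ _) (nb_lt _ _) (nb_lt _ _) h0 ha hb hc hh

theorem all_zero (hr : r ≤ 16) (l : List ℕ) (h : run r tab tabN l 0 = true) :
    ∀ a b c d, a < r → b < r → c < r → d < r → F a b c d = 0 := by
  apply hF.run_zero hr l 0 _ h
  intro a b c d _ _ _ h
  simp [has] at h

end FRel

end Pool.Agent.W455.Cub
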