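import Mathlib

set_option autoImplicit false

namespace Pool.Agent.W455.Cub

/-- the residue of `m` modulo `r` is one of `±1, ±2, ±3` -/
def Cov (r m : ℤ) : Prop :=
  ∃ n : ℤ, m + n * r = 1 ∨ m + n * r = 2 ∨ m + n * r = 3 ∨ m + n * r = -1 ∨ m + n * r = -2 ∨
    m + n * r = -3

lemma not_cov {r m : ℤ} (h : m = 0 ∨ (4 ≤ m ∧ m ≤ r - 4) ∨ (4 ≤ -m ∧ -m ≤ r - 4)) (hr : 4 ≤ r) :
    ¬ Cov r m := by
  rintro ⟨n, hn⟩
  rcases lt_trichotomy n 0 with h0 | h0 | h0
  · have : n * r ≤ -r := by nlinarith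
    omega
  · subst h0
    omega
  · have : r ≤ n * r := by nlinarith
    omega

/-- a representative near a given integer -/
lemma exists_near {r : ℤ} (hr : 0 < r) (s v : ℤ) : ∃ n : ℤ, |2 * (s + n * r - v)| ≤ r := by
  refine ⟨-((2 * (s - v) + r) / (2 * r)), ?_⟩
  have h1 := Int.emod_add_mul_ediv (2 * (s - v) + r) (2 * r)
  have h2 := Int.emod_nonneg (2 * (s - v) + r) (by omega : 2 * r ≠ 0)
  have h3 := Int.emod_lt_of_pos (2 * (s - v) + r) (by omega : 0 < 2 * r)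
  rw [abs_le]
  constructor <;> nlinarith

lemma cov_add {r m : ℤ} (n : ℤ) : Cov r (m + n * r) ↔ Cov r m := by
  constructor
  · rintro ⟨n', h⟩
    refine ⟨n + n', ?_⟩
    have : m + (n + n') * r = m + n * r + n' * r := by ring
    rw [this]; exact h
  · rintro ⟨n', h⟩
    refine ⟨n' - n, ?_⟩
    have : m + n * r + (n' - n) * r = m + n' * r := by ring
    rw [this]; exact h

/-- `m` is one of `±1, ±2, ±3` -/
def nearB (m : ℤ) : Bool := m == 1 || m == 2 || m == 3 || m == -1 || m == -2 || m == -3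

/-- one of the three pairs of the class can be used -/
def optB (s t : ℤ) : Bool :=
  (!nearB (s - 1) && !nearB (t - 3)) || (!nearB (s - 3) && !nearB (t - 1)) ||
    (!nearB (s + 1) && !nearB (t - 2)) || (!nearB (s - 2) && !nearB (t + 1)) ||
    (!nearB (s + 3) && !nearB (t + 2)) || (!nearB (s + 2) && !nearB (t + 3)) ||
    (s == -4 && t == 2) || (s == -1 && t == 3) || (s == -1 && t == 4) ||
    (s == 2 && t == -4) || (s == 3 && t == -1) || (s == 4 && t == -1)

lemma optfin : ∀ a b : Fin 13,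
    ((a.val : ℤ) - 6 == 0 || (b.val : ℤ) - 6 == 0 || nearB ((a.val : ℤ) - 6 - ((b.val : ℤ) - 6)) ||
      (a.val : ℤ) - 6 == (b.val : ℤ) - 6 || optB ((a.val : ℤ) - 6) ((b.val : ℤ) - 6)) = true := by
  decide +kernel

lemma nearB_iff {m : ℤ} : nearB m = false ↔ m ≠ 1 ∧ m ≠ 2 ∧ m ≠ 3 ∧ m ≠ -1 ∧ m ≠ -2 ∧ m ≠ -3 := by
  simp [nearB, and_assoc]

lemma opt (s t : ℤ) (hs : s ≠ 0) (ht : t ≠ 0) (h : nearB (s - t) = false) (hst : s ≠ t) :
    optB s t = true := by
  by_cases h1 : -6 ≤ s ∧ s ≤ 6 ∧ -6 ≤ t ∧ t ≤ 6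
  · obtain ⟨a, ha⟩ : ∃ a : Fin 13, (a.val : ℤ) - 6 = s := ⟨⟨(s + 6).toNat, by omega⟩, by
      simp only; omega⟩
    obtain ⟨b, hb⟩ : ∃ b : Fin 13, (b.val : ℤ) - 6 = t := ⟨⟨(t + 6).toNat, by omega⟩, by
      simp only; omega⟩
    have := optfin a b
    rw [ha, hb] at this
    simpa [hs, ht, h, hst] using this
  · unfold optB
    rcases (by omega : (7 ≤ t ∨ t ≤ -7) ∨ (7 ≤ s ∨ s ≤ -7)) with h2 | h2
    · rcases (by omega : 1 ≤ s ∨ s ≤ -1) with h3 | h3
      · have e1 : nearB (s + 3) = false := nearB_iff.2 (by omega)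
        have e2 : nearB (t + 2) = false := nearB_iff.2 (by omega)
        simp [e1, e2]
      · have e1 : nearB (s - 3) = false := nearB_iff.2 (by omega)
        have e2 : nearB (t - 1) = false := nearB_iff.2 (by omega)
        simp [e1, e2]
    · rcases (by omega : 1 ≤ t ∨ t ≤ -1) with h3 | h3
      · have e1 : nearB (s + 2) = false := nearB_iff.2 (by omega)
        have e2 : nearB (t + 3) = false := nearB_iff.2 (by omega)
        simp [e1, e2]
      · have e1 : nearB (s - 1) = false := nearB_iff.2 (by omega)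
        have e2 : nearB (t - 3) = false := nearB_iff.2 (by omega)
        simp [e1, e2]

lemma not_dvd_of {r m : ℤ} (h : (4 ≤ m ∧ m ≤ r - 4) ∨ (4 ≤ -m ∧ -m ≤ r - 4)) : ¬ r ∣ m := by
  rintro ⟨n, rfl⟩
  rcases lt_trichotomy n 0 with h0 | h0 | h0
  · have : r * n ≤ -r ∨ r < 0 := by
      rcases le_or_gt 0 r with hr | hr
      · left; nlinarith
      · right; exact hr
    omega
  · subst h0
    omega
  · have : r ≤ r * n ∨ r < 0 := by
      rcases le_or_gt 0 r with hr | hr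
      · left; nlinarith
      · right; exact hr
    omega

/-- the axioms satisfied by the values of a functional on the monomials of degree four -/
structure IF {M : Type*} [AddCommGroup M] (r : ℤ) (F : ℤ → ℤ → ℤ → ℤ → M) : Prop where
  s1 : ∀ a b c d, F a b c d = F b a c d
  s2 : ∀ a b c d, F a b c d = F a c b d
  s3 : ∀ a b c d, F a b c d = F a b d c
  per : ∀ a b c d, F (a + r) b c d = F a b c d
  r0 : ∀ a b c d, ¬ Cov r (a - b) → ¬ Cov r (c - d) → F a b c d = 0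
  r1a : ∀ a b v, ¬ Cov r (a - b) → F a b (v + 1) (v + 3) = F a b (v - 1) (v + 2)
  r1b : ∀ a b v, ¬ Cov r (a - b) → F a b (v + 1) (v + 3) = F a b (v - 3) (v - 2)
  r2 : ∀ v w, F (v - 3) (v - 2) (w - 1) (w + 2) - F (v - 3) (v - 2) (w + 1) (w + 3)
      - F (v + 1) (v + 3) (w - 1) (w + 2) + F (v + 1) (v + 3) (w + 1) (w + 3) = 0
  r2' : ∀ v w, F (v - 3) (v - 2) (w - 3) (w - 2) - F (v - 3) (v - 2) (w + 1) (w + 3)
      - F (v + 1) (v + 3) (w - 3) (w - 2) + F (v + 1) (v + 3) (w + 1) (w + 3) = 0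
  nrm : ∀ v, F v (v + 4) (v + 5) (v + 7) = 0

namespace IF
variable {M : Type*} [AddCommGroup M] {r : ℤ} {F : ℤ → ℤ → ℤ → ℤ → M} (h : IF r F)
include h

lemma perN (n : ℕ) (a b c d : ℤ) : F (a + n * r) b c d = F a b c d := by
  induction n with
  | zero => simp
  | succ n ih =>
    rw [← ih, ← h.per (a + n * r)]
    congr 1
    push_cast
    ring

lemma perZ (n : ℤ) (a b c d : ℤ) : F (a + n * r) b c d = F a b c d := by
  obtain ⟨m, rfl | rfl⟩ := n.eq_nat_or_neg
  · exact h.perN m a b c d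
  · rw [← h.perN m (a + -m * r)]
    congr 1
    ring

lemma perZ2 (n : ℤ) (a b c d : ℤ) : F a (b + n * r) c d = F a b c d := by
  rw [h.s1, h.perZ, h.s1]

lemma perZ3 (n : ℤ) (a b c d : ℤ) : F a b (c + n * r) d = F a b c d := by
  rw [h.s2, h.perZ2, h.s2]

lemma perZ4 (n : ℤ) (a b c d : ℤ) : F a b c (d + n * r) = F a b c d := by
  rw [h.s3, h.perZ3, h.s3]

/-- swap of the two pairs -/
lemma sw (a b c d : ℤ) : F a b c d = F c d a b := by
  rw [h.s2 a b c d, h.s1 a c b d, h.s3 c a b d, h.s2 c a d b]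

/-- the classes of monomials `x_c * x_T` vanish -/
lemma ecls (hr : 13 ≤ r) (c : ℤ) (i : ℕ) (hi : (i : ℤ) + 4 ≤ r - 4) :
    F c (c + (i + 4)) (c + (i + 4) + 1) (c + (i + 4) + 3) = 0 := by
  induction i with
  | zero =>
    have := h.nrm c
    convert this using 2 <;> push_cast <;> ring
  | succ i ih =>
    have h1 := ih (by push_cast at hi ⊢; omega)
    have h2 := h.r1a c (c + ((i + 1 : ℕ) + 4)) (c + ((i + 1 : ℕ) + 4)) (not_cov (by
      push_cast at hi ⊢; omega) (by omega))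
    rw [h2]
    rw [h.s2]
    rw [← h1]
    congr 1 <;> push_cast <;> ring

lemma ecls' (hr : 13 ≤ r) (c w : ℤ) (h1 : 4 ≤ w - c) (h2 : w - c ≤ r - 4) :
    F c w (w + 1) (w + 3) = 0 := by
  have := h.ecls hr c (w - c - 4).toNat (by omega)
  have e : c + (((w - c - 4).toNat : ℤ) + 4) = w := by omega
  rwa [e] at this

lemma ecls'' (hr : 13 ≤ r) (c w : ℤ) (hunc : ¬ Cov r (c - w)) (hne : c ≠ w)
    (hn : |2 * (c - w)| ≤ r) : F c w (w + 1) (w + 3) = 0 := by
  rw [abs_le] at hn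
  have hn1 : ∀ x : ℤ, (x = 1 ∨ x = 2 ∨ x = 3 ∨ x = -1 ∨ x = -2 ∨ x = -3) → c - w ≠ x := by
    intro x hx e
    exact hunc ⟨0, by omega⟩
  have a1 := hn1 1 (by omega)
  have a2 := hn1 2 (by omega)
  have a3 := hn1 3 (by omega)
  have a4 := hn1 (-1) (by omega)
  have a5 := hn1 (-2) (by omega)
  have a6 := hn1 (-3) (by omega)
  by_cases h0 : 4 ≤ w - c
  · exact h.ecls' hr c w h0 (by omega)
  · have := h.ecls' hr c (w + 1 * r) (by omega) (by omega)
    rw [show w + 1 * r + 1 = w + 1 + 1 * r by ring, show w + 1 * r + 3 = w + 3 + 1 * r by ring,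
      h.perZ2, h.perZ3, h.perZ4] at this
    exact this

lemma reg (hr : 13 ≤ r) {a b c d : ℤ}
    (h1 : a - c = 0 ∨ (4 ≤ a - c ∧ a - c ≤ r - 4) ∨ (4 ≤ -(a - c) ∧ -(a - c) ≤ r - 4))
    (h2 : b - d = 0 ∨ (4 ≤ b - d ∧ b - d ≤ r - 4) ∨ (4 ≤ -(b - d) ∧ -(b - d) ≤ r - 4)) :
    F a b c d = 0 := by
  rw [h.s2]
  exact h.r0 _ _ _ _ (not_cov h1 (by omega)) (not_cov h2 (by omega))

lemma exc1 (hr : 13 ≤ r) (v t : ℤ) (ht : t = 3 ∨ t = 4) :
    F (v + -1) (v + t) (v + 1) (v + 3) = 0 := by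
  rw [h.r1b _ _ _ (not_cov (by omega) (by omega)), h.s1, h.s3, h.s2, h.s3]
  have e1 := h.r1a (v + t) (v - 2) (v - 4) (not_cov (by omega) (by omega))
  have e2 : F (v + t) (v - 2) (v - 3) (v + -1) =
      F (v + t) (v - 2) (v - 4 + 1) (v - 4 + 3) := by
    congr 1 <;> ring
  rw [e2, e1]
  exact h.reg hr (by omega) (by omega)

lemma exc2 (hr : 13 ≤ r) (v : ℤ) :
    F (v + -4) (v + 2) (v + 1) (v + 3) = 0 := by
  rw [h.s2]
  have e1 := h.r1a (v + -4) (v + 1) (v + 5) (not_cov (by omega) (by omega))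
  have e3 := h.r1b (v + -4) (v + 1) (v + 5) (not_cov (by omega) (by omega))
  have e2 : F (v + -4) (v + 1) (v + 2) (v + 3) =
      F (v + -4) (v + 1) (v + 5 - 3) (v + 5 - 2) := by
    congr 1 <;> ring
  rw [e2, ← e3, e1]
  exact h.reg hr (by omega) (by omega)

/-- classes with respect to pairs which do not lie in the class -/
lemma far_v (hr : 13 ≤ r) (v s t : ℤ) (hs0 : s ≠ 0) (ht0 : t ≠ 0) (hs : |2 * s| ≤ r)
    (ht : |2 * t| ≤ r) (hne : s ≠ t) (hst : ¬ Cov r (s - t)) :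
    F (v + s) (v + t) (v + 1) (v + 3) = 0 := by
  rw [abs_le] at hs ht
  have hn : nearB (s - t) = false := by
    rw [nearB_iff]
    refine ⟨?_, ?_, ?_, ?_, ?_, ?_⟩ <;> intro e <;> exact hst ⟨0, by omega⟩
  have hc : ¬ Cov r ((v + s) - (v + t)) := by
    convert hst using 2
    ring
  have ea := h.r1a (v + s) (v + t) v hc
  have eb := h.r1b (v + s) (v + t) v hc
  have ea' : F (v + s) (v + t) (v + 1) (v + 3) = F (v + s) (v + t) (v + 2) (v - 1) := by
    rw [ea, h.s3]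
  have eb' : F (v + s) (v + t) (v + 1) (v + 3) = F (v + s) (v + t) (v - 2) (v - 3) := by
    rw [eb, h.s3]
  have e0' : F (v + s) (v + t) (v + 1) (v + 3) = F (v + s) (v + t) (v + 3) (v + 1) := by
    rw [h.s3]
  have ho := opt s t hs0 ht0 hn hne
  simp only [optB, Bool.or_eq_true, Bool.and_eq_true, Bool.not_eq_true', nearB_iff,
    beq_iff_eq] at ho
  rcases ho with ((((((((((ho | ho) | ho) | ho) | ho) | ho) | ho) | ho) | ho) | ho) | ho) | ho
  · exact h.reg hr (by omega) (by omega)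
  · rw [e0']; exact h.reg hr (by omega) (by omega)
  · rw [ea]; exact h.reg hr (by omega) (by omega)
  · rw [ea']; exact h.reg hr (by omega) (by omega)
  · rw [eb]; exact h.reg hr (by omega) (by omega)
  · rw [eb']; exact h.reg hr (by omega) (by omega)
  · obtain ⟨rfl, rfl⟩ := ho; exact h.exc2 hr v
  · obtain ⟨rfl, rfl⟩ := ho; exact h.exc1 hr v 3 (Or.inl rfl)
  · obtain ⟨rfl, rfl⟩ := ho; exact h.exc1 hr v 4 (Or.inr rfl)
  · obtain ⟨rfl, rfl⟩ := ho; rw [h.s1]; exact h.exc2 hr v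
  · obtain ⟨rfl, rfl⟩ := ho; rw [h.s1]; exact h.exc1 hr v 3 (Or.inl rfl)
  · obtain ⟨rfl, rfl⟩ := ho; rw [h.s1]; exact h.exc1 hr v 4 (Or.inr rfl)

/-- monomials with a distinct uncovered pair and a pair of the class `v` -/
lemma lemA (hr : 13 ≤ r) (s t v : ℤ) (hst : ¬ Cov r (s - t)) (hne : ¬ r ∣ s - t) :
    F s t (v + 1) (v + 3) = 0 := by
  obtain ⟨n, hn⟩ := exists_near (by omega : 0 < r) s v
  obtain ⟨m, hm⟩ := exists_near (by omega : 0 < r) t v
  rw [← h.perZ n, ← h.perZ2 m]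
  set s' := s + n * r with hs'
  set t' := t + m * r with ht'
  have hst' : ¬ Cov r (s' - t') := by
    intro hcov
    apply hst
    rw [← cov_add (n - m)]
    convert hcov using 2
    rw [hs', ht']; ring
  have hne' : ¬ r ∣ s' - t' := by
    intro hd
    apply hne
    have : s - t = s' - t' + r * (m - n) := by rw [hs', ht']; ring
    rw [this]
    exact Dvd.dvd.add hd (dvd_mul_right _ _)
  have hne0 : s' ≠ t' := by
    intro e
    apply hne'
    rw [e, sub_self]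
    exact dvd_zero _
  by_cases hs0 : s' = v
  · rw [h.s1, hs0]
    have hc : ¬ Cov r (t' - v) := by
      rintro ⟨n', h'⟩
      apply hst'
      refine ⟨-n', ?_⟩
      rw [hs0]
      have e : v - t' + -n' * r = -(t' - v + n' * r) := by ring
      rw [e]
      omega
    exact h.ecls'' hr t' v hc (by omega) hm
  · by_cases ht0 : t' = v
    · rw [ht0]
      rw [ht0] at hst'
      exact h.ecls'' hr s' v hst' hs0 hn
    · have := h.far_v hr v (s' - v) (t' - v) (by omega) (by omega) hn hm (by omega) (by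
        convert hst' using 2; ring)
      rw [add_sub_cancel, add_sub_cancel] at this
      exact this

/-- monomials with a distinct uncovered pair vanish -/
lemma lemA' (hr : 13 ≤ r) (s t u w : ℤ) (hst : ¬ Cov r (s - t)) (hne : ¬ r ∣ s - t) :
    F s t u w = 0 := by
  by_cases hc : Cov r (u - w)
  · obtain ⟨n, hn⟩ := hc
    rw [← h.perZ3 n]
    rcases hn with hn | hn | hn | hn | hn | hn
    · have e1 := h.r1b s t (w + 3) hst
      rw [h.lemA hr s t _ hst hne, show w + 3 - 3 = w by ring, show w + 3 - 2 = w + 1 by ring] at e1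
      rw [show u + n * r = w + 1 by omega, h.s3, ← e1]
    · have e1 := h.lemA hr s t (w - 1) hst hne
      rw [show w - 1 + 1 = w by ring, show w - 1 + 3 = w + 2 by ring] at e1
      rw [show u + n * r = w + 2 by omega, h.s3, e1]
    · have e1 := h.r1a s t (w + 1) hst
      rw [h.lemA hr s t _ hst hne, show w + 1 - 1 = w by ring, show w + 1 + 2 = w + 3 by ring] at e1
      rw [show u + n * r = w + 3 by omega, h.s3, ← e1]
    · have e1 := h.r1b s t (w + 2) hst
      rw [h.lemA hr s t _ hst hne, show w + 2 - 3 = w - 1 by ring, show w + 2 - 2 = w by ring] at e1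
      rw [show u + n * r = w - 1 by omega, ← e1]
    · have e1 := h.lemA hr s t (w - 3) hst hne
      rw [show w - 3 + 1 = w - 2 by ring, show w - 3 + 3 = w by ring] at e1
      rw [show u + n * r = w - 2 by omega, e1]
    · have e1 := h.r1a s t (w - 2) hst
      rw [h.lemA hr s t _ hst hne, show w - 2 - 1 = w - 3 by ring, show w - 2 + 2 = w by ring] at e1
      rw [show u + n * r = w - 3 by omega, ← e1]
  · exact h.r0 _ _ _ _ hst hc

lemma lemA'' (hr : 13 ≤ r) (s t u w : ℤ)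
    (hst : (4 ≤ s - t ∧ s - t ≤ r - 4) ∨ (4 ≤ -(s - t) ∧ -(s - t) ≤ r - 4)) :
    F s t u w = 0 :=
  h.lemA' hr s t u w (not_cov (Or.inr hst) (by omega)) (not_dvd_of hst)

/-- squares: the class of the same vertex -/
lemma sq0 (hr : 13 ≤ r) (v : ℤ) : F v v (v + 1) (v + 3) = 0 := by
  have e := h.r2 (v + 3) (v + 1)
  rw [show v + 3 - 3 = v by ring, show v + 3 - 2 = v + 1 by ring, show v + 1 - 1 = v by ring,
    show v + 1 + 2 = v + 3 by ring, show v + 1 + 1 = v + 2 by ring, show v + 1 + 3 = v + 4 by ring,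
    show v + 3 + 1 = v + 4 by ring, show v + 3 + 3 = v + 6 by ring] at e
  have e1 : F v (v + 1) (v + 2) (v + 4) = 0 := by
    rw [h.s3, h.s2]
    exact h.lemA'' hr _ _ _ _ (by omega)
  have e2 : F (v + 4) (v + 6) v (v + 3) = 0 := by
    rw [h.s2]
    exact h.lemA'' hr _ _ _ _ (by omega)
  have e3 : F (v + 4) (v + 6) (v + 2) (v + 4) = 0 := by
    rw [h.s1, h.s2]
    exact h.lemA'' hr _ _ _ _ (by omega)
  rw [e1, e2, e3] at e
  rw [h.s2]
  simpa using e

/-- squares -/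
lemma lemB (hr : 13 ≤ r) (s v : ℤ) : F s s (v + 1) (v + 3) = 0 := by
  obtain ⟨n, hn⟩ := exists_near (by omega : 0 < r) s v
  rw [← h.perZ n, ← h.perZ2 n]
  set s' := s + n * r with hs'
  rw [abs_le] at hn
  have h0 : ¬ Cov r (s' - s') := not_cov (by omega) (by omega)
  rcases lt_trichotomy s' v with h1 | h1 | h1
  · rw [h.s3, h.s2]
    exact h.lemA'' hr _ _ _ _ (by omega)
  · rw [h1]; exact h.sq0 hr v
  · rw [h.r1b _ _ _ h0, h.s2]
    exact h.lemA'' hr _ _ _ _ (by omega)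

lemma lemB' (hr : 13 ≤ r) (s u w : ℤ) : F s s u w = 0 := by
  have hst : ¬ Cov r (s - s) := not_cov (by omega) (by omega)
  by_cases hc : Cov r (u - w)
  · obtain ⟨n, hn⟩ := hc
    rw [← h.perZ3 n]
    rcases hn with hn | hn | hn | hn | hn | hn
    · have e1 := h.r1b s s (w + 3) hst
      rw [h.lemB hr s, show w + 3 - 3 = w by ring, show w + 3 - 2 = w + 1 by ring] at e1
      rw [show u + n * r = w + 1 by omega, h.s3, ← e1]
    · have e1 := h.lemB hr s (w - 1)
      rw [show w - 1 + 1 = w by ring, show w - 1 + 3 = w + 2 by ring] at e1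
      rw [show u + n * r = w + 2 by omega, h.s3, e1]
    · have e1 := h.r1a s s (w + 1) hst
      rw [h.lemB hr s, show w + 1 - 1 = w by ring, show w + 1 + 2 = w + 3 by ring] at e1
      rw [show u + n * r = w + 3 by omega, h.s3, ← e1]
    · have e1 := h.r1b s s (w + 2) hst
      rw [h.lemB hr s, show w + 2 - 3 = w - 1 by ring, show w + 2 - 2 = w by ring] at e1
      rw [show u + n * r = w - 1 by omega, ← e1]
    · have e1 := h.lemB hr s (w - 3)
      rw [show w - 3 + 1 = w - 2 by ring, show w - 3 + 3 = w by ring] at e1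
      rw [show u + n * r = w - 2 by omega, e1]
    · have e1 := h.r1a s s (w - 2) hst
      rw [h.lemB hr s, show w - 2 - 1 = w - 3 by ring, show w - 2 + 2 = w by ring] at e1
      rw [show u + n * r = w - 3 by omega, ← e1]
  · exact h.r0 _ _ _ _ hst hc

/-- four consecutive points -/
lemma cons (hr : 13 ≤ r) (i : ℤ) : F i (i + 1) (i + 2) (i + 3) = 0 := by
  have e := h.r2' (i + 3) (i + 5)
  rw [show i + 3 - 3 = i by ring, show i + 3 - 2 = i + 1 by ring, show i + 5 - 3 = i + 2 by ring,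
    show i + 5 - 2 = i + 3 by ring, show i + 5 + 1 = i + 6 by ring, show i + 5 + 3 = i + 8 by ring,
    show i + 3 + 1 = i + 4 by ring, show i + 3 + 3 = i + 6 by ring] at e
  have e1 : F i (i + 1) (i + 6) (i + 8) = 0 := by
    rw [h.s2]
    exact h.lemA'' hr _ _ _ _ (by omega)
  have e2 : F (i + 4) (i + 6) (i + 2) (i + 3) = 0 := by
    rw [h.s1, h.s2]
    exact h.lemA'' hr _ _ _ _ (by omega)
  have e3 : F (i + 4) (i + 6) (i + 6) (i + 8) = 0 := by
    rw [h.s3, h.s2]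
    exact h.lemA'' hr _ _ _ _ (by omega)
  rw [e1, e2, e3] at e
  simpa using e

/-- all values vanish -/
theorem all_zero (hr : 13 ≤ r) (a b c d : ℤ) : F a b c d = 0 := by
  by_cases hd1 : r ∣ b - a
  · obtain ⟨n, hn⟩ := hd1
    rw [show b = a + n * r by linarith, h.perZ2]
    exact h.lemB' hr _ _ _
  by_cases hd2 : r ∣ c - a
  · obtain ⟨n, hn⟩ := hd2
    rw [show c = a + n * r by linarith, h.perZ3, h.s2]
    exact h.lemB' hr _ _ _
  by_cases hd3 : r ∣ d - a
  · obtain ⟨n, hn⟩ := hd3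
    rw [show d = a + n * r by linarith, h.perZ4, h.s3, h.s2]
    exact h.lemB' hr _ _ _
  by_cases hd4 : r ∣ c - b
  · obtain ⟨n, hn⟩ := hd4
    rw [show c = b + n * r by linarith, h.perZ3, h.s1, h.s2]
    exact h.lemB' hr _ _ _
  by_cases hd5 : r ∣ d - b
  · obtain ⟨n, hn⟩ := hd5
    rw [show d = b + n * r by linarith, h.perZ4, h.s1, h.s3, h.s2]
    exact h.lemB' hr _ _ _
  by_cases hd6 : r ∣ d - c
  · obtain ⟨n, hn⟩ := hd6
    rw [show d = c + n * r by linarith, h.perZ4, h.sw]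
    exact h.lemB' hr _ _ _
  by_cases c1 : Cov r (b - a)
  swap
  · rw [h.s1]; exact h.lemA' hr _ _ _ _ c1 hd1
  by_cases c2 : Cov r (c - a)
  swap
  · rw [h.s2, h.s1]; exact h.lemA' hr _ _ _ _ c2 hd2
  by_cases c3 : Cov r (d - a)
  swap
  · rw [h.s3, h.s2, h.s1]; exact h.lemA' hr _ _ _ _ c3 hd3
  by_cases c4 : Cov r (c - b)
  swap
  · rw [h.s1, h.s2, h.s1]; exact h.lemA' hr _ _ _ _ c4 hd4
  by_cases c5 : Cov r (d - b)
  swap
  · rw [h.s3, h.s1, h.s2, h.s1]; exact h.lemA' hr _ _ _ _ c5 hd5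
  by_cases c6 : Cov r (d - c)
  swap
  · rw [h.s3, h.sw]; exact h.lemA' hr _ _ _ _ c6 hd6
  obtain ⟨n1, h1⟩ := c1
  obtain ⟨n2, h2⟩ := c2
  obtain ⟨n3, h3⟩ := c3
  rw [← h.perZ2 n1, ← h.perZ3 n2, ← h.perZ4 n3]
  have g4 : ∀ x : ℤ, (x = 0 ∨ (4 ≤ x ∧ x ≤ r - 4) ∨ (4 ≤ -x ∧ -x ≤ r - 4)) →
      c + n2 * r - (b + n1 * r) ≠ x := by
    rintro x (rfl | hx) hx'
    · apply hd4
      refine ⟨n1 - n2, ?_⟩
      have : c - b + (n2 - n1) * r = 0 := by linarith
      linarith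
    · have := not_cov (Or.inr hx) (by omega)
      rw [← hx'] at this
      apply this
      have e : c + n2 * r - (b + n1 * r) = c - b + (n2 - n1) * r := by ring
      rw [e, cov_add]
      exact c4
  have g5 : ∀ x : ℤ, (x = 0 ∨ (4 ≤ x ∧ x ≤ r - 4) ∨ (4 ≤ -x ∧ -x ≤ r - 4)) →
      d + n3 * r - (b + n1 * r) ≠ x := by
    rintro x (rfl | hx) hx'
    · apply hd5
      refine ⟨n1 - n3, ?_⟩
      linarith
    · have := not_cov (Or.inr hx) (by omega)
      rw [← hx'] at this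
      apply this
      have e : d + n3 * r - (b + n1 * r) = d - b + (n3 - n1) * r := by ring
      rw [e, cov_add]
      exact c5
  have g6 : ∀ x : ℤ, (x = 0 ∨ (4 ≤ x ∧ x ≤ r - 4) ∨ (4 ≤ -x ∧ -x ≤ r - 4)) →
      d + n3 * r - (c + n2 * r) ≠ x := by
    rintro x (rfl | hx) hx'
    · apply hd6
      refine ⟨n2 - n3, ?_⟩
      linarith
    · have := not_cov (Or.inr hx) (by omega)
      rw [← hx'] at this
      apply this
      have e : d + n3 * r - (c + n2 * r) = d - c + (n3 - n2) * r := by ring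
      rw [e, cov_add]
      exact c6
  set b' := b + n1 * r with hb'
  set c' := c + n2 * r with hc'
  set d' := d + n3 * r with hd'
  have f4 : ¬ (c' - b' = 0 ∨ (4 ≤ c' - b' ∧ c' - b' ≤ r - 4) ∨ (4 ≤ -(c' - b') ∧ -(c' - b') ≤ r - 4)) :=
    fun hh => g4 _ hh rfl
  have f5 : ¬ (d' - b' = 0 ∨ (4 ≤ d' - b' ∧ d' - b' ≤ r - 4) ∨ (4 ≤ -(d' - b') ∧ -(d' - b') ≤ r - 4)) :=
    fun hh => g5 _ hh rfl
  have f6 : ¬ (d' - c' = 0 ∨ (4 ≤ d' - c' ∧ d' - c' ≤ r - 4) ∨ (4 ≤ -(d' - c') ∧ -(d' - c') ≤ r - 4)) :=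
    fun hh => g6 _ hh rfl
  clear g4 g5 g6 hd1 hd2 hd3 hd4 hd5 hd6 c4 c5 c6
  have k1 : b' - a = 1 ∨ b' - a = 2 ∨ b' - a = 3 ∨ b' - a = -1 ∨ b' - a = -2 ∨ b' - a = -3 := by
    omega
  have k2 : c' - a = 1 ∨ c' - a = 2 ∨ c' - a = 3 ∨ c' - a = -1 ∨ c' - a = -2 ∨ c' - a = -3 := by
    omega
  have k3 : d' - a = 1 ∨ d' - a = 2 ∨ d' - a = 3 ∨ d' - a = -1 ∨ d' - a = -2 ∨ d' - a = -3 := by
    omega
  clear h1 h2 h3
  clear_value b' c' d'
  obtain ⟨m, m1, m2, m3, m4⟩ : ∃ m : ℤ, (a = m ∨ a = m + 1 ∨ a = m + 2 ∨ a = m + 3) ∧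
      (b' = m ∨ b' = m + 1 ∨ b' = m + 2 ∨ b' = m + 3) ∧
      (c' = m ∨ c' = m + 1 ∨ c' = m + 2 ∨ c' = m + 3) ∧
      (d' = m ∨ d' = m + 1 ∨ d' = m + 2 ∨ d' = m + 3) := by
    refine ⟨min (min a b') (min c' d'), ?_⟩
    omega
  have hcons := h.cons hr m
  clear hb' hc' hd' b c d n1 n2 n3
  rcases m1 with rfl | rfl | rfl | rfl <;> rcases m2 with rfl | rfl | rfl | rfl <;>
    first
    | (exfalso; omega)
    | (rcases m3 with rfl | rfl | rfl | rfl <;>
        first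
        | (exfalso; omega)
        | (rcases m4 with rfl | rfl | rfl | rfl <;>
            first
            | (exfalso; omega)
            | exact hcons
            | (simp only [h.s1, h.s2, h.s3] at hcons ⊢; exact hcons)))

end IF

end Pool.Agent.W455.Cub
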