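import Mathlib

set_option autoImplicit false
set_option linter.unusedSectionVars false

open Finset

namespace Pool.Agent.W455.Cub

/-- exponents of degree three -/
abbrev T3 (r : ℕ) : Type := {α : Fin r →₀ ℕ // α.degree = 3}

instance (r : ℕ) : Finite (T3 r) :=
  Set.Finite.to_subtype ((Finsupp.finite_of_degree_le 3).subset fun _ h => le_of_eq h)

noncomputable instance (r : ℕ) : Fintype (T3 r) := Fintype.ofFinite _

/-- the exponent of a product of three variables -/
noncomputable def ex {r : ℕ} (a b c : Fin r) : T3 r :=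
  ⟨Finsupp.single a 1 + Finsupp.single b 1 + Finsupp.single c 1, by simp⟩

section
variable {r : ℕ}

lemma ex12 (a b c : Fin r) : ex a b c = ex b a c := by
  apply Subtype.ext
  simp only [ex]
  rw [add_comm (Finsupp.single a 1)]

lemma ex23 (a b c : Fin r) : ex a b c = ex a c b := by
  apply Subtype.ext
  simp only [ex]
  rw [add_right_comm]

lemma ex13 (a b c : Fin r) : ex a b c = ex c b a := by
  rw [ex12, ex23, ex12]

end

variable {r : ℕ} {R : Type*} [CommRing R]

/-- the model algebra of a cubic form -/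
def MA (_ : T3 r → R) : Type _ := R × (Fin r → R) × (Fin r → R) × R

namespace MA

variable {p : T3 r → R}

instance : AddCommGroup (MA p) := inferInstanceAs (AddCommGroup (R × (Fin r → R) × (Fin r → R) × R))

instance {k : Type*} [CommSemiring k] [Algebra k R] : Module k (MA p) :=
  inferInstanceAs (Module k (R × (Fin r → R) × (Fin r → R) × R))

instance {k : Type*} [CommSemiring k] [Algebra k R] : IsScalarTower k R (MA p) :=
  inferInstanceAs (IsScalarTower k R (R × (Fin r → R) × (Fin r → R) × R))

/-- the components -/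
def c0 (x : MA p) : R := x.1
def c1 (x : MA p) : Fin r → R := x.2.1
def c2 (x : MA p) : Fin r → R := x.2.2.1
def c3 (x : MA p) : R := x.2.2.2

/-- constructor -/
def mk (a : R) (x y : Fin r → R) (b : R) : MA p := (a, x, y, b)

@[simp] lemma c0_mk (a : R) (x y : Fin r → R) (b : R) : (mk a x y b : MA p).c0 = a := rfl
@[simp] lemma c1_mk (a : R) (x y : Fin r → R) (b : R) : (mk a x y b : MA p).c1 = x := rfl
@[simp] lemma c2_mk (a : R) (x y : Fin r → R) (b : R) : (mk a x y b : MA p).c2 = y := rfl
@[simp] lemma c3_mk (a : R) (x y : Fin r → R) (b : R) : (mk a x y b : MA p).c3 = b := rfl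

lemma ext' {x y : MA p} (h0 : x.c0 = y.c0) (h1 : x.c1 = y.c1) (h2 : x.c2 = y.c2)
    (h3 : x.c3 = y.c3) : x = y := by
  obtain ⟨a, b, c, d⟩ := x
  obtain ⟨a', b', c', d'⟩ := y
  simp only [c0, c1, c2, c3] at h0 h1 h2 h3
  subst h0; subst h1; subst h2; subst h3
  rfl

@[simp] lemma c0_zero : (0 : MA p).c0 = 0 := rfl
@[simp] lemma c1_zero : (0 : MA p).c1 = 0 := rfl
@[simp] lemma c2_zero : (0 : MA p).c2 = 0 := rfl
@[simp] lemma c3_zero : (0 : MA p).c3 = 0 := rfl
@[simp] lemma c0_add (x y : MA p) : (x + y).c0 = x.c0 + y.c0 := rfl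
@[simp] lemma c1_add (x y : MA p) : (x + y).c1 = x.c1 + y.c1 := rfl
@[simp] lemma c2_add (x y : MA p) : (x + y).c2 = x.c2 + y.c2 := rfl
@[simp] lemma c3_add (x y : MA p) : (x + y).c3 = x.c3 + y.c3 := rfl

section
variable {k : Type*} [CommSemiring k] [Algebra k R]
@[simp] lemma c0_smul (a : k) (y : MA p) : (a • y).c0 = a • y.c0 := rfl
@[simp] lemma c1_smul (a : k) (y : MA p) : (a • y).c1 = a • y.c1 := rfl
@[simp] lemma c2_smul (a : k) (y : MA p) : (a • y).c2 = a • y.c2 := rfl
@[simp] lemma c3_smul (a : k) (y : MA p) : (a • y).c3 = a • y.c3 := rfl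
end

/-- the bilinear map of the cubic -/
noncomputable def E (p : T3 r → R) (x y : Fin r → R) (c : Fin r) : R :=
  ∑ a, ∑ b, p (ex a b c) * (x a * y b)

lemma E_comm (x y : Fin r → R) : E p x y = E p y x := by
  funext c
  unfold E
  rw [Finset.sum_comm]
  refine Finset.sum_congr rfl fun a _ => Finset.sum_congr rfl fun b _ => ?_
  rw [ex12, mul_comm (x b)]

lemma E_add (x y z : Fin r → R) : E p x (y + z) = E p x y + E p x z := by
  funext c
  simp only [E, Pi.add_apply, mul_add, Finset.sum_add_distrib]

lemma E_add' (x y z : Fin r → R) : E p (x + y) z = E p x z + E p y z := by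
  rw [E_comm, E_add, E_comm z x, E_comm z y]

lemma E_smul (a : R) (x y : Fin r → R) : E p x (a • y) = a • E p x y := by
  funext c
  simp only [E, Pi.smul_apply, smul_eq_mul, Finset.mul_sum]
  refine Finset.sum_congr rfl fun _ _ => Finset.sum_congr rfl fun _ _ => ?_
  ring

lemma E_smul' (a : R) (x y : Fin r → R) : E p (a • x) y = a • E p x y := by
  rw [E_comm, E_smul, E_comm]

@[simp] lemma E_zero (x : Fin r → R) : E p x 0 = 0 := by
  funext c
  simp [E]

@[simp] lemma E_zero' (x : Fin r → R) : E p 0 x = 0 := by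
  funext c
  simp [E]

/-- the trilinear form -/
noncomputable def tri (p : T3 r → R) (x y z : Fin r → R) : R := E p x y ⬝ᵥ z

lemma tri_eq (x y z : Fin r → R) : tri p x y z = ∑ a, ∑ b, ∑ c, p (ex a b c) * (x a * y b * z c) := by
  unfold tri E dotProduct
  simp only [Finset.sum_mul]
  rw [Finset.sum_comm]
  refine Finset.sum_congr rfl fun a _ => ?_
  rw [Finset.sum_comm]
  refine Finset.sum_congr rfl fun b _ => Finset.sum_congr rfl fun c _ => ?_
  ring

lemma tri_comm12 (x y z : Fin r → R) : tri p x y z = tri p y x z := by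
  unfold tri
  rw [E_comm]

lemma tri_comm23 (x y z : Fin r → R) : tri p x y z = tri p x z y := by
  rw [tri_eq, tri_eq]
  refine Finset.sum_congr rfl fun a _ => ?_
  rw [Finset.sum_comm]
  refine Finset.sum_congr rfl fun b _ => Finset.sum_congr rfl fun c _ => ?_
  rw [ex23]
  ring

noncomputable instance : Mul (MA p) where
  mul x y := mk (x.c0 * y.c0) (x.c0 • y.c1 + y.c0 • x.c1)
    (x.c0 • y.c2 + y.c0 • x.c2 + E p x.c1 y.c1)
    (x.c0 * y.c3 + y.c0 * x.c3 + (x.c1 ⬝ᵥ y.c2 + y.c1 ⬝ᵥ x.c2))

instance : One (MA p) where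
  one := mk 1 0 0 0

@[simp] lemma c0_mul (x y : MA p) : (x * y).c0 = x.c0 * y.c0 := rfl
@[simp] lemma c1_mul (x y : MA p) : (x * y).c1 = x.c0 • y.c1 + y.c0 • x.c1 := rfl
@[simp] lemma c2_mul (x y : MA p) :
    (x * y).c2 = x.c0 • y.c2 + y.c0 • x.c2 + E p x.c1 y.c1 := rfl
@[simp] lemma c3_mul (x y : MA p) :
    (x * y).c3 = x.c0 * y.c3 + y.c0 * x.c3 + (x.c1 ⬝ᵥ y.c2 + y.c1 ⬝ᵥ x.c2) := rfl
@[simp] lemma c0_one : (1 : MA p).c0 = 1 := rfl
@[simp] lemma c1_one : (1 : MA p).c1 = 0 := rfl
@[simp] lemma c2_one : (1 : MA p).c2 = 0 := rfl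
@[simp] lemma c3_one : (1 : MA p).c3 = 0 := rfl

protected lemma mul_comm' (x y : MA p) : x * y = y * x := by
  apply ext'
  · simp [mul_comm]
  · simp [add_comm]
  · simp [add_comm, E_comm]
  · simp only [c3_mul]
    rw [add_comm (x.c0 * y.c3), add_comm (x.c1 ⬝ᵥ y.c2)]

protected lemma mul_assoc' (x y z : MA p) : x * y * z = x * (y * z) := by
  apply ext'
  · simp [mul_assoc]
  · simp only [c0_mul, c1_mul]
    funext i
    simp only [Pi.add_apply, Pi.smul_apply, smul_eq_mul]
    ring
  · simp only [c0_mul, c1_mul, c2_mul, E_add, E_add', E_smul, E_smul']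
    funext i
    simp only [Pi.add_apply, Pi.smul_apply, smul_eq_mul]
    ring
  · simp only [c0_mul, c1_mul, c2_mul, c3_mul, add_dotProduct, dotProduct_add, smul_dotProduct,
      dotProduct_smul, smul_eq_mul]
    have h1 : E p x.c1 y.c1 ⬝ᵥ z.c1 = tri p x.c1 y.c1 z.c1 := rfl
    have h2 : E p y.c1 z.c1 ⬝ᵥ x.c1 = tri p x.c1 y.c1 z.c1 := by
      change tri p y.c1 z.c1 x.c1 = _
      rw [tri_comm23, tri_comm12]
    rw [dotProduct_comm z.c1 (E p x.c1 y.c1), dotProduct_comm x.c1 (E p y.c1 z.c1), h1, h2]
    ring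

noncomputable instance : CommRing (MA p) :=
  { (inferInstance : AddCommGroup (MA p)) with
    mul := (· * ·)
    one := 1
    mul_assoc := MA.mul_assoc'
    mul_comm := MA.mul_comm'
    one_mul := by
      intro x
      apply ext' <;> simp
    mul_one := by
      intro x
      apply ext' <;> simp
    zero_mul := by
      intro x
      apply ext' <;> simp
    mul_zero := by
      intro x
      apply ext' <;> simp
    left_distrib := by
      intro x y z
      apply ext'
      · simp [mul_add]
      · simp only [c1_mul, c1_add, c0_add, smul_add, add_smul]; abel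
      · simp only [c2_mul, c1_add, c0_add, c2_add, smul_add, add_smul, E_add]; abel
      · simp only [c3_mul, c1_add, c0_add, c2_add, c3_add, add_mul, mul_add, dotProduct_add,
          add_dotProduct]; abel
    right_distrib := by
      intro x y z
      apply ext'
      · simp [add_mul]
      · simp only [c1_mul, c1_add, c0_add, smul_add, add_smul]; abel
      · simp only [c2_mul, c1_add, c0_add, c2_add, smul_add, add_smul, E_add']; abel
      · simp only [c3_mul, c1_add, c0_add, c2_add, c3_add, add_mul, mul_add, dotProduct_add,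
          add_dotProduct]; abel }

noncomputable instance {k : Type*} [CommSemiring k] [Algebra k R] : Algebra k (MA p) :=
  Algebra.ofModule
    (by
      intro a x y
      apply ext'
      · simp
      · simp only [c0_smul, c1_smul, c1_mul, smul_add, smul_assoc]
        congr 1
        rw [smul_comm]
      · simp only [c2_mul, c0_smul, c1_smul, c2_smul, smul_add, smul_assoc]
        congr 1
        · congr 1
          rw [smul_comm]
        · rw [← algebraMap_smul R a x.c1, E_smul', algebraMap_smul]
      · simp only [c3_mul, c0_smul, c1_smul, c2_smul, c3_smul, smul_add, smul_dotProduct,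
          dotProduct_smul, smul_mul_assoc, mul_smul_comm])
    (by
      intro a x y
      apply ext'
      · simp
      · simp only [c0_smul, c1_smul, c1_mul, smul_add, smul_assoc]
        congr 1
        rw [smul_comm]
      · simp only [c2_mul, c0_smul, c1_smul, c2_smul, smul_add, smul_assoc]
        congr 1
        · congr 1
          rw [smul_comm]
        · rw [← algebraMap_smul R a y.c1, E_smul, algebraMap_smul]
      · simp only [c3_mul, c0_smul, c1_smul, c2_smul, c3_smul, smul_add, smul_dotProduct,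
          dotProduct_smul, smul_mul_assoc, mul_smul_comm])

/-- the first component as an algebra map -/
noncomputable def pr0 (k : Type*) [CommSemiring k] [Algebra k R] (p : T3 r → R) :
    MA p →ₐ[k] R where
  toFun := c0
  map_one' := rfl
  map_mul' _ _ := rfl
  map_zero' := rfl
  map_add' _ _ := rfl
  commutes' a := by
    rw [Algebra.algebraMap_eq_smul_one, c0_smul, c0_one, Algebra.algebraMap_eq_smul_one]

@[simp] lemma pr0_apply {k : Type*} [CommSemiring k] [Algebra k R] (x : MA p) :
    pr0 k p x = x.c0 := rfl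

lemma algebraMap_eq' (k : Type*) [CommSemiring k] [Algebra k R] (a : k) :
    algebraMap k (MA p) a = mk (algebraMap k R a) 0 0 0 := by
  rw [Algebra.algebraMap_eq_smul_one]
  apply ext'
  · simp [Algebra.algebraMap_eq_smul_one]
  · simp
  · simp
  · simp

section map
variable {k : Type*} [CommSemiring k] [Algebra k R] {R' : Type*} [CommRing R'] [Algebra k R']

/-- base change -/
noncomputable def map (φ : R →ₐ[k] R') (p : T3 r → R) : MA p →ₐ[k] MA (fun α => φ (p α)) where
  toFun x := mk (φ x.c0) (fun i => φ (x.c1 i)) (fun i => φ (x.c2 i)) (φ x.c3)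
  map_one' := by
    apply ext'
    · simp
    · funext i; simp
    · funext i; simp
    · simp
  map_mul' x y := by
    apply ext'
    · simp
    · funext i; simp
    · funext i; simp [E]
    · simp [dotProduct]
  map_zero' := by
    apply ext'
    · simp
    · funext i; simp
    · funext i; simp
    · simp
  map_add' x y := by
    apply ext'
    · simp
    · funext i; simp
    · funext i; simp
    · simp
  commutes' a := by
    rw [algebraMap_eq', algebraMap_eq']
    apply ext'
    · simp
    · funext i; simp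
    · funext i; simp
    · simp

@[simp] lemma map_c0 (φ : R →ₐ[k] R') (x : MA p) : (map φ p x).c0 = φ x.c0 := rfl
@[simp] lemma map_c1 (φ : R →ₐ[k] R') (x : MA p) (i : Fin r) : (map φ p x).c1 i = φ (x.c1 i) := rfl
@[simp] lemma map_c2 (φ : R →ₐ[k] R') (x : MA p) (i : Fin r) : (map φ p x).c2 i = φ (x.c2 i) := rfl
@[simp] lemma map_c3 (φ : R →ₐ[k] R') (x : MA p) : (map φ p x).c3 = φ x.c3 := rfl

lemma map_smul' (φ : R →ₐ[k] R') (a : R) (x : MA p) : map φ p (a • x) = φ a • map φ p x := by
  apply ext'
  · simp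
  · funext i; simp
  · funext i; simp
  · simp

end map

section coords

/-- the index set of the coordinates -/
abbrev Cx (r : ℕ) : Type := Unit ⊕ Fin r ⊕ Fin r ⊕ Unit

/-- enumeration of the coordinates -/
noncomputable def ce (r : ℕ) : Fin (2 * r + 2) ≃ Cx r :=
  Fintype.equivOfCardEq (by simp; omega)

/-- coordinate function on the sum type -/
def cx (x : MA p) : Cx r → R
  | Sum.inl _ => x.c0
  | Sum.inr (Sum.inl i) => x.c1 i
  | Sum.inr (Sum.inr (Sum.inl i)) => x.c2 i
  | Sum.inr (Sum.inr (Sum.inr _)) => x.c3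

/-- the coordinates -/
noncomputable def crd (p : T3 r → R) : MA p ≃ₗ[R] (Fin (2 * r + 2) → R) where
  toFun x j := cx x (ce r j)
  map_add' x y := by
    funext j
    simp only [Pi.add_apply]
    rcases ce r j with _ | _ | _ | _ <;> rfl
  map_smul' a x := by
    funext j
    simp only [Pi.smul_apply, RingHom.id_apply]
    rcases ce r j with _ | _ | _ | _ <;> rfl
  invFun f := mk (f ((ce r).symm (Sum.inl ()))) (fun i => f ((ce r).symm (Sum.inr (Sum.inl i))))
    (fun i => f ((ce r).symm (Sum.inr (Sum.inr (Sum.inl i)))))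
    (f ((ce r).symm (Sum.inr (Sum.inr (Sum.inr ())))))
  left_inv x := by
    apply ext'
    · simp [cx]
    · funext i; simp [cx]
    · funext i; simp [cx]
    · simp [cx]
  right_inv f := by
    funext j
    obtain ⟨j, rfl⟩ := (ce r).symm.surjective j
    rcases j with _ | _ | _ | _ <;> simp [cx]

lemma crd_apply (x : MA p) (j : Fin (2 * r + 2)) : crd p x j = cx x (ce r j) := rfl

lemma crd_map {k : Type*} [CommSemiring k] [Algebra k R] {R' : Type*} [CommRing R'] [Algebra k R']
    (φ : R →ₐ[k] R') (x : MA p) (j : Fin (2 * r + 2)) :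
    crd _ (map φ p x) j = φ (crd p x j) := by
  rw [crd_apply, crd_apply]
  rcases ce r j with _ | _ | _ | _ <;> rfl

lemma map_crd_symm {k : Type*} [CommSemiring k] [Algebra k R] {R' : Type*} [CommRing R']
    [Algebra k R'] (φ : R →ₐ[k] R') (f : Fin (2 * r + 2) → R) :
    map φ p ((crd p).symm f) = (crd _).symm (fun j => φ (f j)) := by
  apply (crd _).injective
  rw [LinearEquiv.apply_symm_apply]
  funext j
  rw [crd_map, LinearEquiv.apply_symm_apply]

end coords

/-- the standard generators -/
def ge (p : T3 r → R) (i : Fin r) : MA p := mk 0 (Pi.single i 1) 0 0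

lemma E_single (i j : Fin r) (c : Fin r) : E p (Pi.single i 1) (Pi.single j 1) c = p (ex i j c) := by
  unfold E
  rw [Finset.sum_eq_single i, Finset.sum_eq_single j]
  · simp
  · intro b _ hb; simp [hb]
  · simp
  · intro b _ hb; simp [hb]
  · simp

lemma ge_mul (i j : Fin r) : ge p i * ge p j = mk 0 0 (fun c => p (ex i j c)) 0 := by
  apply ext'
  · simp [ge]
  · simp [ge]
  · funext c
    simp [ge, E_single]
  · simp [ge]

lemma ge_mul3 (i j l : Fin r) : ge p i * ge p j * ge p l = mk 0 0 0 (p (ex i j l)) := by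
  rw [ge_mul]
  apply ext'
  · simp [ge]
  · simp [ge]
  · simp [ge]
  · simp [ge]

lemma mul4 (w x y z : MA p) (hw : w.c0 = 0) (hx : x.c0 = 0) (hy : y.c0 = 0) (hz : z.c0 = 0) :
    w * x * y * z = 0 := by
  apply ext'
  · simp [hw]
  · simp [hw, hx, hy, hz]
  · simp [hw, hx, hy, hz]
  · simp [hw, hx, hy, hz]

end MA

end Pool.Agent.W455.Cub
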