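import Mathlib
import Pool.Agent.W455.Cub.MA

set_option autoImplicit false
set_option linter.unusedSectionVars false

open MvPolynomial

universe u

namespace Pool.Agent.W455.Cub

variable {k : Type u} [Field k] {r : ℕ}

/-- evaluation at the standard generators -/
noncomputable def ev0 (p : T3 r → k) : MvPolynomial (Fin r) k →ₐ[k] MA p := aeval (MA.ge p)

/-- the ideal of the graded algebra of the cubic -/
noncomputable def I0 (p : T3 r → k) : Ideal (MvPolynomial (Fin r) k) := RingHom.ker (ev0 p)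

/-- the last component -/
noncomputable def c3L (p : T3 r → k) : MA p →ₗ[k] k where
  toFun x := x.c3
  map_add' _ _ := rfl
  map_smul' _ _ := rfl

/-- the socle functional -/
noncomputable def e0 (p : T3 r → k) : MvPolynomial (Fin r) k →ₗ[k] k :=
  c3L p ∘ₗ (ev0 p).toLinearMap

lemma e0_apply (p : T3 r → k) (f : MvPolynomial (Fin r) k) : e0 p f = (ev0 p f).c3 := rfl

lemma mem_I0 {p : T3 r → k} {f : MvPolynomial (Fin r) k} : f ∈ I0 p ↔ ev0 p f = 0 := Iff.rfl

@[simp] lemma ev0_X (p : T3 r → k) (i : Fin r) : ev0 p (X i) = MA.ge p i := by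
  simp [ev0]

lemma e0_X3 (p : T3 r → k) (a b c : Fin r) : e0 p (X a * X b * X c) = p (ex a b c) := by
  rw [e0_apply, map_mul, map_mul, ev0_X, ev0_X, ev0_X, MA.ge_mul3, MA.c3_mk]

lemma e0_mul_mem (p : T3 r → k) {f : MvPolynomial (Fin r) k} (hf : f ∈ I0 p)
    (g : MvPolynomial (Fin r) k) : e0 p (f * g) = 0 := by
  rw [e0_apply, map_mul, mem_I0.1 hf, zero_mul, MA.c3_zero]

lemma X2_mem {p : T3 r → k} {a b : Fin r} (h : ∀ e, p (ex a b e) = 0) :
    (X a * X b : MvPolynomial (Fin r) k) ∈ I0 p := by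
  rw [mem_I0, map_mul, ev0_X, ev0_X, MA.ge_mul]
  apply MA.ext'
  · simp
  · simp
  · funext e; simp [h]
  · simp

lemma X2_sub_mem {p : T3 r → k} {a b a' b' : Fin r} (h : ∀ e, p (ex a b e) = p (ex a' b' e)) :
    (X a * X b - X a' * X b' : MvPolynomial (Fin r) k) ∈ I0 p := by
  rw [mem_I0, map_sub, map_mul, map_mul, ev0_X, ev0_X, ev0_X, ev0_X, MA.ge_mul, MA.ge_mul,
    sub_eq_zero]
  congr 1
  funext e
  exact h e

lemma X3_mem {p : T3 r → k} {a b c : Fin r} (h : p (ex a b c) = 0) :
    (X a * X b * X c : MvPolynomial (Fin r) k) ∈ I0 p := by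
  rw [mem_I0, map_mul, map_mul, ev0_X, ev0_X, ev0_X, MA.ge_mul3, h]
  rfl

/-- a functional which vanishes on the square of the ideal -/
def Kills (p : T3 r → k) (D : MvPolynomial (Fin r) k →ₗ[k] k) : Prop :=
  ∀ f ∈ I0 p, ∀ g ∈ I0 p, D (f * g) = 0

/-- the functional of a derivation -/
noncomputable def dv (p : T3 r → k) (v : Fin r) : MvPolynomial (Fin r) k →ₗ[k] k :=
  e0 p ∘ₗ (pderiv v : Derivation k (MvPolynomial (Fin r) k) (MvPolynomial (Fin r) k)).toLinearMap

lemma dv_apply (p : T3 r → k) (v : Fin r) (f : MvPolynomial (Fin r) k) :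
    dv p v f = e0 p (pderiv v f) := rfl

lemma kills_dv (p : T3 r → k) (v : Fin r) : Kills p (dv p v) := by
  intro f hf g hg
  rw [dv_apply, Derivation.leibniz, map_add, smul_eq_mul, smul_eq_mul, e0_mul_mem p hf,
    e0_mul_mem p hg, add_zero]

lemma dv_X4 (p : T3 r → k) (v a b c d : Fin r) : dv p v (X a * X b * X c * X d) =
    (if a = v then p (ex b c d) else 0) + (if b = v then p (ex a c d) else 0) +
    (if c = v then p (ex a b d) else 0) + (if d = v then p (ex a b c) else 0) := by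
  have hX : ∀ i : Fin r, pderiv v (X i : MvPolynomial (Fin r) k) = if i = v then 1 else 0 := by
    intro i
    rw [pderiv_X, Pi.single_apply]
    
  rw [dv_apply]
  simp only [Derivation.leibniz, smul_eq_mul, hX]
  have e1 : (X a * X b * X c * (if d = v then 1 else 0) +
      X d * (X a * X b * (if c = v then 1 else 0) + X c * (X a * (if b = v then 1 else 0) +
        X b * (if a = v then 1 else 0))) : MvPolynomial (Fin r) k) =
      (if a = v then X b * X c * X d else 0) + (if b = v then X a * X c * X d else 0) +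
      (if c = v then X a * X b * X d else 0) + (if d = v then X a * X b * X c else 0) := by
    split_ifs <;> ring
  rw [e1, map_add, map_add, map_add]
  congr 1
  · congr 1
    · congr 1
      · split_ifs <;> simp [e0_X3]
      · split_ifs <;> simp [e0_X3]
    · split_ifs <;> simp [e0_X3]
  · split_ifs <;> simp [e0_X3]

/-- a cubic form given by a system of triples, with the combinatorial properties needed -/
structure TS (k : Type u) [Field k] (r : ℕ) where
  p : T3 r → k
  pr1 : Fin r → Fin r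
  pr2 : Fin r → Fin r
  hpr : ∀ v e, p (ex (pr1 v) (pr2 v) e) = if e = v then 1 else 0
  t1 : Fin r
  t2 : Fin r
  t3 : Fin r
  ht : p (ex t1 t2 t3) = 1
  n1 : Fin r → Fin r
  n2 : Fin r → Fin r
  n3 : Fin r → Fin r
  hn : ∀ v, p (ex (n1 v) (n2 v) (n3 v)) = 1
  hn12 : ∀ v, p (ex v (n1 v) (n2 v)) = 0
  hn13 : ∀ v, p (ex v (n1 v) (n3 v)) = 0
  hn23 : ∀ v, p (ex v (n2 v) (n3 v)) = 0
  force : ∀ D : MvPolynomial (Fin r) k →ₗ[k] k, Kills p D →
    (∀ v, D (X v * X (n1 v) * X (n2 v) * X (n3 v)) = 0) →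
    ∀ a b c d, D (X a * X b * X c * X d) = 0
  five : ∀ w v, ∃ a b c, p (ex a b c) = 1 ∧ p (ex v a b) = 0 ∧ p (ex v a c) = 0 ∧
    p (ex v b c) = 0 ∧ ∀ e, p (ex w c e) = 0

namespace TS
variable (T : TS k r)

lemma tnt4 (D : MvPolynomial (Fin r) k →ₗ[k] k) (hD : Kills T.p D) :
    ∃ μ : Fin r → k, ∀ a b c d, D (X a * X b * X c * X d) =
      ∑ v, μ v * dv T.p v (X a * X b * X c * X d) := by
  refine ⟨fun v => D (X v * X (T.n1 v) * X (T.n2 v) * X (T.n3 v)), ?_⟩
  set μ : Fin r → k := fun v => D (X v * X (T.n1 v) * X (T.n2 v) * X (T.n3 v)) with hμ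
  let D' : MvPolynomial (Fin r) k →ₗ[k] k := D - ∑ v, μ v • dv T.p v
  have hD' : ∀ f, D' f = D f - ∑ v, μ v * dv T.p v f := by
    intro f
    simp [D', LinearMap.sum_apply]
  intro a b c d
  have key := T.force D' ?_ ?_ a b c d
  · rw [hD', sub_eq_zero] at key
    exact key
  · intro f hf g hg
    rw [hD', hD f hf g hg, zero_sub, neg_eq_zero]
    refine Finset.sum_eq_zero fun v _ => ?_
    rw [kills_dv T.p v f hf g hg, mul_zero]
  · intro v
    rw [hD', sub_eq_zero]
    rw [Finset.sum_eq_single v]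
    · rw [dv_X4, if_pos rfl, T.hn, T.hn12, T.hn13, T.hn23]
      simp [hμ]
    · intro u _ hu
      rw [dv_X4, if_neg (Ne.symm hu), T.hn12, T.hn13, T.hn23]
      simp
    · simp

lemma kills_mul {D : MvPolynomial (Fin r) k →ₗ[k] k} (hD : Kills T.p D)
    (h : MvPolynomial (Fin r) k) : Kills T.p (D ∘ₗ LinearMap.mulLeft k h) := by
  intro f hf g hg
  rw [LinearMap.comp_apply, LinearMap.mulLeft_apply, ← mul_assoc]
  exact hD _ ((I0 T.p).mul_mem_left h hf) g hg

lemma five_zero' (D : MvPolynomial (Fin r) k →ₗ[k] k) (hD : Kills T.p D) (w a b c d : Fin r) :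
    D (X w * (X a * X b * X c * X d)) = 0 := by
  obtain ⟨μ, hμ⟩ := T.tnt4 _ (T.kills_mul hD (X w))
  have h0 : ∀ v, μ v = 0 := by
    intro v
    obtain ⟨a, b, c, h1, h2, h3, h4, h5⟩ := T.five w v
    have e1 := hμ v a b c
    rw [LinearMap.comp_apply, LinearMap.mulLeft_apply] at e1
    have e2 : D (X w * (X v * X a * X b * X c)) = 0 := by
      have e3 : (X w * (X v * X a * X b * X c) : MvPolynomial (Fin r) k) =
        (X w * X c) * (X v * X a * X b) := by ring
      rw [e3]
      exact hD _ (X2_mem h5) _ (X3_mem h2)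
    rw [e2, Finset.sum_eq_single v] at e1
    · rw [dv_X4, if_pos rfl, h1, h2, h3, h4] at e1
      simpa using e1.symm
    · intro u _ hu
      rw [dv_X4, if_neg (Ne.symm hu), h2, h3, h4]
      simp
    · simp
  have e1 := hμ a b c d
  rw [LinearMap.comp_apply, LinearMap.mulLeft_apply] at e1
  rw [e1]
  simp [h0]

lemma five_zero (l : List (Fin r)) (hl : 5 ≤ l.length) :
    ∀ (D : MvPolynomial (Fin r) k →ₗ[k] k), Kills T.p D →
      D (l.map (fun i => (X i : MvPolynomial (Fin r) k))).prod = 0 := by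
  induction l with
  | nil => simp at hl
  | cons w l ih =>
    intro D hD
    by_cases h5 : 5 ≤ l.length
    · have := ih h5 _ (T.kills_mul hD (X w))
      rw [LinearMap.comp_apply, LinearMap.mulLeft_apply] at this
      rw [List.map_cons, List.prod_cons]
      exact this
    · have h4 : l.length = 4 := by
        rw [List.length_cons] at hl
        omega
      obtain ⟨a, b, c, d, rfl⟩ : ∃ a b c d, l = [a, b, c, d] := by
        rcases l with _ | ⟨a, _ | ⟨b, _ | ⟨c, _ | ⟨d, _ | ⟨e, l⟩⟩⟩⟩⟩ <;> simp at h4 ⊢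
      have := T.five_zero' D hD w a b c d
      rw [← this]
      congr 1
      simp only [List.map_cons, List.prod_cons, List.map_nil, List.prod_nil]
      ring

theorem tnt (D : MvPolynomial (Fin r) k →ₗ[k] k) (hD : Kills T.p D) :
    ∃ μ : Fin r → k, ∀ l : List (Fin r), 4 ≤ l.length →
      D (l.map (fun i => (X i : MvPolynomial (Fin r) k))).prod =
      ∑ v, μ v * dv T.p v (l.map (fun i => (X i : MvPolynomial (Fin r) k))).prod := by
  obtain ⟨μ, hμ⟩ := T.tnt4 D hD
  refine ⟨μ, ?_⟩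
  intro l hl
  by_cases h5 : 5 ≤ l.length
  · rw [T.five_zero l h5 D hD]
    symm
    refine Finset.sum_eq_zero fun v _ => ?_
    rw [T.five_zero l h5 _ (kills_dv T.p v), mul_zero]
  · have h4 : l.length = 4 := by omega
    obtain ⟨a, b, c, d, rfl⟩ : ∃ a b c d, l = [a, b, c, d] := by
      rcases l with _ | ⟨a, _ | ⟨b, _ | ⟨c, _ | ⟨d, _ | ⟨e, l⟩⟩⟩⟩⟩ <;> simp at h4 ⊢
    have e : (([a, b, c, d] : List (Fin r)).map (fun i => (X i : MvPolynomial (Fin r) k))).prod =
        X a * X b * X c * X d := by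
      simp only [List.map_cons, List.prod_cons, List.map_nil, List.prod_nil]
      ring
    rw [e]
    exact hμ a b c d

end TS

end Pool.Agent.W455.Cub
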