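import Mathlib
import Pool.Agent.W455.Cub.TNT
import Pool.Agent.W455.Cub.Circ

set_option autoImplicit false
set_option linter.unusedSectionVars false

open MvPolynomial

universe u

namespace Pool.Agent.W455.Cub

section ex
variable {r : ℕ}

lemma ex_toMultiset (a b c : Fin r) : Finsupp.toMultiset (ex a b c).1 = a ::ₘ b ::ₘ c ::ₘ 0 := by
  simp only [ex, map_add, Finsupp.toMultiset_single, one_smul]
  rfl

lemma perm3 {α : Type*} {x y z x' y' z' : α}
    (h : x ::ₘ y ::ₘ z ::ₘ 0 = x' ::ₘ y' ::ₘ z' ::ₘ (0 : Multiset α)) :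
    (x = x' ∧ y = y' ∧ z = z') ∨ (x = x' ∧ y = z' ∧ z = y') ∨ (x = y' ∧ y = x' ∧ z = z') ∨
      (x = y' ∧ y = z' ∧ z = x') ∨ (x = z' ∧ y = x' ∧ z = y') ∨ (x = z' ∧ y = y' ∧ z = x') := by
  have two : ∀ {a b a' b' : α}, a ::ₘ b ::ₘ 0 = a' ::ₘ b' ::ₘ (0 : Multiset α) →
      (a = a' ∧ b = b') ∨ (a = b' ∧ b = a') := by
    intro a b a' b' h
    have ha : a ∈ a' ::ₘ b' ::ₘ (0 : Multiset α) := by rw [← h]; simp
    simp only [Multiset.mem_cons, Multiset.notMem_zero, or_false] at ha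
    rcases ha with rfl | rfl
    · rw [Multiset.cons_inj_right] at h
      left
      refine ⟨rfl, ?_⟩
      have hb : b ∈ b' ::ₘ (0 : Multiset α) := by rw [← h]; simp
      simpa using hb
    · rw [Multiset.cons_swap a' a, Multiset.cons_inj_right] at h
      right
      refine ⟨rfl, ?_⟩
      have hb : b ∈ a' ::ₘ (0 : Multiset α) := by rw [← h]; simp
      simpa using hb
  have hx : x ∈ x' ::ₘ y' ::ₘ z' ::ₘ (0 : Multiset α) := by rw [← h]; simp
  simp only [Multiset.mem_cons, Multiset.notMem_zero, or_false] at hx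
  rcases hx with rfl | rfl | rfl
  · rw [Multiset.cons_inj_right] at h
    rcases two h with ⟨h1, h2⟩ | ⟨h1, h2⟩ <;> simp [h1, h2]
  · rw [Multiset.cons_swap x' x, Multiset.cons_inj_right] at h
    rcases two h with ⟨h1, h2⟩ | ⟨h1, h2⟩ <;> simp [h1, h2]
  · rw [Multiset.cons_swap y' x, Multiset.cons_swap x' x, Multiset.cons_inj_right] at h
    rcases two h with ⟨h1, h2⟩ | ⟨h1, h2⟩ <;> simp [h1, h2]

lemma ex_eq {x y z x' y' z' : Fin r} (h : ex x y z = ex x' y' z') :
    (x = x' ∧ y = y' ∧ z = z') ∨ (x = x' ∧ y = z' ∧ z = y') ∨ (x = y' ∧ y = x' ∧ z = z') ∨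
      (x = y' ∧ y = z' ∧ z = x') ∨ (x = z' ∧ y = x' ∧ z = y') ∨ (x = z' ∧ y = y' ∧ z = x') := by
  apply perm3
  rw [← ex_toMultiset, ← ex_toMultiset, h]

end ex

section circ

variable {r : ℕ} (hr : 13 ≤ r)

/-- the cast of an integer -/
def q (m : ℤ) : Fin r :=
  ⟨(m % (r : ℤ)).toNat, by
    have h0 : (0 : ℤ) < r := by omega
    have h1 := Int.emod_nonneg m h0.ne'
    have h2 := Int.emod_lt_of_pos m h0
    omega⟩

lemma q_eq_iff (x y : ℤ) : q hr x = q hr y ↔ (r : ℤ) ∣ x - y := by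
  have h0 : (0 : ℤ) < r := by omega
  have h1 := Int.emod_nonneg x h0.ne'
  have h2 := Int.emod_nonneg y h0.ne'
  rw [Fin.ext_iff]
  simp only [q]
  constructor
  · intro h
    have h3 : y % (r : ℤ) = x % r := by omega
    exact Int.ModEq.dvd (n := (r : ℤ)) (a := y) (b := x) h3
  · intro h
    have h3 : y % (r : ℤ) = x % r := (Int.modEq_iff_dvd (n := (r : ℤ)) (a := y) (b := x)).2 h
    omega

lemma q_val (x : Fin r) : q hr (x.val : ℤ) = x := by
  apply Fin.ext
  simp only [q]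
  rw [Int.emod_eq_of_lt (by omega) (by omega)]
  simp

lemma q_surj (x : Fin r) : ∃ m : ℤ, q hr m = x := ⟨_, q_val hr x⟩

open Classical in
/-- the cubic of the circulant system -/
noncomputable def pc (k : Type u) [Field k] : T3 r → k := fun α =>
  if ∃ m : ℤ, α = ex (q hr m) (q hr (m + 1)) (q hr (m + 3)) then 1 else 0

variable (k : Type u) [Field k]

lemma pc_triple (m : ℤ) : pc hr k (ex (q hr m) (q hr (m + 1)) (q hr (m + 3))) = 1 :=
  if_pos ⟨m, rfl⟩

lemma pc_unc (a b : ℤ) (h : ¬ Cov (r : ℤ) (a - b)) (e : Fin r) :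
    pc hr k (ex (q hr a) (q hr b) e) = 0 := by
  unfold pc
  rw [if_neg]
  rintro ⟨m, hm⟩
  apply h
  have key : ∀ i j : ℤ, q hr a = q hr i → q hr b = q hr j → ∃ n : ℤ, a - b + n * r = i - j := by
    intro i j h1 h2
    rw [q_eq_iff] at h1 h2
    obtain ⟨c, hc⟩ := h1
    obtain ⟨c', hc'⟩ := h2
    refine ⟨c' - c, ?_⟩
    linarith
  rcases ex_eq hm with ⟨h1, h2, _⟩ | ⟨h1, h2, _⟩ | ⟨h1, h2, _⟩ | ⟨h1, h2, _⟩ | ⟨h1, h2, _⟩ |
      ⟨h1, h2, _⟩
  all_goals
    obtain ⟨n, hn⟩ := key _ _ h1 h2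
    exact ⟨n, by omega⟩

/-- values on a covered pair -/
lemma pc_cov (x y z : ℤ) (h : (y = x + 1 ∧ z = x + 3) ∨ (y = x + 3 ∧ z = x + 1) ∨
    (y = x + 2 ∧ z = x - 1)) (e : Fin r) :
    pc hr k (ex (q hr x) (q hr y) e) = if e = q hr z then 1 else 0 := by
  have hz : ∀ t : ℤ, (r : ℤ) ∣ t → |t| < 13 → t = 0 := by
    intro t h1 h2
    apply Int.eq_zero_of_abs_lt_dvd h1
    omega
  split_ifs with he
  · subst he
    rcases h with ⟨rfl, rfl⟩ | ⟨rfl, rfl⟩ | ⟨rfl, rfl⟩
    · exact pc_triple hr k x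
    · rw [ex23]; exact pc_triple hr k x
    · have := pc_triple hr k (x - 1)
      rw [show x - 1 + 1 = x by ring, show x - 1 + 3 = x + 2 by ring] at this
      rw [← this]
      congr 1
      rw [ex23, ex12]
  · unfold pc
    rw [if_neg]
    rintro ⟨m, hm⟩
    apply he
    rcases ex_eq hm with ⟨h1, h2, h3⟩ | ⟨h1, h2, h3⟩ | ⟨h1, h2, h3⟩ | ⟨h1, h2, h3⟩ | ⟨h1, h2, h3⟩ |
      ⟨h1, h2, h3⟩
    all_goals
      rw [h3, q_eq_iff]
      rw [q_eq_iff] at h1 h2
      obtain ⟨c, hc⟩ := h1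
      obtain ⟨c', hc'⟩ := h2
      rcases h with ⟨rfl, rfl⟩ | ⟨rfl, rfl⟩ | ⟨rfl, rfl⟩
      all_goals
        first
        | exact ⟨-c, by linarith⟩
        | (exfalso
           have h5 : (r : ℤ) ∣ r * (c - c') := dvd_mul_right _ _
           have h6 : (r : ℤ) * (c - c') = r * c - r * c' := by ring
           have h7 := hz _ h5 (by rw [h6, ← hc, ← hc', abs_lt]; constructor <;> linarith)
           rw [h6, ← hc, ← hc'] at h7
           omega)

lemma q_per (a : ℤ) : q hr (a + r) = q hr a := by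
  rw [q_eq_iff]
  simp

/-- the values of a functional -/
noncomputable def FF (D : MvPolynomial (Fin r) k →ₗ[k] k) (a b c d : ℤ) : k :=
  D (X (q hr a) * X (q hr b) * X (q hr c) * X (q hr d))

lemma isIF (D : MvPolynomial (Fin r) k →ₗ[k] k) (hD : Kills (pc hr k) D)
    (hn : ∀ v : ℤ, FF hr k D v (v + 4) (v + 5) (v + 7) = 0) : IF (r : ℤ) (FF hr k D) where
  s1 a b c d := by unfold FF; congr 1; ring
  s2 a b c d := by unfold FF; congr 1; ring
  s3 a b c d := by unfold FF; congr 1; ring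
  per a b c d := by unfold FF; rw [q_per]
  r0 a b c d h1 h2 := by
    unfold FF
    rw [mul_assoc]
    exact hD _ (X2_mem (pc_unc hr k a b h1)) _ (X2_mem (pc_unc hr k c d h2))
  r1a a b v h := by
    unfold FF
    rw [← sub_eq_zero, ← map_sub]
    have e : (X (q hr a) * X (q hr b) * X (q hr (v + 1)) * X (q hr (v + 3)) -
        X (q hr a) * X (q hr b) * X (q hr (v - 1)) * X (q hr (v + 2)) : MvPolynomial (Fin r) k) =
        (X (q hr a) * X (q hr b)) * (X (q hr (v + 1)) * X (q hr (v + 3)) -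
          X (q hr (v - 1)) * X (q hr (v + 2))) := by ring
    rw [e]
    refine hD _ (X2_mem (pc_unc hr k a b h)) _ (X2_sub_mem fun e => ?_)
    rw [pc_cov hr k (v + 1) (v + 3) v (by omega), pc_cov hr k (v - 1) (v + 2) v (by omega)]
  r1b a b v h := by
    unfold FF
    rw [← sub_eq_zero, ← map_sub]
    have e : (X (q hr a) * X (q hr b) * X (q hr (v + 1)) * X (q hr (v + 3)) -
        X (q hr a) * X (q hr b) * X (q hr (v - 3)) * X (q hr (v - 2)) : MvPolynomial (Fin r) k) =
        (X (q hr a) * X (q hr b)) * (X (q hr (v + 1)) * X (q hr (v + 3)) -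
          X (q hr (v - 3)) * X (q hr (v - 2))) := by ring
    rw [e]
    refine hD _ (X2_mem (pc_unc hr k a b h)) _ (X2_sub_mem fun e => ?_)
    rw [pc_cov hr k (v + 1) (v + 3) v (by omega), pc_cov hr k (v - 3) (v - 2) v (by omega)]
  r2 v w := by
    unfold FF
    rw [← map_sub, ← map_sub, ← map_add]
    have e : (X (q hr (v - 3)) * X (q hr (v - 2)) * X (q hr (w - 1)) * X (q hr (w + 2)) -
        X (q hr (v - 3)) * X (q hr (v - 2)) * X (q hr (w + 1)) * X (q hr (w + 3)) -
        X (q hr (v + 1)) * X (q hr (v + 3)) * X (q hr (w - 1)) * X (q hr (w + 2)) +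
        X (q hr (v + 1)) * X (q hr (v + 3)) * X (q hr (w + 1)) * X (q hr (w + 3)) :
          MvPolynomial (Fin r) k) =
        (X (q hr (v - 3)) * X (q hr (v - 2)) - X (q hr (v + 1)) * X (q hr (v + 3))) *
        (X (q hr (w - 1)) * X (q hr (w + 2)) - X (q hr (w + 1)) * X (q hr (w + 3))) := by ring
    rw [e]
    refine hD _ (X2_sub_mem fun e => ?_) _ (X2_sub_mem fun e => ?_)
    · rw [pc_cov hr k (v - 3) (v - 2) v (by omega), pc_cov hr k (v + 1) (v + 3) v (by omega)]
    · rw [pc_cov hr k (w - 1) (w + 2) w (by omega), pc_cov hr k (w + 1) (w + 3) w (by omega)]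
  r2' v w := by
    unfold FF
    rw [← map_sub, ← map_sub, ← map_add]
    have e : (X (q hr (v - 3)) * X (q hr (v - 2)) * X (q hr (w - 3)) * X (q hr (w - 2)) -
        X (q hr (v - 3)) * X (q hr (v - 2)) * X (q hr (w + 1)) * X (q hr (w + 3)) -
        X (q hr (v + 1)) * X (q hr (v + 3)) * X (q hr (w - 3)) * X (q hr (w - 2)) +
        X (q hr (v + 1)) * X (q hr (v + 3)) * X (q hr (w + 1)) * X (q hr (w + 3)) :
          MvPolynomial (Fin r) k) =
        (X (q hr (v - 3)) * X (q hr (v - 2)) - X (q hr (v + 1)) * X (q hr (v + 3))) *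
        (X (q hr (w - 3)) * X (q hr (w - 2)) - X (q hr (w + 1)) * X (q hr (w + 3))) := by ring
    rw [e]
    refine hD _ (X2_sub_mem fun e => ?_) _ (X2_sub_mem fun e => ?_)
    · rw [pc_cov hr k (v - 3) (v - 2) v (by omega), pc_cov hr k (v + 1) (v + 3) v (by omega)]
    · rw [pc_cov hr k (w - 3) (w - 2) w (by omega), pc_cov hr k (w + 1) (w + 3) w (by omega)]
  nrm v := hn v

lemma q_val_add (v a : ℤ) : q hr ((q hr v).val + a) = q hr (v + a) := by
  rw [q_eq_iff]
  have h : q hr ((q hr v).val : ℤ) = q hr v := q_val hr _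
  rw [q_eq_iff] at h
  rw [show ((q hr v).val : ℤ) + a - (v + a) = (q hr v).val - v by ring]
  exact h

include hr in
lemma unc_add (v w a : ℤ) (h : w - v = a) (ha : a = 4 ∨ a = 5 ∨ a = 7 ∨ a = 0) :
    ¬ Cov (r : ℤ) (v - w) := not_cov (by omega) (by omega)

/-- the circulant system -/
noncomputable def TS13 : TS k r where
  p := pc hr k
  pr1 v := q hr (v.val + 1)
  pr2 v := q hr (v.val + 3)
  hpr v e := by
    rw [pc_cov hr k _ _ v.val (by omega), q_val]
  t1 := q hr 0
  t2 := q hr (0 + 1)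
  t3 := q hr (0 + 3)
  ht := pc_triple hr k 0
  n1 v := q hr (v.val + 4)
  n2 v := q hr (v.val + 5)
  n3 v := q hr (v.val + 7)
  hn v := by
    have := pc_triple hr k (v.val + 4)
    rwa [show (v.val : ℤ) + 4 + 1 = v.val + 5 by ring,
      show (v.val : ℤ) + 4 + 3 = v.val + 7 by ring] at this
  hn12 v := by
    conv_lhs => rw [← q_val hr v, q_val_add]
    exact pc_unc hr k _ _ (unc_add hr _ _ 4 (by ring) (by omega)) _
  hn13 v := by
    conv_lhs => rw [← q_val hr v, q_val_add]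
    exact pc_unc hr k _ _ (unc_add hr _ _ 4 (by ring) (by omega)) _
  hn23 v := by
    conv_lhs => rw [← q_val hr v, q_val_add]
    exact pc_unc hr k _ _ (unc_add hr _ _ 5 (by ring) (by omega)) _
  force D hD hn a b c d := by
    have h := isIF hr k D hD (by
      intro v
      have := hn (q hr v)
      rw [q_val_add, q_val_add, q_val_add] at this
      exact this)
    obtain ⟨a, rfl⟩ := q_surj hr a
    obtain ⟨b, rfl⟩ := q_surj hr b
    obtain ⟨c, rfl⟩ := q_surj hr c
    obtain ⟨d, rfl⟩ := q_surj hr d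
    exact h.all_zero (by omega) a b c d
  five w v := by
    obtain ⟨w, rfl⟩ := q_surj hr w
    obtain ⟨v, rfl⟩ := q_surj hr v
    by_cases hwv : q hr w = q hr v
    · rw [hwv]
      refine ⟨q hr (v + 5), q hr (v + 7), q hr (v + 4), ?_, ?_, ?_, ?_, ?_⟩
      · have := pc_triple hr k (v + 4)
        rw [← this, show v + 4 + 1 = v + 5 by ring, show v + 4 + 3 = v + 7 by ring]
        congr 1
        rw [ex23, ex12]
      · exact pc_unc hr k _ _ (unc_add hr _ _ 5 (by ring) (by omega)) _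
      · exact pc_unc hr k _ _ (unc_add hr _ _ 5 (by ring) (by omega)) _
      · exact pc_unc hr k _ _ (unc_add hr _ _ 7 (by ring) (by omega)) _
      · exact pc_unc hr k _ _ (unc_add hr _ _ 4 (by ring) (by omega))
    · by_cases h1 : q hr v = q hr (w + 1) ∨ q hr v = q hr (w + 3)
      · have hz : ∀ t : ℤ, (r : ℤ) ∣ t → |t| < 13 → t = 0 := by
          intro t h1 h2
          apply Int.eq_zero_of_abs_lt_dvd h1
          omega
        have hne : ∀ i j : ℤ, q hr v = q hr (w + i) → i - j ≠ 0 → |i - j| < 13 →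
            q hr v ≠ q hr (w + j) := by
          intro i j hi hj hj' hv
          rw [hi, q_eq_iff] at hv
          exact hj (hz _ (by convert hv using 1; ring) hj')
        have ha : q hr v ≠ q hr (w - 1) := by
          rcases h1 with h1 | h1
          · exact hne 1 (-1) h1 (by norm_num) (by norm_num)
          · exact hne 3 (-1) h1 (by norm_num) (by norm_num)
        have hb : q hr v ≠ q hr (w + 2) := by
          rcases h1 with h1 | h1
          · exact hne 1 2 h1 (by norm_num) (by norm_num)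
          · exact hne 3 2 h1 (by norm_num) (by norm_num)
        refine ⟨q hr (w - 1), q hr (w + 2), q hr w, ?_, ?_, ?_, ?_, ?_⟩
        · rw [pc_cov hr k (w - 1) (w + 2) w (by omega), if_pos rfl]
        · rw [ex13, ex12, pc_cov hr k (w - 1) (w + 2) w (by omega), if_neg (fun h => hwv h.symm)]
        · rw [ex13, ex12, pc_cov hr k (w - 1) w (w + 2) (by omega), if_neg hb]
        · rw [ex13, pc_cov hr k w (w + 2) (w - 1) (by omega), if_neg ha]
        · exact pc_unc hr k _ _ (unc_add hr _ _ 0 (by ring) (by omega))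
      · rw [not_or] at h1
        refine ⟨q hr (w + 1), q hr (w + 3), q hr w, ?_, ?_, ?_, ?_, ?_⟩
        · rw [pc_cov hr k (w + 1) (w + 3) w (by omega), if_pos rfl]
        · rw [ex12, ex23, pc_cov hr k (w + 1) (w + 3) w (by omega), if_neg (fun h => hwv h.symm)]
        · rw [ex13, pc_cov hr k w (w + 1) (w + 3) (by omega), if_neg h1.2]
        · rw [ex13, pc_cov hr k w (w + 3) (w + 1) (by omega), if_neg h1.1]
        · exact pc_unc hr k _ _ (unc_add hr _ _ 0 (by ring) (by omega))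

end circ
end Pool.Agent.W455.Cub
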