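import Mathlib
import Pool.Agent.W455.Cub.Inst13
import Pool.Agent.W455.Cub.Cert

set_option autoImplicit false
set_option linter.unusedSectionVars false

open MvPolynomial

universe u

namespace Pool.Agent.W455.Cub

/-- the symmetry test -/
def gsym (r tab : ℕ) : Bool :=
  (List.range r).all fun a => (List.range r).all fun b => (List.range r).all fun c =>
    !(cl tab a b == c) || (cl tab b a == c && cl tab a c == b)

/-- the test of the pairs -/
def gpair (r tab tabP : ℕ) : Bool :=
  (List.range r).all fun v => decide (nb tabP (2 * v) < r) && decide (nb tabP (2 * v + 1) < r) &&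
    cl tab (nb tabP (2 * v)) (nb tabP (2 * v + 1)) == v

/-- the test of the normalising triples -/
def gnorm (r tab tabN : ℕ) : Bool :=
  (List.range r).all fun v => decide (nb tabN (3 * v) < r) && decide (nb tabN (3 * v + 1) < r) &&
    decide (nb tabN (3 * v + 2) < r) &&
    cl tab (nb tabN (3 * v)) (nb tabN (3 * v + 1)) == nb tabN (3 * v + 2) &&
    !(cl tab v (nb tabN (3 * v)) == nb tabN (3 * v + 1)) &&
    !(cl tab v (nb tabN (3 * v)) == nb tabN (3 * v + 2)) &&
    !(cl tab v (nb tabN (3 * v + 1)) == nb tabN (3 * v + 2))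

/-- the test of the last condition -/
def gfive (r tab : ℕ) : Bool :=
  (List.range r).all fun w => (List.range r).all fun v => (List.range r).any fun a =>
    (List.range r).any fun c => decide (cl tab a c < r) && cl tab w c == 15 &&
      !(cl tab v a == cl tab a c) && !(cl tab v a == c) && !(cl tab v (cl tab a c) == c)

section
variable {r : ℕ} (tab : ℕ)

open Classical in
/-- the cubic of the table -/
noncomputable def pt (k : Type u) [Field k] (r tab : ℕ) : T3 r → k := fun α =>
  if ∃ a b c : Fin r, cl tab a b = c ∧ α = ex a b c then 1 else 0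

variable {tab} (hs : gsym r tab = true)
include hs

lemma sym_of {a b c : ℕ} (ha : a < r) (hb : b < r) (hc : c < r) (h : cl tab a b = c) :
    cl tab b a = c ∧ cl tab a c = b := by
  unfold gsym at hs
  simp only [List.all_eq_true, List.mem_range] at hs
  have := hs a ha b hb c hc
  simpa [h] using this

lemma pt_ex (k : Type u) [Field k] (a b c : Fin r) :
    pt k r tab (ex a b c) = if cl tab a b = c then 1 else 0 := by
  unfold pt
  by_cases h : cl tab a b = c
  · rw [if_pos h, if_pos ⟨a, b, c, h, rfl⟩]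
  · rw [if_neg h, if_neg]
    rintro ⟨a', b', c', h', he⟩
    apply h
    have s12 := (sym_of hs a'.2 b'.2 c'.2 h').1
    have s23 := (sym_of hs a'.2 b'.2 c'.2 h').2
    have s13a := (sym_of hs b'.2 a'.2 c'.2 s12).2
    have s13 := (sym_of hs b'.2 c'.2 a'.2 s13a).1
    have s3 := (sym_of hs a'.2 c'.2 b'.2 s23).1
    rcases ex_eq he with ⟨rfl, rfl, rfl⟩ | ⟨rfl, rfl, rfl⟩ | ⟨rfl, rfl, rfl⟩ | ⟨rfl, rfl, rfl⟩ |
      ⟨rfl, rfl, rfl⟩ | ⟨rfl, rfl, rfl⟩
    · exact h'
    · exact s23
    · exact s12
    · exact s13a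
    · exact s3
    · exact s13

end

/-- the system of a table -/
noncomputable def TSfin (k : Type u) [Field k] (r tab tabN tabP t1 t2 t3 : ℕ) (steps : List ℕ)
    (h0 : 0 < r) (hr : r ≤ 15) (hs : gsym r tab = true) (hp : gpair r tab tabP = true)
    (hn : gnorm r tab tabN = true) (hf : gfive r tab = true)
    (ht : t1 < r ∧ t2 < r ∧ t3 < r ∧ cl tab t1 t2 = t3)
    (hrun : run r tab tabN steps 0 = true) : TS k r :=
  have hp' : ∀ v : Fin r, nb tabP (2 * v) < r ∧ nb tabP (2 * v + 1) < r ∧
      cl tab (nb tabP (2 * v)) (nb tabP (2 * v + 1)) = v := by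
    intro v
    unfold gpair at hp
    simp only [List.all_eq_true, List.mem_range, Bool.and_eq_true, decide_eq_true_eq,
      beq_iff_eq] at hp
    obtain ⟨⟨h1, h2⟩, h3⟩ := hp v v.2
    exact ⟨h1, h2, h3⟩
  have hn' : ∀ v : Fin r, nb tabN (3 * v) < r ∧ nb tabN (3 * v + 1) < r ∧
      nb tabN (3 * v + 2) < r ∧
      cl tab (nb tabN (3 * v)) (nb tabN (3 * v + 1)) = nb tabN (3 * v + 2) ∧
      cl tab v (nb tabN (3 * v)) ≠ nb tabN (3 * v + 1) ∧
      cl tab v (nb tabN (3 * v)) ≠ nb tabN (3 * v + 2) ∧
      cl tab v (nb tabN (3 * v + 1)) ≠ nb tabN (3 * v + 2) := by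
    intro v
    unfold gnorm at hn
    simp only [List.all_eq_true, List.mem_range, Bool.and_eq_true, decide_eq_true_eq,
      beq_iff_eq, Bool.not_eq_true', beq_eq_false_iff_ne] at hn
    obtain ⟨⟨⟨⟨⟨⟨h1, h2⟩, h3⟩, h4⟩, h5⟩, h6⟩, h7⟩ := hn v v.2
    exact ⟨h1, h2, h3, h4, h5, h6, h7⟩
  have hU : ∀ a b : Fin r, cl tab a b = 15 → ∀ e, pt k r tab (ex a b e) = 0 := by
    intro a b h e
    rw [pt_ex hs, if_neg]
    omega
  have hC : ∀ a b e f : Fin r, cl tab a b = cl tab e f → ∀ x,
      pt k r tab (ex a b x) = pt k r tab (ex e f x) := by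
    intro a b e f h x
    rw [pt_ex hs, pt_ex hs, h]
  { p := pt k r tab
    pr1 := fun v => ⟨nb tabP (2 * v), (hp' v).1⟩
    pr2 := fun v => ⟨nb tabP (2 * v + 1), (hp' v).2.1⟩
    hpr := by
      intro v e
      rw [pt_ex hs]
      simp only [(hp' v).2.2]
      by_cases h : e = v
      · rw [if_pos h, h, if_pos rfl]
      · rw [if_neg h, if_neg]
        intro h'
        exact h (Fin.ext h'.symm)
    t1 := ⟨t1, ht.1⟩
    t2 := ⟨t2, ht.2.1⟩
    t3 := ⟨t3, ht.2.2.1⟩
    ht := by
      rw [pt_ex hs]
      exact if_pos ht.2.2.2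
    n1 := fun v => ⟨nb tabN (3 * v), (hn' v).1⟩
    n2 := fun v => ⟨nb tabN (3 * v + 1), (hn' v).2.1⟩
    n3 := fun v => ⟨nb tabN (3 * v + 2), (hn' v).2.2.1⟩
    hn := by
      intro v
      rw [pt_ex hs]
      exact if_pos (hn' v).2.2.2.1
    hn12 := by
      intro v
      rw [pt_ex hs]
      exact if_neg (hn' v).2.2.2.2.1
    hn13 := by
      intro v
      rw [pt_ex hs]
      exact if_neg (hn' v).2.2.2.2.2.1
    hn23 := by
      intro v
      rw [pt_ex hs]
      exact if_neg (hn' v).2.2.2.2.2.2
    force := by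
      intro D hD hN
      let g : ℕ → Fin r := fun n => ⟨n % r, Nat.mod_lt _ h0⟩
      have hg : ∀ n, n < r → ((g n : Fin r) : ℕ) = n := fun n hn => Nat.mod_eq_of_lt hn
      let F : ℕ → ℕ → ℕ → ℕ → k := fun a b c d => D (X (g a) * X (g b) * X (g c) * X (g d))
      have hF : ∀ a b c d, F a b c d = D (X (g a) * X (g b) * X (g c) * X (g d)) :=
        fun _ _ _ _ => rfl
      have hrel : FRel r tab tabN F :=
        { s1 := by intro a b c d; rw [hF, hF]; congr 1; ring
          s2 := by intro a b c d; rw [hF, hF]; congr 1; ring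
          s3 := by intro a b c d; rw [hF, hF]; congr 1; ring
          r0 := by
            intro a b c d ha hb hc hd h1 h2
            rw [hF, mul_assoc]
            refine hD _ (X2_mem (hU _ _ ?_)) _ (X2_mem (hU _ _ ?_))
            · rw [hg a ha, hg b hb, h1]
            · rw [hg c hc, hg d hd, h2]
          r1 := by
            intro a b c d e f ha hb hc hd he hf h1 h2
            rw [hF, hF, ← sub_eq_zero, ← map_sub]
            have e1 : (X (g a) * X (g b) * X (g c) * X (g d) -
                X (g a) * X (g b) * X (g e) * X (g f) : MvPolynomial (Fin r) k) =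
                (X (g a) * X (g b)) * (X (g c) * X (g d) - X (g e) * X (g f)) := by ring
            rw [e1]
            refine hD _ (X2_mem (hU _ _ ?_)) _ (X2_sub_mem (hC _ _ _ _ ?_))
            · rw [hg a ha, hg b hb, h1]
            · rw [hg c hc, hg d hd, hg e he, hg f hf, h2]
          r2 := by
            intro a b c d e f x y ha hb hc hd he hf hx hy h1 h2
            rw [hF, hF, hF, hF, ← map_sub, ← map_sub, ← map_add]
            have e1 : (X (g a) * X (g b) * X (g c) * X (g d) -
                X (g a) * X (g b) * X (g x) * X (g y) - X (g e) * X (g f) * X (g c) * X (g d) +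
                X (g e) * X (g f) * X (g x) * X (g y) : MvPolynomial (Fin r) k) =
                (X (g a) * X (g b) - X (g e) * X (g f)) * (X (g c) * X (g d) - X (g x) * X (g y)) := by
              ring
            rw [e1]
            refine hD _ (X2_sub_mem (hC _ _ _ _ ?_)) _ (X2_sub_mem (hC _ _ _ _ ?_))
            · rw [hg a ha, hg b hb, hg e he, hg f hf, h1]
            · rw [hg c hc, hg d hd, hg x hx, hg y hy, h2]
          nrm := by
            intro a ha
            rw [hF]
            have h1 := hn' ⟨a, ha⟩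
            simp only at h1
            have h2 := hN ⟨a, ha⟩
            have e0 : g a = ⟨a, ha⟩ := Fin.ext (hg a ha)
            have e1 : g (nb tabN (3 * a)) = ⟨nb tabN (3 * a), h1.1⟩ := Fin.ext (hg _ h1.1)
            have e2 : g (nb tabN (3 * a + 1)) = ⟨nb tabN (3 * a + 1), h1.2.1⟩ :=
              Fin.ext (hg _ h1.2.1)
            have e3 : g (nb tabN (3 * a + 2)) = ⟨nb tabN (3 * a + 2), h1.2.2.1⟩ :=
              Fin.ext (hg _ h1.2.2.1)
            rw [e0, e1, e2, e3]
            exact h2 }
      intro a b c d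
      have h := hrel.all_zero (by omega) steps hrun a b c d a.2 b.2 c.2 d.2
      rw [hF] at h
      have e : ∀ a : Fin r, g a = a := fun a => Fin.ext (hg a a.2)
      rw [e, e, e, e] at h
      exact h
    five := by
      intro w v
      unfold gfive at hf
      simp only [List.all_eq_true, List.any_eq_true, List.mem_range, Bool.and_eq_true,
        decide_eq_true_eq, beq_iff_eq, Bool.not_eq_true', beq_eq_false_iff_ne] at hf
      obtain ⟨a, ha, c, hc, ⟨⟨⟨⟨h1, h2⟩, h3⟩, h4⟩, h5⟩⟩ := hf w w.2 v v.2
      refine ⟨⟨a, ha⟩, ⟨cl tab a c, h1⟩, ⟨c, hc⟩, ?_, ?_, ?_, ?_, ?_⟩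
      · rw [pt_ex hs, if_pos]
        exact (sym_of hs ha hc h1 rfl).2
      · rw [pt_ex hs, if_neg]
        exact h3
      · rw [pt_ex hs, if_neg]
        exact h4
      · rw [pt_ex hs, if_neg]
        exact h5
      · exact hU w ⟨c, hc⟩ h2 }

end Pool.Agent.W455.Cub
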