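import Mathlib
import Pool.Agent.W455.Cub.InstFin
import Pool.Agent.W455.Cub.Data

set_option autoImplicit false

universe u

namespace Pool.Agent.W455.Cub

/-- the system for `r = 8` -/
noncomputable def TS8 (k : Type u) [Field k] : TS k 8 :=
  TSfin k 8 tab8 tabN8 tabP8 1 2 7 steps8 (by norm_num) (by norm_num)
    (by decide +kernel) (by decide +kernel) (by decide +kernel) (by decide +kernel)
    (by decide +kernel) run8

/-- the system for `r = 9` -/
noncomputable def TS9 (k : Type u) [Field k] : TS k 9 :=
  TSfin k 9 tab9 tabN9 tabP9 0 1 3 steps9 (by norm_num) (by norm_num)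
    (by decide +kernel) (by decide +kernel) (by decide +kernel) (by decide +kernel)
    (by decide +kernel) run9

/-- the system for `r = 10` -/
noncomputable def TS10 (k : Type u) [Field k] : TS k 10 :=
  TSfin k 10 tab10 tabN10 tabP10 0 4 8 steps10 (by norm_num) (by norm_num)
    (by decide +kernel) (by decide +kernel) (by decide +kernel) (by decide +kernel)
    (by decide +kernel) run10

/-- the system for `r = 11` -/
noncomputable def TS11 (k : Type u) [Field k] : TS k 11 :=
  TSfin k 11 tab11 tabN11 tabP11 0 4 6 steps11 (by norm_num) (by norm_num)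
    (by decide +kernel) (by decide +kernel) (by decide +kernel) (by decide +kernel)
    (by decide +kernel) run11

/-- the system for `r = 12` -/
noncomputable def TS12 (k : Type u) [Field k] : TS k 12 :=
  TSfin k 12 tab12 tabN12 tabP12 0 1 3 steps12 (by norm_num) (by norm_num)
    (by decide +kernel) (by decide +kernel) (by decide +kernel) (by decide +kernel)
    (by decide +kernel) run12

theorem exists_TS (k : Type u) [Field k] (r : ℕ) (hr : 8 ≤ r) : Nonempty (TS k r) := by
  by_cases h : 13 ≤ r
  · exact ⟨TS13 h k⟩
  · have h1 : r = 8 ∨ r = 9 ∨ r = 10 ∨ r = 11 ∨ r = 12 := by omega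
    rcases h1 with rfl | rfl | rfl | rfl | rfl
    · exact ⟨TS8 k⟩
    · exact ⟨TS9 k⟩
    · exact ⟨TS10 k⟩
    · exact ⟨TS11 k⟩
    · exact ⟨TS12 k⟩

end Pool.Agent.W455.Cub
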