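import Mathlib

set_option autoImplicit false

open MvPolynomial

universe u

namespace Pool.Agent.W455.Cub

variable {k : Type u} [Field k] {r : ℕ}

/-- The coefficient of the monomial with exponent `β` in `f ∘ F`, where the polynomial ring acts
by contraction on polynomials: the monomial with exponent `α` sends the monomial with exponent
`γ` to the monomial with exponent `γ - α` if `α ≤ γ`, and to `0` otherwise. -/
noncomputable def contr (f F : MvPolynomial (Fin r) k) (β : Fin r →₀ ℕ) : k :=
  ∑ α ∈ f.support, f.coeff α * F.coeff (α + β)

/-- the contraction as a linear map in the first argument -/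
noncomputable def contrL (F : MvPolynomial (Fin r) k) (β : Fin r →₀ ℕ) :
    MvPolynomial (Fin r) k →ₗ[k] k :=
  (basisMonomials (Fin r) k).constr k (fun α => F.coeff (α + β))

lemma contrL_monomial (F : MvPolynomial (Fin r) k) (α β : Fin r →₀ ℕ) :
    contrL F β (monomial α 1) = F.coeff (α + β) := by
  have h : (monomial α (1 : k)) = (basisMonomials (Fin r) k) α := by
    rw [coe_basisMonomials]
  rw [contrL, h, Module.Basis.constr_basis]

lemma contr_eq (f F : MvPolynomial (Fin r) k) (β : Fin r →₀ ℕ) : contr f F β = contrL F β f := by
  conv_rhs => rw [f.as_sum]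
  rw [map_sum, contr]
  refine Finset.sum_congr rfl fun α _ => ?_
  rw [← contrL_monomial, ← smul_eq_mul, ← map_smul, smul_monomial, smul_eq_mul, mul_one]

lemma contrL_mul (F f : MvPolynomial (Fin r) k) (α β : Fin r →₀ ℕ) :
    contrL F β (monomial α 1 * f) = contrL F (α + β) f := by
  have h : contrL F β ∘ₗ LinearMap.mulLeft k (monomial α 1) = contrL F (α + β) := by
    apply (basisMonomials (Fin r) k).ext
    intro γ
    have h : (basisMonomials (Fin r) k) γ = (monomial γ (1 : k)) := by
      rw [coe_basisMonomials]
    rw [h, LinearMap.comp_apply, LinearMap.mulLeft_apply, monomial_mul, one_mul, contrL_monomial,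
      contrL_monomial]
    congr 1
    rw [add_comm α γ, add_assoc]
  exact LinearMap.congr_fun h f

/-- The annihilator of `F`, an ideal of the polynomial ring. -/
noncomputable def annC (F : MvPolynomial (Fin r) k) : Ideal (MvPolynomial (Fin r) k) where
  carrier := {f | ∀ β, contr f F β = 0}
  add_mem' {f g} hf hg β := by
    rw [contr_eq, map_add, ← contr_eq, ← contr_eq, hf β, hg β, add_zero]
  zero_mem' β := by rw [contr_eq, map_zero]
  smul_mem' g f hf β := by
    rw [smul_eq_mul, contr_eq]
    induction g using MvPolynomial.induction_on' with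
    | monomial α a =>
      have h : (monomial α a : MvPolynomial (Fin r) k) = a • monomial α 1 := by
        rw [smul_monomial, smul_eq_mul, mul_one]
      rw [h, smul_mul_assoc, map_smul, contrL_mul, ← contr_eq, hf, smul_zero]
    | add p q hp hq => rw [add_mul, map_add, hp, hq, add_zero]

lemma mem_annC {F f : MvPolynomial (Fin r) k} : f ∈ annC F ↔ ∀ β, contr f F β = 0 := Iff.rfl

lemma mem_annC_iff {F f : MvPolynomial (Fin r) k} :
    f ∈ annC F ↔ ∀ g, contrL F 0 (g * f) = 0 := by
  constructor
  · intro h g
    have := (annC F).mul_mem_left g h 0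
    rwa [contr_eq] at this
  · intro h β
    have := h (monomial β 1)
    rw [contrL_mul, add_zero] at this
    rw [contr_eq, this]

end Pool.Agent.W455.Cub
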