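import Mathlib
import Pool.Agent.W455.Cub.MA
import Pool.Agent.Helper226.LociPts

set_option autoImplicit false
set_option linter.unusedSectionVars false

open scoped TensorProduct
open MvPolynomial
open Pool.Agent.Helper226

universe u

namespace Pool.Agent.W455.Cub

section general

variable {k : Type u} [Field k] {B : Type u} [CommRing B] [Algebra k B] {d : ℕ}
variable {R : Type u} [CommRing R] [Algebra k R]
variable {M : Type u} [CommRing M] [Algebra k M] [Algebra R M] [IsScalarTower k R M]

lemma basis_equivFun_self (bas : Module.Basis (Fin d) R M) (i : Fin d) :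
    bas.equivFun (bas i) = Pi.single i 1 := by
  funext j
  rw [bas.equivFun_self, Pi.single_apply]
  simp only [eq_comm]

/-- the chart datum given by an algebra with a basis -/
noncomputable def bchart (ev : B →ₐ[k] M) (b : Fin d → B) (bas : Module.Basis (Fin d) R M)
    (h : ∀ j, bas j = ev (b j)) : Chart k b R where
  q := (bas.equivFun.toLinearMap.restrictScalars k) ∘ₗ ev.toLinearMap
  q_b i := by
    simp only [LinearMap.comp_apply, AlgHom.toLinearMap_apply, LinearMap.restrictScalars_apply,
      LinearEquiv.coe_coe, ← h]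
    exact basis_equivFun_self bas i
  q_mul x y := by
    simp only [LinearMap.comp_apply, AlgHom.toLinearMap_apply, LinearMap.restrictScalars_apply,
      LinearEquiv.coe_coe, map_mul]
    conv_lhs => rw [← bas.sum_equivFun (ev x), Finset.sum_mul, map_sum]
    refine Finset.sum_congr rfl fun j _ => ?_
    rw [smul_mul_assoc, map_smul, h]

lemma bchart_q (ev : B →ₐ[k] M) (b : Fin d → B) (bas : Module.Basis (Fin d) R M)
    (h : ∀ j, bas j = ev (b j)) (x : B) : (bchart ev b bas h).q x = bas.equivFun (ev x) := rfl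

lemma bchart_sum (ev : B →ₐ[k] M) (b : Fin d → B) (bas : Module.Basis (Fin d) R M)
    (h : ∀ j, bas j = ev (b j)) (x : B) : ∑ j, (bchart ev b bas h).q x j • ev (b j) = ev x := by
  simp only [bchart_q, ← h]
  exact bas.sum_equivFun (ev x)

lemma bchart_unique (ev : B →ₐ[k] M) (b : Fin d → B) (bas : Module.Basis (Fin d) R M)
    (h : ∀ j, bas j = ev (b j)) (c : Chart k b R)
    (hc : ∀ x, ∑ j, c.q x j • ev (b j) = ev x) : c = bchart ev b bas h := by
  ext x : 1
  rw [bchart_q, ← hc x]
  simp only [← h]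
  rw [← bas.equivFun_symm_apply, LinearEquiv.apply_symm_apply]

/-- the extension of the evaluation -/
noncomputable def evR (R : Type u) [CommRing R] [Algebra k R] [Algebra R M] [IsScalarTower k R M]
    (ev : B →ₐ[k] M) : R ⊗[k] B →ₐ[R] M :=
  Algebra.TensorProduct.lift (Algebra.ofId R M) ev (fun _ _ => Commute.all _ _)

lemma evR_tmul (ev : B →ₐ[k] M) (a : R) (x : B) : evR R ev (a ⊗ₜ x) = a • ev x := by
  unfold evR
  rw [Algebra.TensorProduct.lift_tmul, Algebra.smul_def]
  rfl

lemma bchart_L (ev : B →ₐ[k] M) (b : Fin d → B) (bas : Module.Basis (Fin d) R M)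
    (h : ∀ j, bas j = ev (b j)) (x : R ⊗[k] B) :
    (bchart ev b bas h).L x = bas.equivFun (evR R ev x) := by
  induction x using TensorProduct.induction_on with
  | zero => simp
  | add x y hx hy => rw [map_add, map_add, map_add, hx, hy]
  | tmul a x => rw [Chart.L_tmul, evR_tmul, map_smul, bchart_q]

lemma bchart_ideal (ev : B →ₐ[k] M) (b : Fin d → B) (bas : Module.Basis (Fin d) R M)
    (h : ∀ j, bas j = ev (b j)) : (bchart ev b bas h).ideal = RingHom.ker (evR R ev) := by
  ext x
  rw [Chart.mem_ideal, bchart_L, RingHom.mem_ker]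
  constructor
  · intro h0
    exact bas.equivFun.injective (by rw [h0, map_zero])
  · intro h0
    rw [h0, map_zero]

lemma bchart_q_eq_zero (ev : B →ₐ[k] M) (b : Fin d → B) (bas : Module.Basis (Fin d) R M)
    (h : ∀ j, bas j = ev (b j)) (x : B) : (bchart ev b bas h).q x = 0 ↔ ev x = 0 := by
  rw [bchart_q]
  constructor
  · intro h0
    exact bas.equivFun.injective (by rw [h0, map_zero])
  · intro h0
    rw [h0, map_zero]

end general

section fam

variable {k : Type u} [Field k] {r : ℕ} {R : Type u} [CommRing R] [Algebra k R]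

/-- the coordinate matrix -/
noncomputable def Nmat (p : T3 r → R) (y : Fin r → MA p)
    (b : Fin (2 * r + 2) → MvPolynomial (Fin r) k) : Matrix (Fin (2 * r + 2)) (Fin (2 * r + 2)) R :=
  Matrix.of fun j i => MA.crd p (aeval y (b j)) i

/-- multiplication by the inverse of a matrix -/
noncomputable def eqv {d : ℕ} (N : Matrix (Fin d) (Fin d) R) (h : IsUnit N.det) :
    (Fin d → R) ≃ₗ[R] (Fin d → R) where
  toFun v := Matrix.vecMul v N⁻¹
  map_add' v w := Matrix.add_vecMul _ _ _
  map_smul' a v := Matrix.smul_vecMul _ _ _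
  invFun v := Matrix.vecMul v N
  left_inv v := by
    change Matrix.vecMul (Matrix.vecMul v N⁻¹) N = v
    rw [Matrix.vecMul_vecMul, Matrix.nonsing_inv_mul _ h, Matrix.vecMul_one]
  right_inv v := by
    change Matrix.vecMul (Matrix.vecMul v N) N⁻¹ = v
    rw [Matrix.vecMul_vecMul, Matrix.mul_nonsing_inv _ h, Matrix.vecMul_one]

variable {p : T3 r → R} {y : Fin r → MA p} {b : Fin (2 * r + 2) → MvPolynomial (Fin r) k}

/-- the basis of the model algebra -/
noncomputable def fbas (h : IsUnit (Nmat p y b).det) : Module.Basis (Fin (2 * r + 2)) R (MA p) :=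
  Module.Basis.ofEquivFun ((MA.crd p).trans (eqv _ h))

lemma fbas_apply (h : IsUnit (Nmat p y b).det) (j : Fin (2 * r + 2)) :
    fbas h j = aeval y (b j) := by
  unfold fbas
  rw [Module.Basis.coe_ofEquivFun]
  apply (MA.crd p).injective
  simp only [LinearEquiv.trans_symm, LinearEquiv.trans_apply, LinearEquiv.apply_symm_apply]
  change Matrix.vecMul (Pi.single j 1) (Nmat p y b) = _
  rw [Matrix.single_one_vecMul]
  rfl

variable (p y b) in
/-- the chart datum of a member of the family -/
noncomputable def fch (h : IsUnit (Nmat p y b).det) : Chart k b R :=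
  bchart (aeval y) b (fbas h) (fbas_apply h)

lemma fch_sum (h : IsUnit (Nmat p y b).det) (x : MvPolynomial (Fin r) k) :
    ∑ j, (fch p y b h).q x j • (aeval y (b j) : MA p) = aeval y x :=
  bchart_sum _ _ _ _ x

lemma fch_unique (h : IsUnit (Nmat p y b).det) (c : Chart k b R)
    (hc : ∀ x, ∑ j, c.q x j • (aeval y (b j) : MA p) = aeval y x) : c = fch p y b h :=
  bchart_unique _ _ _ _ c hc

lemma fch_q_eq_zero (h : IsUnit (Nmat p y b).det) (x : MvPolynomial (Fin r) k) :
    (fch p y b h).q x = 0 ↔ (aeval y x : MA p) = 0 := bchart_q_eq_zero _ _ _ _ x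

lemma fch_ideal (h : IsUnit (Nmat p y b).det) :
    (fch p y b h).ideal = RingHom.ker (evR R (aeval y : MvPolynomial (Fin r) k →ₐ[k] MA p)) :=
  bchart_ideal _ _ _ _

section map
variable {R' : Type u} [CommRing R'] [Algebra k R'] (φ : R →ₐ[k] R')

/-- compatible data -/
structure Compat (φ : R →ₐ[k] R') (p : T3 r → R) (y : Fin r → MA p) (p' : T3 r → R')
    (y' : Fin r → MA p') : Prop where
  hp : ∀ α, φ (p α) = p' α
  hy : ∀ i j, MA.crd p' (y' i) j = φ (MA.crd p (y i) j)

variable {φ} {p' : T3 r → R'} {y' : Fin r → MA p'}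

lemma Compat.elim (h : Compat φ p y p' y') : ∃ ψ : MA p →ₐ[k] MA p',
    (∀ a x, ψ (a • x) = φ a • ψ x) ∧ (∀ x j, MA.crd p' (ψ x) j = φ (MA.crd p x j)) ∧
    (∀ i, ψ (y i) = y' i) := by
  obtain ⟨hp, hy⟩ := h
  obtain rfl : (fun α => φ (p α)) = p' := funext hp
  refine ⟨MA.map φ p, fun a x => MA.map_smul' φ a x, fun x j => MA.crd_map φ x j, fun i => ?_⟩
  apply (MA.crd _).injective
  funext j
  rw [hy, MA.crd_map]

lemma Compat.ev (h : Compat φ p y p' y') : ∃ ψ : MA p →ₐ[k] MA p',
    (∀ a x, ψ (a • x) = φ a • ψ x) ∧ (∀ x j, MA.crd p' (ψ x) j = φ (MA.crd p x j)) ∧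
    (∀ f : MvPolynomial (Fin r) k, ψ (aeval y f) = aeval y' f) := by
  obtain ⟨ψ, h1, h2, h3⟩ := h.elim
  refine ⟨ψ, h1, h2, fun f => ?_⟩
  rw [← AlgHom.comp_apply, comp_aeval]
  congr 2
  funext i
  exact h3 i

lemma Compat.Nmat (h : Compat φ p y p' y') (b : Fin (2 * r + 2) → MvPolynomial (Fin r) k) :
    (Nmat p y b).map φ = Nmat p' y' b := by
  obtain ⟨ψ, h1, h2, h3⟩ := h.ev
  ext j i
  simp only [Cub.Nmat, Matrix.map_apply, Matrix.of_apply]
  rw [← h2, h3]

lemma Compat.det (h : Compat φ p y p' y') (b : Fin (2 * r + 2) → MvPolynomial (Fin r) k) :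
    φ (Cub.Nmat p y b).det = (Cub.Nmat p' y' b).det := by
  rw [← h.Nmat b, AlgHom.map_det]
  rfl

lemma Compat.isUnit (h : Compat φ p y p' y') {b : Fin (2 * r + 2) → MvPolynomial (Fin r) k}
    (hu : IsUnit (Cub.Nmat p y b).det) : IsUnit (Cub.Nmat p' y' b).det := by
  rw [← h.det b]
  exact hu.map φ

lemma Compat.fch (h : Compat φ p y p' y') {b : Fin (2 * r + 2) → MvPolynomial (Fin r) k}
    (hu : IsUnit (Cub.Nmat p y b).det) (hu' : IsUnit (Cub.Nmat p' y' b).det) :
    (Cub.fch p y b hu).map φ = Cub.fch p' y' b hu' := by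
  obtain ⟨ψ, h1, h2, h3⟩ := h.ev
  apply fch_unique
  intro x
  rw [← h3 x, ← fch_sum hu x, map_sum]
  refine Finset.sum_congr rfl fun j _ => ?_
  rw [h1, h3, Chart.map_q]

end map

end fam

section univ

variable (k : Type u) [Field k] (r : ℕ)

/-- the variables of the family -/
abbrev Vr : Type := T3 r ⊕ (Fin r × Fin (2 * r + 2))

/-- the coordinate ring of the parameter space -/
abbrev A0 : Type u := MvPolynomial (Vr r) k

/-- the universal cubic -/
noncomputable def pU : T3 r → A0 k r := fun α => X (Sum.inl α)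

/-- the universal generators -/
noncomputable def yU : Fin r → MA (pU k r) := fun i =>
  (MA.crd _).symm (fun j => X (Sum.inr (i, j)))

variable {k r}
variable {R : Type u} [CommRing R] [Algebra k R]

/-- evaluation of the parameters -/
noncomputable def evA (k : Type u) [Field k] [Algebra k R] (p : T3 r → R) (y : Fin r → MA p) :
    A0 k r →ₐ[k] R :=
  aeval (Sum.elim p (fun ij => MA.crd p (y ij.1) ij.2))

lemma evA_compat (p : T3 r → R) (y : Fin r → MA p) : Compat (evA k p y) (pU k r) (yU k r) p y where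
  hp α := by
    simp [evA, pU]
  hy i j := by
    simp [evA, yU]

variable (b : Fin (2 * r + 2) → MvPolynomial (Fin r) k)

/-- the discriminant -/
noncomputable def dU : A0 k r := (Nmat (pU k r) (yU k r) b).det

variable (k r) in
/-- the function field of the parameter space -/
abbrev KK : Type u := FractionRing (A0 k r)

variable (k r) in
/-- the generic cubic -/
noncomputable def pK : T3 r → KK k r := fun α => algebraMap (A0 k r) (KK k r) (pU k r α)

variable (k r) in
/-- the generic generators -/
noncomputable def yK : Fin r → MA (pK k r) := fun i =>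
  (MA.crd _).symm (fun j => algebraMap (A0 k r) (KK k r) (X (Sum.inr (i, j))))

variable (k r) in
lemma compatK : Compat (IsScalarTower.toAlgHom k (A0 k r) (KK k r)) (pU k r) (yU k r)
    (pK k r) (yK k r) where
  hp α := rfl
  hy i j := by
    simp [yK, yU]

variable {b}

lemma isUnit_K (hb : dU b ≠ 0) : IsUnit (Nmat (pK k r) (yK k r) b).det := by
  rw [← (compatK k r).det b]
  apply IsUnit.mk0
  intro h
  apply hb
  exact (IsFractionRing.injective (A0 k r) (KK k r)) (by rw [map_zero]; exact h)

/-- the generic member of the family -/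
noncomputable def cK (hb : dU b ≠ 0) : Chart k b (KK k r) := fch (pK k r) (yK k r) b (isUnit_K hb)

lemma dU_ne_zero {p : T3 r → R} {y : Fin r → MA p} [Nontrivial R]
    (h : IsUnit (Nmat p y b).det) : dU b ≠ 0 := by
  intro h0
  rw [← (evA_compat (k := k) p y).det b] at h
  unfold dU at h0
  rw [h0, map_zero] at h
  exact not_isUnit_zero h

/-- every member of the family is a specialisation of the generic one -/
theorem spec_of_generic (hb : dU b ≠ 0) {p : T3 r → R} {y : Fin r → MA p}
    (h : IsUnit (Nmat p y b).det) (f : AR k b) (hf : clf (cK hb) f = 0) :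
    clf (fch p y b h) f = 0 := by
  let W := Localization.Away (dU b)
  let pW : T3 r → W := fun α => algebraMap (A0 k r) W (pU k r α)
  let yW : Fin r → MA pW := fun i =>
    (MA.crd _).symm (fun j => algebraMap (A0 k r) W (X (Sum.inr (i, j))))
  have cW : Compat (IsScalarTower.toAlgHom k (A0 k r) W) (pU k r) (yU k r) pW yW :=
    { hp := fun α => rfl
      hy := fun i j => by simp [yW, yU] }
  have hW : IsUnit (Nmat pW yW b).det := by
    rw [← cW.det b]
    exact IsLocalization.Away.algebraMap_isUnit (dU b)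
  -- the maps to `K` and `R`
  have lift : ∀ (R' : Type u) [CommRing R'] [Algebra k R'] (p' : T3 r → R') (y' : Fin r → MA p')
      (h' : IsUnit (Nmat p' y' b).det) (φ : A0 k r →ₐ[k] R')
      (_ : Compat φ (pU k r) (yU k r) p' y'),
      ∃ ψ : W →ₐ[k] R', (∀ a, ψ (algebraMap (A0 k r) W a) = φ a) ∧ Compat ψ pW yW p' y' := by
    intro R' _ _ p' y' h' φ hφ
    have hu : IsUnit (φ (dU b)) := by
      unfold dU
      rw [hφ.det b]
      exact h'
    let ψ : W →ₐ[k] R' := IsLocalization.liftAlgHom (M := Submonoid.powers (dU b)) (f := φ) (by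
      rintro ⟨_, n, rfl⟩
      rw [map_pow]
      exact hu.pow n)
    have hψ : ∀ a, ψ (algebraMap (A0 k r) W a) = φ a := by
      intro a
      simp [ψ]
    refine ⟨ψ, hψ, ?_, ?_⟩
    · intro α
      rw [hψ, hφ.hp]
    · intro i j
      rw [hφ.hy]
      simp only [yW, LinearEquiv.apply_symm_apply, hψ, yU]
  obtain ⟨ψK, hK1, hK2⟩ := lift (KK k r) (pK k r) (yK k r) (isUnit_K hb) _ (compatK k r)
  obtain ⟨ψR, hR1, hR2⟩ := lift R p y h _ (evA_compat p y)
  have h1 : clf (cK hb) = ψK.comp (clf (fch pW yW b hW)) := by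
    rw [← clf_map]
    congr 1
    exact (hK2.fch hW (isUnit_K hb)).symm
  have h2 : clf (fch p y b h) = ψR.comp (clf (fch pW yW b hW)) := by
    rw [← clf_map]
    congr 1
    exact (hR2.fch hW h).symm
  rw [h1, AlgHom.comp_apply] at hf
  rw [h2, AlgHom.comp_apply]
  have hinj : ∀ w : W, ψK w = 0 → w = 0 := by
    intro w hw
    obtain ⟨⟨a, s⟩, has⟩ := IsLocalization.surj (Submonoid.powers (dU b)) w
    simp only at has
    have h3 : ψK (algebraMap (A0 k r) W a) = 0 := by
      rw [← has, map_mul, hw, zero_mul]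
    rw [hK1] at h3
    have h4 : a = 0 := (IsFractionRing.injective (A0 k r) (KK k r)) (by rw [map_zero]; exact h3)
    rw [h4, map_zero] at has
    have h5 : IsUnit (algebraMap (A0 k r) W s) := IsLocalization.map_units W s
    exact h5.mul_left_eq_zero.1 has
  rw [hinj _ hf, map_zero]

end univ

end Pool.Agent.W455.Cub
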