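import Mathlib
import Pool.Agent.W455.Cub.TNT
import Pool.Agent.W455.Cub.Fam

set_option autoImplicit false
set_option linter.unusedSectionVars false

open scoped TensorProduct
open MvPolynomial
open Pool.Agent.Helper226

universe u

namespace Pool.Agent.W455.Cub

section lists
variable {k : Type u} [Field k] {r : ℕ}

lemma monomial_eq_prod (α : Fin r →₀ ℕ) :
    (monomial α (1 : k)) = ((Finsupp.toMultiset α).toList.map
      (fun i => (X i : MvPolynomial (Fin r) k))).prod := by
  rw [← Multiset.prod_coe, ← Multiset.map_coe, Multiset.coe_toList, Finsupp.toMultiset_map,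
    Finsupp.prod_toMultiset, monomial_eq, C_1, one_mul]
  rw [Finsupp.prod_mapDomain_index (by simp) (by intros; rw [pow_add])]

lemma lin_ext {V : Type*} [AddCommGroup V] [Module k V] {L1 L2 : MvPolynomial (Fin r) k →ₗ[k] V}
    (h : ∀ l : List (Fin r), L1 (l.map (fun i => (X i : MvPolynomial (Fin r) k))).prod =
      L2 (l.map (fun i => (X i : MvPolynomial (Fin r) k))).prod) : L1 = L2 := by
  apply (basisMonomials (Fin r) k).ext
  intro α
  rw [coe_basisMonomials]
  change L1 (monomial α 1) = L2 (monomial α 1)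
  rw [monomial_eq_prod]
  exact h _

end lists

section pairing
variable {r : ℕ} {R : Type*} [CommRing R] {p : T3 r → R}

/-- duality of the coordinates -/
def dual : MA.Cx r → MA.Cx r
  | Sum.inl _ => Sum.inr (Sum.inr (Sum.inr ()))
  | Sum.inr (Sum.inl i) => Sum.inr (Sum.inr (Sum.inl i))
  | Sum.inr (Sum.inr (Sum.inl i)) => Sum.inr (Sum.inl i)
  | Sum.inr (Sum.inr (Sum.inr _)) => Sum.inl ()

lemma dual_dual (c : MA.Cx r) : dual (dual c) = c := by
  rcases c with _ | _ | _ | _ <;> rfl

lemma c3_mul_eq (x y : MA p) : (x * y).c3 = ∑ c, MA.cx x c * MA.cx y (dual c) := by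
  simp only [Fintype.sum_sum_type, MA.cx, dual, MA.c3_mul, dotProduct, Finset.univ_unique,
    Finset.sum_singleton]
  rw [Finset.sum_congr rfl fun i _ => mul_comm (y.c1 i) (x.c2 i)]
  ring

end pairing

section base
variable {k : Type u} [Field k] {r : ℕ} (T : TS k r)

/-- the basis, indexed by the coordinates -/
noncomputable def bS : MA.Cx r → MvPolynomial (Fin r) k
  | Sum.inl _ => 1
  | Sum.inr (Sum.inl i) => X i
  | Sum.inr (Sum.inr (Sum.inl v)) => X (T.pr1 v) * X (T.pr2 v)
  | Sum.inr (Sum.inr (Sum.inr _)) => X T.t1 * X T.t2 * X T.t3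

/-- the basis -/
noncomputable def bT : Fin (2 * r + 2) → MvPolynomial (Fin r) k := fun j => bS T (MA.ce r j)

lemma cx_bS (c c' : MA.Cx r) : MA.cx (ev0 T.p (bS T c)) c' = if c = c' then 1 else 0 := by
  rcases c with _ | i | v | _
  · simp only [bS, map_one]
    rcases c' with _ | i' | v' | _ <;> simp [MA.cx]
  · simp only [bS, ev0_X]
    rcases c' with _ | i' | v' | _ <;> simp [MA.cx, MA.ge, Pi.single_apply, eq_comm]
  · simp only [bS, map_mul, ev0_X, MA.ge_mul, T.hpr]
    rcases c' with _ | i' | v' | _ <;> simp [MA.cx, eq_comm]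
  · simp only [bS, map_mul, ev0_X, MA.ge_mul3, T.ht]
    rcases c' with _ | i' | v' | _ <;> simp [MA.cx]

lemma crd_bT (j : Fin (2 * r + 2)) : MA.crd T.p (ev0 T.p (bT T j)) = Pi.single j 1 := by
  funext i
  rw [MA.crd_apply, bT, cx_bS, Pi.single_apply]
  simp only [EmbeddingLike.apply_eq_iff_eq, eq_comm]

lemma Nmat_base : Nmat T.p (MA.ge T.p) (bT T) = 1 := by
  ext j i
  have h := congrFun (crd_bT T j) i
  change MA.crd T.p (ev0 T.p (bT T j)) i = _
  rw [h, Pi.single_apply, Matrix.one_apply]
  simp only [eq_comm]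

lemma isUnit_base : IsUnit (Nmat T.p (MA.ge T.p) (bT T)).det := by
  rw [Nmat_base, Matrix.det_one]
  exact isUnit_one

/-- the base chart -/
noncomputable def c0 : Chart k (bT T) k := fch T.p (MA.ge T.p) (bT T) (isUnit_base T)

lemma c0_q (x : MvPolynomial (Fin r) k) : (c0 T).q x = MA.crd T.p (ev0 T.p x) := by
  have h := fch_sum (isUnit_base T) x
  have h1 := congrArg (MA.crd T.p) h
  rw [map_sum] at h1
  simp only [map_smul] at h1
  change ∑ j, (c0 T).q x j • MA.crd T.p (ev0 T.p (bT T j)) = MA.crd T.p (ev0 T.p x) at h1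
  rw [← h1]
  funext i
  simp [crd_bT, Pi.single_apply]

lemma e0_dual (c c' : MA.Cx r) : e0 T.p (bS T c * bS T (dual c')) = if c = c' then 1 else 0 := by
  rw [e0_apply, map_mul, c3_mul_eq]
  simp only [cx_bS]
  rw [Finset.sum_eq_single c]
  · rw [if_pos rfl, one_mul]
    by_cases h : c = c'
    · rw [h, if_pos rfl, if_pos rfl]
    · rw [if_neg, if_neg h]
      intro h1
      apply h
      rw [← dual_dual c, ← h1, dual_dual]
  · intro c'' _ hne
    rw [if_neg (Ne.symm hne), zero_mul]
  · simp

/-- the last index -/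
noncomputable def jl (r : ℕ) : Fin (2 * r + 2) := (MA.ce r).symm (Sum.inr (Sum.inr (Sum.inr ())))

lemma crd_jl {R : Type*} [CommRing R] {p : T3 r → R} (x : MA p) : MA.crd p x (jl r) = x.c3 := by
  rw [MA.crd_apply, jl, Equiv.apply_symm_apply]
  rfl

end base

section sq
variable {r : ℕ} {R : Type*} [CommRing R] {p : T3 r → R} (m : Fin r → R) (lam : Fin r → Fin r → R)

/-- deformed generators -/
def gd (p : T3 r → R) (m : Fin r → R) (lam : Fin r → Fin r → R) (i : Fin r) : MA p :=
  MA.mk (m i) (Pi.single i 1) (lam i) 0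

variable {m lam} (hm : ∀ i j, m i * m j = 0) (hl : ∀ i j a, m i * lam j a = 0)
include hm hl

lemma gd2 (i j : Fin r) : gd p m lam i * gd p m lam j =
    MA.mk 0 (m i • Pi.single j 1 + m j • Pi.single i 1) (fun c => p (ex i j c))
      (lam i j + lam j i) := by
  apply MA.ext'
  · simp [gd, hm]
  · simp [gd]
  · funext c
    simp [gd, MA.E_single, hl]
  · simp only [gd, MA.c3_mul, MA.c0_mk, MA.c1_mk, MA.c2_mk, MA.c3_mk, mul_zero, zero_add,
      single_one_dotProduct]
    ring

lemma gd3 (i j l : Fin r) : gd p m lam i * gd p m lam j * gd p m lam l =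
    MA.mk 0 0 (fun c => m l * p (ex i j c) + m i * p (ex j l c) + m j * p (ex i l c))
      (p (ex i j l)) := by
  rw [gd2 hm hl]
  apply MA.ext'
  · simp [gd]
  · funext c
    simp only [gd, MA.c1_mul, MA.c0_mk, MA.c1_mk, zero_smul, Pi.zero_apply, Pi.add_apply,
      Pi.smul_apply, smul_eq_mul, zero_add]
    rw [mul_add, ← mul_assoc, ← mul_assoc, hm, hm]
    simp
  · funext c
    simp only [gd, MA.c2_mul, MA.c0_mk, MA.c1_mk, MA.c2_mk, zero_smul, Pi.add_apply,
      Pi.smul_apply, smul_eq_mul, zero_add, MA.E_add', MA.E_smul', MA.E_single]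
    ring
  · simp only [gd, MA.c3_mul, MA.c0_mk, MA.c1_mk, MA.c2_mk, MA.c3_mk, mul_zero, zero_add,
      single_one_dotProduct, add_dotProduct, smul_dotProduct, zero_mul, smul_eq_mul, hl, mul_add,
      add_zero]

lemma gd4 (i j l a : Fin r) : gd p m lam i * gd p m lam j * gd p m lam l * gd p m lam a =
    MA.mk 0 0 0 (m a * p (ex i j l) + m l * p (ex i j a) + m i * p (ex j l a) +
      m j * p (ex i l a)) := by
  rw [gd3 hm hl]
  apply MA.ext'
  · simp [gd]
  · simp [gd]
  · funext c
    simp only [gd, MA.c2_mul, MA.c0_mk, MA.c1_mk, MA.c2_mk, zero_smul, Pi.add_apply,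
      Pi.smul_apply, smul_eq_mul, zero_add, MA.E_zero', Pi.zero_apply, add_zero, mul_add,
      ← mul_assoc, hm, zero_mul]
  · simp only [gd, MA.c3_mul, MA.c0_mk, MA.c1_mk, MA.c2_mk, MA.c3_mk, mul_zero, zero_add,
      single_one_dotProduct, zero_dotProduct, zero_mul]
    ring

lemma gd5 (i j l a b : Fin r) :
    gd p m lam i * gd p m lam j * gd p m lam l * gd p m lam a * gd p m lam b = 0 := by
  rw [gd4 hm hl]
  apply MA.ext'
  · simp [gd]
  · simp [gd]
  · simp [gd]
  · simp only [gd, MA.c3_mul, MA.c0_mk, MA.c1_mk, MA.c2_mk, MA.c3_mk, mul_zero, zero_add,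
      dotProduct_zero, zero_dotProduct, zero_mul, mul_add, ← mul_assoc, hm, add_zero, MA.c3_zero]

lemma gdl (l : List (Fin r)) (h5 : 5 ≤ l.length) : (l.map (gd p m lam)).prod = 0 := by
  obtain ⟨a, b, c, d, e, l', rfl⟩ : ∃ a b c d e l', l = a :: b :: c :: d :: e :: l' := by
    rcases l with _ | ⟨a, _ | ⟨b, _ | ⟨c, _ | ⟨d, _ | ⟨e, l⟩⟩⟩⟩⟩ <;> simp at h5 ⊢
  simp only [List.map_cons, List.prod_cons]
  have := gd5 hm hl (p := p) a b c d e
  rw [← mul_assoc, ← mul_assoc, ← mul_assoc, ← mul_assoc, this, zero_mul]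

end sq

section tangent
variable {k : Type u} [Field k] {r : ℕ} (T : TS k r)

open TrivSqZeroExt

/-- the deformed cubic over the dual numbers -/
noncomputable def p1 (G : T3 r → k) : T3 r → DualNumber k := fun α => inl (T.p α) + inr (G α)

/-- the deformed generators over the dual numbers -/
noncomputable def y1 (G : T3 r → k) (μ : Fin r → k) (lam : Fin r → Fin r → k) :
    Fin r → MA (p1 T G) :=
  gd (p1 T G) (fun i => inr (μ i)) (fun i j => inr (lam i j))

lemma compat1 (G : T3 r → k) (μ : Fin r → k) (lam : Fin r → Fin r → k) :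
    Compat (fstHom k k k) (p1 T G) (y1 T G μ lam) T.p (MA.ge T.p) where
  hp α := by simp [p1]
  hy i j := by
    rw [MA.crd_apply, MA.crd_apply]
    rcases MA.ce r j with _ | i' | v' | _
    · simp [MA.cx, MA.ge, y1, gd]
    · simp only [MA.cx, MA.ge, y1, gd, MA.c1_mk, Pi.single_apply]
      split_ifs <;> simp
    · simp [MA.cx, MA.ge, y1, gd]
    · simp [MA.cx, MA.ge, y1, gd]

lemma isUnit1 (G : T3 r → k) (μ : Fin r → k) (lam : Fin r → Fin r → k) :
    IsUnit (Nmat (p1 T G) (y1 T G μ lam) (bT T)).det := by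
  rw [TrivSqZeroExt.isUnit_iff_isUnit_fst]
  have h := (compat1 T G μ lam).det (bT T)
  have h2 := isUnit_base T
  rw [← h] at h2
  exact h2

/-- the functional of the first order deformation -/
noncomputable def del (c : Chart k (bT T) (DualNumber k)) : MvPolynomial (Fin r) k →ₗ[k] k where
  toFun x := (c.q x (jl r)).snd
  map_add' x y := by simp
  map_smul' a x := by simp

variable (c : Chart k (bT T) (DualNumber k)) (hc : ∀ x j, (c.q x j).fst = (c0 T).q x j)

lemma del_apply (x : MvPolynomial (Fin r) k) : del T c x = (c.q x (jl r)).snd := rfl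

include hc

lemma kills_del : Kills T.p (del T c) := by
  intro f hf g hg
  rw [del_apply, c.q_mul, Finset.sum_apply]
  have h0 : ∀ f ∈ I0 T.p, ∀ j, (c.q f j).fst = 0 := by
    intro f hf j
    rw [hc, c0_q, mem_I0.1 hf, map_zero]
    rfl
  have : ∀ j, (c.q f j • c.q (bT T j * g)) (jl r) = 0 := by
    intro j
    rw [Pi.smul_apply, smul_eq_mul]
    have h1 := h0 f hf j
    have h2 := h0 _ ((I0 T.p).mul_mem_left (bT T j) hg) (jl r)
    ext
    · rw [fst_mul, h1, zero_mul, fst_zero]
    · rw [DualNumber.snd_mul, h1, h2, zero_mul, mul_zero, add_zero, snd_zero]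
  rw [Finset.sum_eq_zero fun j _ => this j]
  rfl

omit hc in
lemma del_b (j : Fin (2 * r + 2)) : del T c (bT T j) = 0 := by
  rw [del_apply, c.q_b, Pi.single_apply]
  split_ifs <;> rfl

omit hc in
lemma q_b_jl (j : Fin (2 * r + 2)) :
    c.q (bT T j) (jl r) = if j = jl r then 1 else 0 := by
  rw [c.q_b, Pi.single_apply]
  simp only [eq_comm]

/-- the structure of the first order deformations: the last coordinate -/
theorem last_coord (h2 : (2 : k) ≠ 0) : ∃ (G : T3 r → k) (μ : Fin r → k) (lam : Fin r → Fin r → k),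
    ∀ x, ((aeval (y1 T G μ lam) x : MA (p1 T G)).c3) = c.q x (jl r) := by
  obtain ⟨μ, hμ⟩ := T.tnt4 (del T c) (kills_del T c hc)
  refine ⟨fun α => del T c (monomial α.1 1), μ, fun i j => del T c (X i * X j) / 2, ?_⟩
  set G : T3 r → k := fun α => del T c (monomial α.1 1) with hG
  set lam : Fin r → Fin r → k := fun i j => del T c (X i * X j) / 2 with hlam
  have hm : ∀ i j : Fin r, (inr (μ i) : DualNumber k) * inr (μ j) = 0 := fun i j => inr_mul_inr _ _ _
  have hl : ∀ i j a : Fin r, (inr (μ i) : DualNumber k) * inr (lam j a) = 0 :=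
    fun i j a => inr_mul_inr _ _ _
  let L1 : MvPolynomial (Fin r) k →ₗ[k] k :=
    { toFun := fun x => ((aeval (y1 T G μ lam) x : MA (p1 T G)).c3).snd
      map_add' := fun x y => by simp
      map_smul' := fun a x => by simp }
  have hL1 : ∀ x, L1 x = ((aeval (y1 T G μ lam) x : MA (p1 T G)).c3).snd := fun x => rfl
  have hprod : ∀ l : List (Fin r), (aeval (y1 T G μ lam)
      (l.map (fun i => (X i : MvPolynomial (Fin r) k))).prod : MA (p1 T G)) =
      (l.map (gd (p1 T G) (fun i => inr (μ i)) (fun i j => inr (lam i j)))).prod := by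
    intro l
    rw [map_list_prod, List.map_map]
    congr 2
    funext i
    simp [y1]
  have key : L1 = del T c := by
    apply lin_ext
    intro l
    rw [hL1, hprod]
    by_cases h5 : 5 ≤ l.length
    · rw [gdl hm hl l h5, T.five_zero l h5 _ (kills_del T c hc)]
      rfl
    · rcases l with _ | ⟨a, _ | ⟨b, _ | ⟨d, _ | ⟨e, _ | ⟨f, l⟩⟩⟩⟩⟩
      · have h1 := del_b T c ((MA.ce r).symm (Sum.inl ()))
        rw [bT, Equiv.apply_symm_apply] at h1
        simp only [bS] at h1
        simp only [List.map_nil, List.prod_nil]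
        rw [h1]
        rfl
      · have h1 := del_b T c ((MA.ce r).symm (Sum.inr (Sum.inl a)))
        rw [bT, Equiv.apply_symm_apply] at h1
        simp only [bS] at h1
        simp only [List.map_cons, List.prod_cons, List.map_nil, List.prod_nil, mul_one]
        rw [h1]
        rfl
      · simp only [List.map_cons, List.prod_cons, List.map_nil, List.prod_nil, mul_one]
        rw [gd2 hm hl, MA.c3_mk, ← inr_add, snd_inr, hlam]
        simp only
        rw [mul_comm (X b)]
        field_simp
        ring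
      · simp only [List.map_cons, List.prod_cons, List.map_nil, List.prod_nil, mul_one]
        rw [← mul_assoc, gd3 hm hl, MA.c3_mk, p1, snd_add, snd_inl, snd_inr, zero_add, hG]
        simp only
        congr 1
        simp only [ex, X, monomial_mul, mul_one]
        rw [add_assoc]
      · simp only [List.map_cons, List.prod_cons, List.map_nil, List.prod_nil, mul_one]
        rw [← mul_assoc, ← mul_assoc, gd4 hm hl, MA.c3_mk, ← mul_assoc, ← mul_assoc, hμ a b d e]
        simp only [dv_X4, mul_add, mul_ite, mul_zero, Finset.sum_add_distrib, Finset.sum_ite_eq,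
          Finset.mem_univ, if_true]
        simp only [p1, snd_add, DualNumber.snd_mul, fst_inr, snd_inr, fst_add, fst_inl, zero_mul,
          add_zero, zero_add, snd_inl]
        ring
      · simp at h5
  intro x
  ext
  · obtain ⟨ψ, -, h3, h4⟩ := (compat1 T G μ lam).ev
    have e1 := h3 (aeval (y1 T G μ lam) x) (jl r)
    rw [h4, crd_jl, crd_jl] at e1
    rw [hc, c0_q, crd_jl]
    exact e1.symm
  · have := LinearMap.congr_fun key x
    exact this

/-- the structure of the first order deformations -/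
theorem tangent (h2 : (2 : k) ≠ 0) : ∃ (G : T3 r → k) (μ : Fin r → k) (lam : Fin r → Fin r → k),
    c = fch (p1 T G) (y1 T G μ lam) (bT T) (isUnit1 T G μ lam) := by
  obtain ⟨G, μ, lam, hx⟩ := last_coord T c hc h2
  refine ⟨G, μ, lam, ?_⟩
  set c1 := fch (p1 T G) (y1 T G μ lam) (bT T) (isUnit1 T G μ lam) with hc1
  have hfst : ∀ x j, (c1.q x j).fst = (c0 T).q x j := by
    intro x j
    have h := (compat1 T G μ lam).fch (isUnit1 T G μ lam) (isUnit_base T)
    have h3 := congrArg (fun c : Chart k (bT T) k => c.q x j) h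
    exact h3
  have hlast : ∀ x, c1.q x (jl r) = c.q x (jl r) := by
    intro x
    have h := fch_sum (isUnit1 T G μ lam) x
    have h3 := congrArg MA.c3 h
    have h4 : ∀ (s : Finset (Fin (2 * r + 2))) (f : Fin (2 * r + 2) → MA (p1 T G)),
        MA.c3 (∑ j ∈ s, f j) = ∑ j ∈ s, (f j).c3 := by
      intro s f
      induction s using Finset.cons_induction with
      | empty => rfl
      | cons a s ha ih => rw [Finset.sum_cons, Finset.sum_cons, MA.c3_add, ih]
    rw [h4, hx] at h3
    simp only [MA.c3_smul, hx, q_b_jl] at h3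
    rw [← h3]
    simp [hc1]
  -- nondegeneracy
  ext x j : 3
  · rw [hc, hfst]
  · have hw : ∀ j, ∃ w : k, c.q x j - c1.q x j = inr w := by
      intro j
      refine ⟨(c.q x j - c1.q x j).snd, ?_⟩
      ext
      · rw [fst_sub, hc, hfst, sub_self, fst_inr]
      · rw [snd_inr]
    choose w hw using hw
    have hg : ∀ i, ∑ j, (c.q x j - c1.q x j) * c.q (bT T j * bT T i) (jl r) = 0 := by
      intro i
      have e1 : c.q (x * bT T i) (jl r) = ∑ j, c.q x j * c.q (bT T j * bT T i) (jl r) := by
        rw [c.q_mul, Finset.sum_apply]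
        rfl
      have e2 : c1.q (x * bT T i) (jl r) = ∑ j, c1.q x j * c.q (bT T j * bT T i) (jl r) := by
        rw [c1.q_mul, Finset.sum_apply]
        refine Finset.sum_congr rfl fun j _ => ?_
        rw [Pi.smul_apply, smul_eq_mul, hlast]
      simp only [sub_mul, Finset.sum_sub_distrib]
      rw [← e1, ← e2, hlast, sub_self]
    have hw0 : w j = 0 := by
      have h3 := hg ((MA.ce r).symm (dual (MA.ce r j)))
      simp only [hw] at h3
      have h4 := congrArg TrivSqZeroExt.snd h3
      have hsum : ∀ (f : Fin (2 * r + 2) → DualNumber k), (∑ j, f j).snd = ∑ j, (f j).snd := by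
        intro f
        exact map_sum (sndHom k k) f Finset.univ
      rw [hsum] at h4
      simp only [DualNumber.snd_mul, fst_inr, snd_inr, zero_mul, zero_add, snd_zero, hc,
        c0_q, crd_jl] at h4
      rw [Finset.sum_eq_single j] at h4
      · have h5 := e0_dual T (MA.ce r j) (MA.ce r j)
        rw [if_pos rfl, e0_apply] at h5
        rw [bT, bT, Equiv.apply_symm_apply, h5, mul_one] at h4
        exact h4
      · intro j' _ hj'
        have h5 := e0_dual T (MA.ce r j') (MA.ce r j)
        rw [if_neg (fun h => hj' ((MA.ce r).injective h)), e0_apply] at h5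
        rw [bT, bT, Equiv.apply_symm_apply, h5, mul_zero]
      · simp
    have h6 := hw j
    rw [hw0, inr_zero, sub_eq_zero] at h6
    rw [h6]

end tangent

end Pool.Agent.W455.Cub
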