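import Mathlib
import Pool.Agent.W455.Cub.Tan
import Pool.Agent.Helper413.Gal.Loc

set_option autoImplicit false
set_option linter.unusedSectionVars false

open scoped TensorProduct
open MvPolynomial
open Pool.Agent.Helper226

universe u

namespace Pool.Agent.W455.Cub

section arcs
variable {k : Type u} [Field k] {r : ℕ} (T : TS k r)

open TrivSqZeroExt

/-- the first order truncation -/
noncomputable def rho (k : Type u) [Field k] : PowerSeries k →ₐ[k] DualNumber k where
  toFun f := inl (PowerSeries.coeff 0 f) + inr (PowerSeries.coeff 1 f)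
  map_one' := by
    ext
    · simp
    · simp [PowerSeries.coeff_one]
  map_mul' f g := by
    ext
    · simp
    · simp only [PowerSeries.coeff_mul, snd_add, snd_inl, snd_inr, zero_add, DualNumber.snd_mul,
        fst_add, fst_inl, fst_inr, add_zero]
      rw [Finset.Nat.antidiagonal_succ]
      simp
  map_zero' := by
    ext <;> simp
  map_add' f g := by
    ext
    · simp
    · simp
  commutes' a := by
    ext
    · simp [TrivSqZeroExt.algebraMap_eq_inl]
    · simp [PowerSeries.coeff_C, TrivSqZeroExt.algebraMap_eq_inl]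

lemma rho_apply (f : PowerSeries k) :
    rho k f = inl (PowerSeries.coeff 0 f) + inr (PowerSeries.coeff 1 f) := rfl

/-- the arc of cubics -/
noncomputable def pS (G : T3 r → k) : T3 r → PowerSeries k :=
  fun α => PowerSeries.C (T.p α) + PowerSeries.X * PowerSeries.C (G α)

/-- the arc of generators -/
noncomputable def yS (G : T3 r → k) (μ : Fin r → k) (lam : Fin r → Fin r → k) :
    Fin r → MA (pS T G) :=
  gd (pS T G) (fun i => PowerSeries.X * PowerSeries.C (μ i))
    (fun i j => PowerSeries.X * PowerSeries.C (lam i j))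

lemma rho_XC (a : k) : rho k (PowerSeries.X * PowerSeries.C a) = inr a := by
  ext
  · simp [rho_apply]
  · have := PowerSeries.coeff_succ_X_mul 0 (PowerSeries.C a)
    simp [rho_apply, this]

lemma rho_C (a : k) : rho k (PowerSeries.C a) = inl a := by
  ext
  · simp [rho_apply]
  · simp [rho_apply, PowerSeries.coeff_C]

lemma compatS (G : T3 r → k) (μ : Fin r → k) (lam : Fin r → Fin r → k) :
    Compat (rho k) (pS T G) (yS T G μ lam) (p1 T G) (y1 T G μ lam) where
  hp α := by
    rw [pS, map_add, rho_XC, rho_C]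
    rfl
  hy i j := by
    rw [MA.crd_apply, MA.crd_apply]
    rcases MA.ce r j with _ | i' | v' | _
    · simp [MA.cx, y1, yS, gd, rho_XC]
    · simp only [MA.cx, y1, yS, gd, MA.c1_mk, Pi.single_apply]
      split_ifs <;> simp
    · simp [MA.cx, y1, yS, gd, rho_XC]
    · simp [MA.cx, y1, yS, gd]

lemma isUnitS (G : T3 r → k) (μ : Fin r → k) (lam : Fin r → Fin r → k) :
    IsUnit (Nmat (pS T G) (yS T G μ lam) (bT T)).det := by
  rw [PowerSeries.isUnit_iff_constantCoeff]
  have h := (compatS T G μ lam).det (bT T)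
  have h2 := isUnit1 T G μ lam
  rw [← h, TrivSqZeroExt.isUnit_iff_isUnit_fst] at h2
  simpa [rho_apply] using h2

lemma dU_bT : dU (bT T) ≠ 0 := dU_ne_zero (isUnit_base T)

/-- near the base point every function vanishing on the family vanishes -/
theorem loc_main (h2 : (2 : k) ≠ 0) [Infinite k] (f : AR k (bT T))
    (hf : clf (cK (dU_bT T)) f = 0) : ∃ u, clf (c0 T) u ≠ 0 ∧ u * f = 0 := by
  have := noetherian_AR (k := k) (bT T)
  refine Pool.Agent.Helper413.Gal.loc_lemma (clf (c0 T)) (RingHom.ker (clf (cK (dU_bT T)))) ?_ f hf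
  intro φ hφ
  set c := (uc k (bT T)).map φ with hc
  have hc1 : ∀ x j, (c.q x j).fst = (c0 T).q x j := by
    intro x j
    rw [hc, Chart.map_q, hφ, ← Chart.map_q, uc_map_clf]
  obtain ⟨G, μ, lam, hch⟩ := tangent T c hc1 h2
  refine ⟨clf (fch (pS T G) (yS T G μ lam) (bT T) (isUnitS T G μ lam)), ?_, ?_⟩
  · intro g hg
    exact spec_of_generic (dU_bT T) _ g hg
  · have h3 : (rho k).comp (clf (fch (pS T G) (yS T G μ lam) (bT T) (isUnitS T G μ lam))) = φ := by
      rw [← clf_map]
      apply hom_ext_uc
      rw [uc_map_clf, (compatS T G μ lam).fch (isUnitS T G μ lam) (isUnit1 T G μ lam), ← hch]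
    intro g
    have h4 := congrArg (fun ψ : AR k (bT T) →ₐ[k] DualNumber k => ψ g) h3
    simp only [AlgHom.comp_apply, rho_apply] at h4
    constructor
    · rw [← hφ g, ← h4]
      simp
    · rw [← h4]
      simp

end arcs

end Pool.Agent.W455.Cub
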