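import Mathlib
import Pool.Agent.W455.Cub.Arc

set_option autoImplicit false
set_option linter.unusedSectionVars false

open scoped TensorProduct
open CategoryTheory AlgebraicGeometry MvPolynomial
open Pool.Agent.Helper226

universe u

namespace Pool.Agent.W455.Cub

section gen
variable {k : Type u} [Field k] {r : ℕ}

/-- the point given by a chart over a field extension -/
noncomputable def zK {K : Type u} [Field K] [Algebra k K] {B : Type u} [CommRing B] [Algebra k B]
    {d : ℕ} {b : Fin d → B} (c : Chart k b K) : Spec (CommRingCat.of (AR k b)) :=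
  (⟨RingHom.ker (clf c), RingHom.ker_isPrime _⟩ : PrimeSpectrum (AR k b))

lemma mor_pt {K : Type u} [Field K] [Algebra k K] {B : Type u} [CommRing B] [Algebra k B]
    {d : ℕ} {b : Fin d → B} (c : Chart k b K) (y : Spec (CommRingCat.of K)) :
    mor c y = chartι k (Idx.single b) (zK c) := by
  unfold mor
  rw [Scheme.Hom.comp_apply]
  congr 1
  apply PrimeSpectrum.ext
  have h1 : (Spec.map (CommRingCat.ofHom (clf c).toRingHom) y).asIdeal =
      Ideal.comap (clf c).toRingHom y.asIdeal := rfl
  have h2 : y.asIdeal = ⊥ := by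
    have : y.asIdeal.IsPrime := y.isPrime
    exact (Ideal.eq_bot_or_top y.asIdeal).resolve_right this.ne_top
  rw [h1, h2]
  rfl

lemma zK_eq_zp {B : Type u} [CommRing B] [Algebra k B]
    {d : ℕ} {b : Fin d → B} (c : Chart k b k) : zK c = zp c := rfl

variable {b : Fin (2 * r + 2) → MvPolynomial (Fin r) k}

/-- the generic point of the family -/
noncomputable def gpt (hb : dU b ≠ 0) : HilbS k (MvPolynomial (Fin r) k) (2 * r + 2) :=
  chartι k (Idx.single b) (zK (cK hb))

lemma mor_gpt (hb : dU b ≠ 0) (y : Spec (CommRingCat.of (KK k r))) : mor (cK hb) y = gpt hb :=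
  mor_pt _ _

lemma gpt_eq {b' : Fin (2 * r + 2) → MvPolynomial (Fin r) k} (hb : dU b ≠ 0) (hb' : dU b' ≠ 0) :
    gpt hb = gpt hb' := by
  let y : Spec (CommRingCat.of (KK k r)) := (⟨⊥, Ideal.isPrime_bot⟩ : PrimeSpectrum (KK k r))
  rw [← mor_gpt hb y, ← mor_gpt hb' y]
  have h : mor (cK hb) = mor (cK hb') := by
    apply mor_eq_of_ideal_eq
    unfold cK
    rw [fch_ideal, fch_ideal]
  rw [h]

lemma closure_zK (hb : dU b ≠ 0) (z : Spec (CommRingCat.of (AR k b))) :
    z ∈ closure {zK (cK hb)} ↔ RingHom.ker (clf (cK hb)) ≤ z.asIdeal := by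
  have h5 := PrimeSpectrum.closure_singleton (zK (cK hb) : PrimeSpectrum (AR k b))
  have h6 : (closure {zK (cK hb)} : Set (Spec (CommRingCat.of (AR k b)))) =
      PrimeSpectrum.zeroLocus (RingHom.ker (clf (cK hb))) := h5
  rw [h6]
  rfl

/-- the image of a member of the family lies in the closure of the generic point -/
lemma fam_mem {b' : Fin (2 * r + 2) → MvPolynomial (Fin r) k} (hb' : dU b' ≠ 0)
    (hb : dU b ≠ 0) {p : T3 r → k} {y : Fin r → MA p}
    (h : IsUnit (Nmat p y b).det) :
    chartι k (Idx.single b) (zp (fch p y b h)) ∈ closure {gpt hb'} := by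
  rw [gpt_eq hb' hb]
  have h1 : zp (fch p y b h) ∈ closure {zK (cK hb)} := by
    rw [closure_zK]
    intro f hf
    exact spec_of_generic hb h f hf
  have h2 := image_closure_subset_closure_image (chartι k (Idx.single b)).continuous
    (s := {zK (cK hb)})
  rw [Set.image_singleton] at h2
  exact h2 ⟨_, h1, rfl⟩

/-- a chart containing a point of the closure contains the generic point -/
theorem exists_generic {b' : Fin (2 * r + 2) → MvPolynomial (Fin r) k} (hb' : dU b' ≠ 0)
    (z : Spec (CommRingCat.of (AR k b))) (hz : chartι k (Idx.single b) z ∈ closure {gpt hb'}) :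
    ∃ hb : dU b ≠ 0, RingHom.ker (clf (cK hb)) ≤ z.asIdeal := by
  have hopen := (chartι k (Idx.single b)).isOpenEmbedding
  have h1 : gpt hb' ∈ Set.range (chartι k (Idx.single b)) := by
    obtain ⟨w, hw1, hw2⟩ := mem_closure_iff.1 hz _ hopen.isOpen_range ⟨z, rfl⟩
    rw [Set.mem_singleton_iff] at hw2
    rw [← hw2]
    exact hw1
  have h2 : HasBas ((Idx.single b).s : Set (Fin (2 * r + 2) → MvPolynomial (Fin r) k))
      (cK hb').ideal := by
    apply hasBas_of_forall k (cK hb').ideal (L := Idx.single b') (hasBas_single ⟨cK hb', rfl⟩)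
    intro y
    rw [← mor_eq_pt, mor_gpt]
    exact h1
  obtain ⟨c', hc'⟩ := h2 b (mem_single b)
  have h3 : ∀ x, ∑ j, c'.q x j • (aeval (yK k r) (b j) : MA (pK k r)) = aeval (yK k r) x := by
    intro x
    have h4 := c'.sub_expand_mem (1 ⊗ₜ x)
    rw [hc', cK, fch_ideal, RingHom.mem_ker, map_sub, Chart.expand_apply, map_sum, sub_eq_zero] at h4
    simp only [evR_tmul, one_smul, Chart.L_tmul] at h4
    exact h4.symm
  have h5 : IsUnit (Nmat (pK k r) (yK k r) b).det := by
    let A : Matrix (Fin (2 * r + 2)) (Fin (2 * r + 2)) (KK k r) :=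
      Matrix.of fun i j => c'.q (b' i) j
    have h6 : Nmat (pK k r) (yK k r) b' = A * Nmat (pK k r) (yK k r) b := by
      ext i l
      have h7 := congrArg (fun x => MA.crd (pK k r) x l) (h3 (b' i))
      simp only [map_sum, map_smul, Finset.sum_apply, Pi.smul_apply, smul_eq_mul] at h7
      rw [Matrix.mul_apply]
      exact h7.symm
    have h8 := isUnit_K hb'
    rw [h6, Matrix.det_mul] at h8
    exact isUnit_of_mul_isUnit_right h8
  have hb : dU b ≠ 0 := by
    intro h0
    rw [← (compatK k r).det b] at h5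
    unfold dU at h0
    rw [h0, map_zero] at h5
    exact not_isUnit_zero h5
  refine ⟨hb, ?_⟩
  rw [← closure_zK]
  rw [gpt_eq hb' hb] at hz
  have h9 := hopen.isInducing.closure_eq_preimage_closure_image {zK (cK hb)}
  rw [Set.image_singleton] at h9
  rw [h9]
  exact hz

end gen

section comp
variable {k : Type u} [Field k] {r : ℕ} (T : TS k r)

/-- the base point -/
noncomputable def bpt : HilbS k (MvPolynomial (Fin r) k) (2 * r + 2) :=
  chartι k (Idx.single (bT T)) (zp (c0 T))

/-- the closed set -/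
noncomputable def ZZ : Set (HilbS k (MvPolynomial (Fin r) k) (2 * r + 2)) :=
  closure {gpt (dU_bT T)}

lemma bpt_mem : bpt T ∈ ZZ T := fam_mem _ (dU_bT T) _

lemma exists_u (h2 : (2 : k) ≠ 0) [Infinite k] : ∃ u : AR k (bT T), clf (c0 T) u ≠ 0 ∧
    ∀ f, clf (cK (dU_bT T)) f = 0 → u * f = 0 := by
  have hn := noetherian_AR (k := k) (bT T)
  obtain ⟨S, hS⟩ := (isNoetherianRing_iff_ideal_fg (AR k (bT T))).1 hn
    (RingHom.ker (clf (cK (dU_bT T))))
  have h1 : ∀ f : S, ∃ u, clf (c0 T) u ≠ 0 ∧ u * f.1 = 0 := by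
    intro f
    apply loc_main T h2
    have : f.1 ∈ RingHom.ker (clf (cK (dU_bT T))) := by
      rw [← hS]
      exact Ideal.subset_span f.2
    exact this
  choose u hu1 hu2 using h1
  refine ⟨∏ f, u f, ?_, ?_⟩
  · rw [map_prod]
    exact Finset.prod_ne_zero_iff.2 fun f _ => hu1 f
  · intro f hf
    have hf' : f ∈ Ideal.span (S : Set (AR k (bT T))) := by
      rw [hS]
      exact hf
    refine Submodule.span_induction (p := fun f _ => (∏ f, u f) * f = 0) ?_ ?_ ?_ ?_ hf'
    · intro g hg
      have h3 : u ⟨g, hg⟩ ∣ ∏ f, u f := Finset.dvd_prod_of_mem _ (Finset.mem_univ _)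
      obtain ⟨w, hw⟩ := h3
      rw [hw]
      have h4 := hu2 ⟨g, hg⟩
      simp only at h4
      rw [mul_comm (u ⟨g, hg⟩), mul_assoc, h4, mul_zero]
    · rw [mul_zero]
    · intro a b _ _ ha hb
      rw [mul_add, ha, hb, add_zero]
    · intro a b _ hb
      rw [smul_eq_mul, mul_left_comm, hb, mul_zero]

/-- points near the base point lie in the component -/
lemma mem_ZZ_of_u {u : AR k (bT T)} (hu : ∀ f, clf (cK (dU_bT T)) f = 0 → u * f = 0)
    (z : Spec (CommRingCat.of (AR k (bT T)))) (hz : u ∉ z.asIdeal) :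
    chartι k (Idx.single (bT T)) z ∈ ZZ T := by
  have h1 : z ∈ closure {zK (cK (dU_bT T))} := by
    rw [closure_zK]
    intro f hf
    have hp : z.asIdeal.IsPrime := z.isPrime
    have h3 : u * f ∈ z.asIdeal := by
      rw [hu f hf]
      exact z.asIdeal.zero_mem
    exact (hp.mem_or_mem h3).resolve_left hz
  have h2 := image_closure_subset_closure_image (chartι k (Idx.single (bT T))).continuous
    (s := {zK (cK (dU_bT T))})
  rw [Set.image_singleton] at h2
  exact h2 ⟨_, h1, rfl⟩

theorem comp_unique (h2 : (2 : k) ≠ 0) [Infinite k]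
    (Z : Set (HilbS k (MvPolynomial (Fin r) k) (2 * r + 2)))
    (hZ : Z ∈ irreducibleComponents (HilbS k (MvPolynomial (Fin r) k) (2 * r + 2)))
    (hx : bpt T ∈ Z) : Z = ZZ T := by
  obtain ⟨u, hu1, hu2⟩ := exists_u T h2
  have hZc : IsClosed Z := isClosed_of_mem_irreducibleComponents Z hZ
  let O : Set (HilbS k (MvPolynomial (Fin r) k) (2 * r + 2)) :=
    chartι k (Idx.single (bT T)) '' {z | u ∉ (z : PrimeSpectrum (AR k (bT T))).asIdeal}
  have hO : IsOpen O := by
    apply (chartι k (Idx.single (bT T))).isOpenEmbedding.isOpenMap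
    exact (PrimeSpectrum.basicOpen u).2
  have hOne : (Z ∩ O).Nonempty := ⟨bpt T, hx, zp (c0 T), hu1, rfl⟩
  have h3 : Z ∩ O ⊆ ZZ T := by
    rintro _ ⟨_, z, hz, rfl⟩
    exact mem_ZZ_of_u T hu2 z hz
  have h4 : Z ⊆ closure (Z ∩ O) :=
    subset_closure_inter_of_isPreirreducible_of_isOpen hZ.1.2 hO hOne
  have h5 : Z ⊆ ZZ T := h4.trans (closure_minimal h3 isClosed_closure)
  have h6 : IsIrreducible (ZZ T) := isIrreducible_singleton.closure
  exact subset_antisymm h5 (hZ.2 h6 h5)

theorem ZZ_mem (h2 : (2 : k) ≠ 0) [Infinite k] :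
    ZZ T ∈ irreducibleComponents (HilbS k (MvPolynomial (Fin r) k) (2 * r + 2)) := by
  rw [← comp_unique T h2 (irreducibleComponent (bpt T))
    (irreducibleComponent_mem_irreducibleComponents _) mem_irreducibleComponent]
  exact irreducibleComponent_mem_irreducibleComponents _

end comp

end Pool.Agent.W455.Cub
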