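import Mathlib
import Pool.Agent.W455.Cub.Top

set_option autoImplicit false
set_option linter.unusedSectionVars false

open scoped TensorProduct
open CategoryTheory AlgebraicGeometry MvPolynomial
open Pool.Agent.Helper226

universe u

namespace Pool.Agent.W455.Cub

section trace
variable {k : Type u} [Field k] {r : ℕ} {R : Type u} [CommRing R] [Algebra k R] [IsReduced R]
  [Nontrivial R]
variable {p : T3 r → R} {y : Fin r → MA p} {b : Fin (2 * r + 2) → MvPolynomial (Fin r) k}

lemma trace_MA (h : IsUnit (Nmat p y b).det) (x : MA p) :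
    Algebra.trace R (MA p) x = ((2 * r + 2 : ℕ) : R) * x.c0 := by
  have h1 : x = algebraMap R (MA p) x.c0 + (x - algebraMap R (MA p) x.c0) := by ring
  have h2 : (x - algebraMap R (MA p) x.c0).c0 = 0 := by
    have := MA.c0_add (x - algebraMap R (MA p) x.c0) (algebraMap R (MA p) x.c0)
    rw [sub_add_cancel, MA.algebraMap_eq', MA.c0_mk] at this
    rw [MA.algebraMap_eq']
    simpa using this.symm
  set n := x - algebraMap R (MA p) x.c0 with hn
  have h3 : IsNilpotent n := by
    refine ⟨4, ?_⟩
    have := MA.mul4 n n n n h2 h2 h2 h2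
    rw [← this]
    ring
  have h4 : Algebra.trace R (MA p) n = 0 :=
    (Algebra.isNilpotent_trace_of_isNilpotent h3).eq_zero
  conv_lhs => rw [h1]
  rw [map_add, h4, add_zero, Algebra.trace_algebraMap_of_basis (fbas h), Fintype.card_fin,
    nsmul_eq_mul]

lemma sum_q (h : IsUnit (Nmat p y b).det) (f : MvPolynomial (Fin r) k) :
    ∑ j, (fch p y b h).q (b j * f) j = ((2 * r + 2 : ℕ) : R) * (aeval y f : MA p).c0 := by
  rw [← trace_MA h, Algebra.trace_eq_matrix_trace (fbas h), Matrix.trace]
  refine Finset.sum_congr rfl fun j _ => ?_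
  rw [Matrix.diag_apply, Algebra.leftMulMatrix_eq_repr_mul]
  unfold fch
  rw [bchart_q, map_mul, fbas_apply, mul_comm (aeval y (b j) : MA p)]
  rfl

end trace

section pts
variable {k : Type u} [Field k] [CharZero k] {r : ℕ}
variable {b : Fin (2 * r + 2) → MvPolynomial (Fin r) k}

/-- the barycentre coordinates -/
noncomputable def bary {R : Type u} [CommRing R] [Algebra k R] (c : Chart k b R) (i : Fin r) : R :=
  ((2 * r + 2 : ℕ) : k)⁻¹ • ∑ j, c.q (b j * X i) j

lemma bary_map {R R' : Type u} [CommRing R] [Algebra k R] [CommRing R'] [Algebra k R']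
    (c : Chart k b R) (φ : R →ₐ[k] R') (i : Fin r) : bary (c.map φ) i = φ (bary c i) := by
  simp only [bary, Chart.map_q, map_smul, map_sum]

/-- the product of four centred coordinates -/
noncomputable def cprod {R : Type u} [CommRing R] [Algebra k R] (c : Chart k b R)
    (a : Fin 4 → Fin r) : R ⊗[k] MvPolynomial (Fin r) k :=
  ∏ l, ((1 : R) ⊗ₜ[k] (X (a l) : MvPolynomial (Fin r) k) - (bary c (a l)) ⊗ₜ[k] 1)

lemma cprod_map {R R' : Type u} [CommRing R] [Algebra k R] [CommRing R'] [Algebra k R']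
    (c : Chart k b R) (φ : R →ₐ[k] R') (a : Fin 4 → Fin r) :
    cprod (c.map φ) a = bc _ φ (cprod c a) := by
  simp only [cprod, bary_map, map_prod, map_sub]
  simp

/-- the centred products vanish on the whole family, hence on its closure -/
theorem cprod_zero (hb : dU b ≠ 0) (c : Chart k b k)
    (hle : RingHom.ker (clf (cK hb)) ≤ RingHom.ker (clf c)) (a : Fin 4 → Fin r) :
    c.L (cprod c a) = 0 := by
  have h1 : (cK hb).L (cprod (cK hb) a) = 0 := by
    have hd : ((2 * r + 2 : ℕ) : k) ≠ 0 := by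
      rw [Nat.cast_ne_zero]
      omega
    have h2 : ∀ i, bary (cK hb) i = (yK k r i).c0 := by
      intro i
      unfold bary cK
      rw [sum_q, aeval_X]
      have h3 : ((2 * r + 2 : ℕ) : KK k r) = algebraMap k (KK k r) ((2 * r + 2 : ℕ) : k) :=
        (map_natCast (algebraMap k (KK k r)) (2 * r + 2)).symm
      rw [h3, ← Algebra.smul_def, smul_smul, inv_mul_cancel₀ hd, one_smul]
    have h4 : evR (KK k r) (aeval (yK k r) : MvPolynomial (Fin r) k →ₐ[k] MA (pK k r))
        (cprod (cK hb) a) = 0 := by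
      unfold cprod
      rw [map_prod, Fin.prod_univ_four]
      have h5 : ∀ l, (evR (KK k r) (aeval (yK k r) : MvPolynomial (Fin r) k →ₐ[k] MA (pK k r))
          ((1 : KK k r) ⊗ₜ[k] (X (a l) : MvPolynomial (Fin r) k) -
            (bary (cK hb) (a l)) ⊗ₜ[k] 1)).c0 = 0 := by
        intro l
        rw [map_sub, evR_tmul, evR_tmul, map_one, aeval_X, h2, one_smul, sub_eq_add_neg,
          MA.c0_add]
        have h6 : (-((yK k r (a l)).c0 • (1 : MA (pK k r)))) =
            ((-1 : KK k r) * (yK k r (a l)).c0) • (1 : MA (pK k r)) := by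
          rw [mul_smul, neg_one_smul]
        rw [h6, MA.c0_smul, MA.c0_one]
        simp
      exact MA.mul4 _ _ _ _ (h5 0) (h5 1) (h5 2) (h5 3)
    unfold cK fch at h4 ⊢
    rw [bchart_L]
    rw [h4, map_zero]
  funext j
  have h2 := congrFun h1 j
  rw [← uc_map_clf (cK hb), cprod_map, Chart.map_L] at h2
  have h3 : clf c ((uc k b).L (cprod (uc k b) a) j) = 0 := hle h2
  rw [← uc_map_clf c, cprod_map, Chart.map_L]
  exact h3

lemma cprod_field (c : Chart k b k) (a : Fin 4 → Fin r) :
    cprod c a = (1 : k) ⊗ₜ[k] ((X (a 0) - C (bary c (a 0))) * (X (a 1) - C (bary c (a 1))) *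
      (X (a 2) - C (bary c (a 2))) * (X (a 3) - C (bary c (a 3)))) := by
  unfold cprod
  have h : ∀ l, (1 : k) ⊗ₜ[k] (X (a l) : MvPolynomial (Fin r) k) - (bary c (a l)) ⊗ₜ[k] 1 =
      (1 : k) ⊗ₜ[k] (X (a l) - C (bary c (a l))) := by
    intro l
    rw [TensorProduct.tmul_sub]
    congr 1
    rw [← algebraMap_eq, Algebra.algebraMap_eq_smul_one, TensorProduct.tmul_smul,
      TensorProduct.smul_tmul', smul_eq_mul, mul_one]
  simp only [h, Fin.prod_univ_four, Algebra.TensorProduct.tmul_mul_tmul, one_mul]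

/-- all points of the component are supported at one point, with vanishing fourth power -/
theorem local_of_mem (T : TS k r) (c : Chart k b k)
    (h : chartι k (Idx.single b) (zp c) ∈ ZZ T) : ∃ v : Fin r → k, ∀ a1 a2 a3 a4 : Fin r,
      ((X a1 - C (v a1)) * (X a2 - C (v a2)) * (X a3 - C (v a3)) * (X a4 - C (v a4)) :
        MvPolynomial (Fin r) k) ∈ c.ker := by
  obtain ⟨hb, hle⟩ := exists_generic (dU_bT T) (zp c) h
  refine ⟨bary c, fun a1 a2 a3 a4 => ?_⟩
  have h1 := cprod_zero hb c hle ![a1, a2, a3, a4]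
  rw [cprod_field, Chart.L_tmul, one_smul] at h1
  rw [Chart.mem_ker]
  exact h1

end pts

end Pool.Agent.W455.Cub
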