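import Mathlib
import Pool.Agent.W455.Cub.AnnDef
import Pool.Agent.W455.Cub.Pts
import Pool.Agent.W455.Cub.Inst13

set_option autoImplicit false
set_option linter.unusedSectionVars false

open scoped TensorProduct
open MvPolynomial
open Pool.Agent.Helper226

universe u

namespace Pool.Agent.W455.Cub

section
variable {k : Type u} [Field k] {r : ℕ}

/-- the coefficients of a cubic form -/
noncomputable def pF (F : MvPolynomial (Fin r) k) : T3 r → k := fun α => F.coeff α.1

lemma e0_eq_contr (F : MvPolynomial (Fin r) k) (hF : F.IsHomogeneous 3) :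
    e0 (pF F) = contrL F 0 := by
  apply lin_ext
  intro l
  have hz : ∀ α : Fin r →₀ ℕ, α.degree ≠ 3 → F.coeff α = 0 := by
    intro α hα
    by_contra hne
    apply hα
    have := hF hne
    rw [← this, Finsupp.weight_apply, Finsupp.degree_eq_sum]
    rw [Finsupp.sum_fintype _ _ (by simp)]
    simp
  have hmon : ∀ l : List (Fin r), (l.map (fun i => (X i : MvPolynomial (Fin r) k))).prod =
      monomial (l.map (fun i => (Finsupp.single i 1 : Fin r →₀ ℕ))).sum 1 := by
    intro l
    induction l with
    | nil => simp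
    | cons a l ih =>
      rw [List.map_cons, List.prod_cons, ih, List.map_cons, List.sum_cons, X, monomial_mul, mul_one]
  have hdeg : ∀ l : List (Fin r), (l.map (fun i => (Finsupp.single i 1 : Fin r →₀ ℕ))).sum.degree =
      l.length := by
    intro l
    induction l with
    | nil => simp
    | cons a l ih =>
      rw [List.map_cons, List.sum_cons, map_add, ih, Finsupp.degree_single, List.length_cons,
        add_comm]
  have hm0 : ∀ i : Fin r, (MA.ge (pF F) i).c0 = 0 := fun i => rfl
  by_cases h3 : l.length = 3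
  · obtain ⟨a, b, c, rfl⟩ : ∃ a b c, l = [a, b, c] := by
      rcases l with _ | ⟨a, _ | ⟨b, _ | ⟨c, _ | ⟨d, l⟩⟩⟩⟩ <;> simp at h3 ⊢
    rw [hmon, contrL_monomial, ← hmon]
    simp only [List.map_cons, List.prod_cons, List.map_nil, List.prod_nil, List.sum_cons,
      List.sum_nil, add_zero, mul_one]
    rw [← mul_assoc, e0_X3, pF, ex, ← add_assoc]
  · rw [hmon, contrL_monomial, hz _ (by rw [add_zero, hdeg]; exact h3), ← hmon, e0_apply,
      map_list_prod, List.map_map]
    have hc : ((ev0 (pF F)) ∘ fun i => (X i : MvPolynomial (Fin r) k)) = MA.ge (pF F) := by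
      funext i
      simp
    rw [hc]
    rcases l with _ | ⟨a, _ | ⟨b, _ | ⟨c, _ | ⟨d, l⟩⟩⟩⟩
    · rfl
    · simp [MA.ge]
    · simp only [List.map_cons, List.prod_cons, List.map_nil, List.prod_nil, mul_one, MA.ge_mul,
        MA.c3_mk]
    · simp at h3
    · simp only [List.map_cons, List.prod_cons]
      rw [← mul_assoc, ← mul_assoc, ← mul_assoc, MA.mul4 _ _ _ _ (hm0 a) (hm0 b) (hm0 c) (hm0 d),
        zero_mul]
      rfl

/-- surjectivity of the evaluation -/
lemma ev_surj {p : T3 r → k} {y : Fin r → MA p}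
    {b : Fin (2 * r + 2) → MvPolynomial (Fin r) k}
    (h : IsUnit (Nmat p y b).det) (x : MA p) : ∃ f : MvPolynomial (Fin r) k, aeval y f = x := by
  refine ⟨∑ j, (fbas h).equivFun x j • b j, ?_⟩
  rw [map_sum, ← (fbas h).sum_equivFun x]
  refine Finset.sum_congr rfl fun j _ => ?_
  rw [map_smul, fbas_apply, (fbas h).sum_equivFun x]

lemma MA_nondeg {R : Type*} [CommRing R] {p : T3 r → R} (x : MA p)
    (h : ∀ w : MA p, (w * x).c3 = 0) : x = 0 := by
  apply (MA.crd p).injective
  funext j
  rw [map_zero, Pi.zero_apply, MA.crd_apply]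
  obtain ⟨c, hc⟩ : ∃ c, dual c = MA.ce r j := ⟨dual (MA.ce r j), dual_dual _⟩
  have h1 := h ((MA.crd p).symm (Pi.single ((MA.ce r).symm c) 1))
  rw [c3_mul_eq, Finset.sum_eq_single c] at h1
  · have h2 : MA.cx ((MA.crd p).symm (Pi.single ((MA.ce r).symm c) 1)) c = 1 := by
      have h3 := MA.crd_apply ((MA.crd p).symm (Pi.single ((MA.ce r).symm c) 1))
        ((MA.ce r).symm c)
      rw [LinearEquiv.apply_symm_apply, Pi.single_eq_same, Equiv.apply_symm_apply] at h3
      exact h3.symm
    rw [h2, one_mul, hc] at h1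
    exact h1
  · intro c' _ hne
    have h3 := MA.crd_apply ((MA.crd p).symm (Pi.single ((MA.ce r).symm c) 1))
        ((MA.ce r).symm c')
    rw [LinearEquiv.apply_symm_apply, Equiv.apply_symm_apply, Pi.single_eq_of_ne] at h3
    · rw [← h3, zero_mul]
    · intro h4
      exact hne ((MA.ce r).symm.injective h4)
  · simp

lemma annC_eq (F : MvPolynomial (Fin r) k) (hF : F.IsHomogeneous 3)
    (hs : Function.Surjective (ev0 (pF F))) : annC F = RingHom.ker (ev0 (pF F)) := by
  ext f
  rw [mem_annC_iff, RingHom.mem_ker]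
  constructor
  · intro h
    apply MA_nondeg
    intro w
    obtain ⟨g, rfl⟩ := hs w
    have := h g
    rw [← e0_eq_contr F hF, e0_apply, map_mul] at this
    exact this
  · intro h g
    rw [← e0_eq_contr F hF, e0_apply, map_mul, h, mul_zero]
    rfl

variable {b : Fin (2 * r + 2) → MvPolynomial (Fin r) k}

lemma ker_fch {p : T3 r → k} {y : Fin r → MA p} (h : IsUnit (Nmat p y b).det) :
    (fch p y b h).ker = RingHom.ker (aeval y : MvPolynomial (Fin r) k →ₐ[k] MA p) := by
  ext f
  rw [Chart.mem_ker, fch_q_eq_zero, RingHom.mem_ker]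

/-- the algebra of a cubic form -/
noncomputable def annEquiv (F : MvPolynomial (Fin r) k) (hF : F.IsHomogeneous 3)
    (hs : Function.Surjective (ev0 (pF F))) :
    (MvPolynomial (Fin r) k ⧸ annC F) ≃ₐ[k] MA (pF F) :=
  (Ideal.quotientEquivAlgOfEq k (annC_eq F hF hs)).trans (Ideal.quotientKerAlgEquivOfSurjective hs)

/-- the algebra of a member of the family -/
noncomputable def fchEquiv {p : T3 r → k} {y : Fin r → MA p} (h : IsUnit (Nmat p y b).det) :
    (MvPolynomial (Fin r) k ⧸ (fch p y b h).ker) ≃ₐ[k] MA p :=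
  (Ideal.quotientEquivAlgOfEq k (ker_fch h)).trans
    (Ideal.quotientKerAlgEquivOfSurjective (ev_surj h))

/-- a chart whose algebra is isomorphic to the model algebra is a member of the family -/
lemma exists_fam {p : T3 r → k} (c : Chart k b k)
    (e : (MvPolynomial (Fin r) k ⧸ c.ker) ≃ₐ[k] MA p) :
    ∃ (y : Fin r → MA p) (h : IsUnit (Nmat p y b).det), c = fch p y b h := by
  let f : MvPolynomial (Fin r) k →ₐ[k] MA p := (e : _ →ₐ[k] MA p).comp (Ideal.Quotient.mkₐ k c.ker)
  have hf0 : ∀ x, x ∈ c.ker → f x = 0 := by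
    intro x hx
    change e (Ideal.Quotient.mk c.ker x) = 0
    rw [Ideal.Quotient.eq_zero_iff_mem.2 hx, map_zero]
  let y : Fin r → MA p := fun i => f (X i)
  have hfy : f = aeval y := by
    apply MvPolynomial.algHom_ext
    intro i
    simp [y]
  have hfs : Function.Surjective f := by
    intro x
    obtain ⟨z, hz⟩ := e.surjective x
    obtain ⟨g, rfl⟩ := Ideal.Quotient.mk_surjective z
    exact ⟨g, hz⟩
  have hq : ∀ x, ∑ j, c.q x j • (aeval y (b j) : MA p) = aeval y x := by
    intro x
    rw [← hfy]
    have h1 : x - ∑ j, c.q x j • b j ∈ c.ker := by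
      rw [Chart.mem_ker, map_sub, map_sum]
      simp only [map_smul, c.q_b]
      rw [sub_eq_zero]
      funext i
      simp [Pi.single_apply]
    have h2 := hf0 _ h1
    rw [map_sub, sub_eq_zero, map_sum] at h2
    simp only [map_smul] at h2
    exact h2.symm
  have hu : IsUnit (Nmat p y b).det := by
    have h3 : ∀ i : Fin (2 * r + 2), ∃ g : MvPolynomial (Fin r) k,
        f g = (MA.crd p).symm (Pi.single i 1) := fun i => hfs _
    choose g hg using h3
    let A : Matrix (Fin (2 * r + 2)) (Fin (2 * r + 2)) k := Matrix.of fun i j => c.q (g i) j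
    have h4 : A * Nmat p y b = 1 := by
      ext i l
      have h7 := congrArg (fun x => MA.crd p x l) (hq (g i))
      simp only [map_sum, map_smul, Finset.sum_apply, Pi.smul_apply, smul_eq_mul] at h7
      rw [← hfy, hg, LinearEquiv.apply_symm_apply] at h7
      rw [Matrix.mul_apply, Matrix.one_apply]
      have h8 : (Pi.single i 1 : Fin (2 * r + 2) → k) l = if i = l then 1 else 0 := by
        rw [Pi.single_apply]
        simp only [eq_comm]
      rw [← h8, ← h7, hfy]
      rfl
    have h5 := congrArg Matrix.det h4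
    rw [Matrix.det_mul, Matrix.det_one] at h5
    exact IsUnit.of_mul_eq_one _ (by rw [mul_comm]; exact h5)
  exact ⟨y, hu, fch_unique hu c hq⟩

end

end Pool.Agent.W455.Cub
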