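import Mathlib
import Pool.Agent.Helper226.VCDefs

set_option autoImplicit false
set_option linter.unusedSectionVars false

open MvPolynomial
open Pool.Agent.Helper226

universe u

namespace Pool.Agent.W455.Cub

variable {k : Type u} [Field k] {r : ℕ}

/-- codimension of an ideal -/
noncomputable def DD (I : Ideal (MvPolynomial (Fin r) k)) : ℕ :=
  Module.finrank k (MvPolynomial (Fin r) k ⧸ I.restrictScalars k)

lemma finite_of_le {I J : Ideal (MvPolynomial (Fin r) k)} (h : I ≤ J)
    (hI : Module.Finite k (MvPolynomial (Fin r) k ⧸ I.restrictScalars k)) :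
    Module.Finite k (MvPolynomial (Fin r) k ⧸ J.restrictScalars k) :=
  Module.Finite.of_surjective (Submodule.factor (show I.restrictScalars k ≤ J.restrictScalars k
    from h)) (Submodule.factor_surjective _)

lemma DD_mono {I J : Ideal (MvPolynomial (Fin r) k)} (h : I ≤ J)
    (hI : Module.Finite k (MvPolynomial (Fin r) k ⧸ I.restrictScalars k)) : DD J ≤ DD I := by
  unfold DD
  exact LinearMap.finrank_le_finrank_of_surjective (Submodule.factor_surjective
    (show I.restrictScalars k ≤ J.restrictScalars k from h))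

lemma eq_of_DD {I J : Ideal (MvPolynomial (Fin r) k)} (h : I ≤ J)
    (hI : Module.Finite k (MvPolynomial (Fin r) k ⧸ I.restrictScalars k)) (he : DD J = DD I) :
    J ≤ I := by
  have h1 : I.restrictScalars k ≤ J.restrictScalars k := h
  have hJ := finite_of_le h hI
  have h2 : Function.Injective (Submodule.factor h1) :=
    (LinearMap.injective_iff_surjective_of_finrank_eq_finrank he.symm).2
      (Submodule.factor_surjective h1)
  intro x hx
  have h3 : Submodule.factor h1 ((I.restrictScalars k).mkQ x) = 0 := by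
    exact (Submodule.Quotient.mk_eq_zero (J.restrictScalars k)).2 hx
  have h4 : (I.restrictScalars k).mkQ x = 0 := h2 (by rw [h3, map_zero])
  rw [Submodule.mkQ_apply, Submodule.Quotient.mk_eq_zero] at h4
  exact h4

/-- the dimension of a subquotient -/
lemma finrank_sub {V : Type*} [AddCommGroup V] [Module k V] {P Q : Submodule k V} (h : P ≤ Q)
    (hP : Module.Finite k (V ⧸ P)) :
    Module.finrank k (Q ⧸ P.submoduleOf Q) + Module.finrank k (V ⧸ Q) =
      Module.finrank k (V ⧸ P) := by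
  have h1 : Module.finrank k (Q ⧸ P.submoduleOf Q) = Module.finrank k (Q.map P.mkQ) := by
    let f : Q →ₗ[k] V ⧸ P := P.mkQ ∘ₗ Q.subtype
    have hk : P.submoduleOf Q = LinearMap.ker f := by
      ext x
      rw [LinearMap.mem_ker]
      change (x : V) ∈ P ↔ Submodule.Quotient.mk (x : V) = 0
      rw [Submodule.Quotient.mk_eq_zero]
    have hr : LinearMap.range f = Q.map P.mkQ := by
      rw [LinearMap.range_comp, Submodule.range_subtype]
    rw [hk, ← hr]
    exact f.quotKerEquivRange.finrank_eq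
  have h2 : Module.finrank k ((V ⧸ P) ⧸ Q.map P.mkQ) = Module.finrank k (V ⧸ Q) :=
    (Submodule.quotientQuotientEquivQuotient P Q h).finrank_eq
  rw [h1, ← h2, add_comm]
  exact Submodule.finrank_quotient_add_finrank _

lemma hilbFn_add (I m : Ideal (MvPolynomial (Fin r) k)) (i : ℕ)
    (hI : Module.Finite k (MvPolynomial (Fin r) k ⧸ I.restrictScalars k)) :
    hilbFn I m i + DD (m ^ i ⊔ I) = DD (m ^ (i + 1) ⊔ I) := by
  have h1 : m ^ (i + 1) ⊔ I ≤ m ^ i ⊔ I := sup_le_sup_right (Ideal.pow_le_pow_right (by omega)) _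
  unfold hilbFn DD
  exact finrank_sub (V := MvPolynomial (Fin r) k) (P := powSub I m (i + 1)) (Q := powSub I m i) h1
    (finite_of_le (le_sup_right : I ≤ m ^ (i + 1) ⊔ I) hI)

/-- duality -/
lemma dual_ineq {I J K : Ideal (MvPolynomial (Fin r) k)} (L : MvPolynomial (Fin r) k →ₗ[k] k)
    (hL : ∀ x ∈ I, L x = 0) (hnd : ∀ x, (∀ y, L (x * y) = 0) → x ∈ I) (hIJ : I ≤ J)
    (hIK : I ≤ K) (hJK : ∀ x ∈ J, ∀ y ∈ K, x * y ∈ I)
    (hI : Module.Finite k (MvPolynomial (Fin r) k ⧸ I.restrictScalars k)) :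
    DD I ≤ DD J + DD K := by
  have hK := finite_of_le hIK hI
  let P := I.restrictScalars k
  let Q := J.restrictScalars k
  have h1 := finrank_sub (show P ≤ Q from hIJ) hI
  -- the pairing
  let f0 : Q →ₗ[k] (MvPolynomial (Fin r) k →ₗ[k] k) :=
    { toFun := fun x => L ∘ₗ LinearMap.mulLeft k (x : MvPolynomial (Fin r) k)
      map_add' := fun x y => by
        ext1
        ext1
        simp [add_mul]
      map_smul' := fun a x => by
        ext1
        ext1
        simp }
  have hf0 : ∀ (x : Q) (y : MvPolynomial (Fin r) k), f0 x y = L (x * y) := fun x y => rfl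
  let f : Q →ₗ[k] Module.Dual k (MvPolynomial (Fin r) k ⧸ K.restrictScalars k) :=
    { toFun := fun x => (K.restrictScalars k).liftQ (f0 x) (by
        intro y hy
        rw [LinearMap.mem_ker, hf0]
        exact hL _ (hJK _ x.2 _ hy))
      map_add' := fun x y => by
        apply LinearMap.ext
        intro z
        obtain ⟨z, rfl⟩ := Submodule.mkQ_surjective _ z
        change L ((x + y : MvPolynomial (Fin r) k) * z) = L (x * z) + L (y * z)
        rw [add_mul, map_add]
      map_smul' := fun a x => by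
        apply LinearMap.ext
        intro z
        obtain ⟨z, rfl⟩ := Submodule.mkQ_surjective _ z
        change L ((a • (x : MvPolynomial (Fin r) k)) * z) = a • L (x * z)
        rw [smul_mul_assoc, map_smul] }
  have hf : ∀ (x : Q) (y : MvPolynomial (Fin r) k),
      f x (Submodule.Quotient.mk y) = L (x * y) := fun x y => rfl
  let g : (Q ⧸ P.submoduleOf Q) →ₗ[k] Module.Dual k (MvPolynomial (Fin r) k ⧸ K.restrictScalars k) :=
    (P.submoduleOf Q).liftQ f (by
      intro x hx
      rw [LinearMap.mem_ker]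
      apply LinearMap.ext
      intro z
      obtain ⟨z, rfl⟩ := Submodule.mkQ_surjective _ z
      change L (x * z) = 0
      apply hL
      exact I.mul_mem_right _ hx)
  have hg : Function.Injective g := by
    rw [← LinearMap.ker_eq_bot, LinearMap.ker_eq_bot']
    intro x hx
    obtain ⟨x, rfl⟩ := Submodule.mkQ_surjective _ x
    rw [Submodule.mkQ_apply, Submodule.Quotient.mk_eq_zero]
    apply hnd
    intro y
    have := LinearMap.congr_fun hx (Submodule.Quotient.mk y)
    exact this
  have h2 := LinearMap.finrank_le_finrank_of_injective hg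
  rw [Subspace.dual_finrank_eq] at h2
  unfold DD
  change Module.finrank k (MvPolynomial (Fin r) k ⧸ P) ≤ _
  rw [← h1]
  change _ ≤ Module.finrank k (MvPolynomial (Fin r) k ⧸ Q) + _
  omega

section point
variable (v : Fin r → k)

lemma sub_mem_pt (f : MvPolynomial (Fin r) k) : f - C (eval v f) ∈ pointIdeal v := by
  induction f using MvPolynomial.induction_on with
  | C a => simp
  | add g h hg hh =>
    rw [map_add, map_add, add_sub_add_comm]
    exact Ideal.add_mem _ hg hh
  | mul_X g i hg =>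
    have : g * X i - C (eval v (g * X i)) =
        X i * (g - C (eval v g)) + C (eval v g) * (X i - C (v i)) := by
      simp only [map_mul, eval_X]
      ring
    rw [this]
    exact Ideal.add_mem _ (Ideal.mul_mem_left _ _ hg)
      (Ideal.mul_mem_left _ _ (Ideal.subset_span ⟨i, rfl⟩))

lemma pt_le_ker : pointIdeal v ≤ RingHom.ker (eval v) := by
  unfold pointIdeal
  rw [Ideal.span_le]
  rintro _ ⟨i, rfl⟩
  simp [RingHom.mem_ker]

lemma pt_eq_ker : pointIdeal v = RingHom.ker (eval v) := by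
  apply le_antisymm (pt_le_ker v)
  intro f hf
  have := sub_mem_pt v f
  rw [RingHom.mem_ker.1 hf, map_zero, sub_zero] at this
  exact this

lemma pt_ne_top : pointIdeal v ≠ ⊤ := by
  rw [pt_eq_ker]
  exact RingHom.ker_ne_top _

lemma pt_maximal : (pointIdeal v).IsMaximal := by
  rw [pt_eq_ker]
  exact RingHom.ker_isMaximal_of_surjective _ (fun a => ⟨C a, eval_C a⟩)

lemma mem_sq (f : MvPolynomial (Fin r) k) :
    ∃ a : Fin r → k, f - (C (eval v f) + ∑ i, C (a i) * (X i - C (v i))) ∈ pointIdeal v ^ 2 := by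
  classical
  have h1 := sub_mem_pt v f
  have h2 : pointIdeal v = Ideal.span (Set.range fun i => (X i - C (v i) : MvPolynomial (Fin r) k)) :=
    rfl
  rw [h2] at h1
  obtain ⟨c, hc⟩ := (Ideal.mem_span_range_iff_exists_fun).1 h1
  refine ⟨fun i => eval v (c i), ?_⟩
  have h3 : f - (C (eval v f) + ∑ i, C (eval v (c i)) * (X i - C (v i))) =
      ∑ i, (c i - C (eval v (c i))) * (X i - C (v i)) := by
    rw [← sub_sub, ← hc, ← Finset.sum_sub_distrib]
    exact Finset.sum_congr rfl fun i _ => by ring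
  rw [h3, pow_two]
  exact Ideal.sum_mem _ fun i _ => Ideal.mul_mem_mul (sub_mem_pt v _) (Ideal.subset_span ⟨i, rfl⟩)

lemma DD_pt (I : Ideal (MvPolynomial (Fin r) k)) (hI : I ≤ pointIdeal v) :
    DD (pointIdeal v ^ 1 ⊔ I) = 1 := by
  rw [pow_one, sup_eq_left.2 hI]
  unfold DD
  let f : MvPolynomial (Fin r) k →ₗ[k] k :=
    { toFun := fun x => eval v x
      map_add' := fun x y => map_add _ _ _
      map_smul' := fun a x => by simp [smul_eq_C_mul] }
  have hf : ∀ x, f x = eval v x := fun x => rfl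
  have hk : (pointIdeal v).restrictScalars k = LinearMap.ker f := by
    ext x
    rw [LinearMap.mem_ker, hf, Submodule.restrictScalars_mem, pt_eq_ker, RingHom.mem_ker]
  rw [hk]
  have hs : Function.Surjective f := fun a => ⟨C a, by rw [hf, eval_C]⟩
  rw [(f.quotKerEquivOfSurjective hs).finrank_eq, Module.finrank_self]

lemma DD_top (I : Ideal (MvPolynomial (Fin r) k)) : DD (pointIdeal v ^ 0 ⊔ I) = 0 := by
  rw [pow_zero, Ideal.one_eq_top, top_sup_eq]
  unfold DD
  rw [Submodule.restrictScalars_top]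
  exact Module.finrank_zero_of_subsingleton

lemma DD_sq_le (I : Ideal (MvPolynomial (Fin r) k)) : DD (pointIdeal v ^ 2 ⊔ I) ≤ r + 1 := by
  unfold DD
  let e : Option (Fin r) → MvPolynomial (Fin r) k ⧸ (pointIdeal v ^ 2 ⊔ I).restrictScalars k :=
    fun o => o.elim (Submodule.Quotient.mk 1) fun i => Submodule.Quotient.mk (X i - C (v i))
  have hs : Function.Surjective (Fintype.linearCombination k e) := by
    intro x
    obtain ⟨f, rfl⟩ := Submodule.mkQ_surjective _ x
    obtain ⟨a, ha⟩ := mem_sq v f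
    refine ⟨fun o => o.elim (eval v f) a, ?_⟩
    rw [Fintype.linearCombination_apply, Fintype.sum_option, Submodule.mkQ_apply]
    simp only [e, Option.elim]
    rw [eq_comm, ← sub_eq_zero]
    have : (Submodule.Quotient.mk f : MvPolynomial (Fin r) k ⧸ (pointIdeal v ^ 2 ⊔ I).restrictScalars k) -
        (eval v f • Submodule.Quotient.mk 1 +
          ∑ i, a i • Submodule.Quotient.mk (X i - C (v i))) =
        Submodule.Quotient.mk (f - (C (eval v f) + ∑ i, C (a i) * (X i - C (v i)))) := by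
      rw [Submodule.Quotient.mk_sub, Submodule.Quotient.mk_add]
      congr 2
      · rw [← Submodule.Quotient.mk_smul, smul_eq_C_mul, mul_one]
      · rw [← Submodule.mkQ_apply, map_sum]
        refine Finset.sum_congr rfl fun i _ => ?_
        rw [Submodule.mkQ_apply, ← smul_eq_C_mul, Submodule.Quotient.mk_smul]
    rw [this, Submodule.Quotient.mk_eq_zero]
    exact Ideal.mem_sup_left ha
  have := LinearMap.finrank_le_finrank_of_surjective hs
  rw [Module.finrank_fintype_fun_eq_card] at this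
  simpa using this

/-- the Hilbert function of a Gorenstein algebra of length `2r+2` with vanishing fourth power -/
theorem hilbFn_gor (hr : 1 ≤ r) (I : Ideal (MvPolynomial (Fin r) k))
    (L : MvPolynomial (Fin r) k →ₗ[k] k)
    (hL : ∀ x ∈ I, L x = 0) (hnd : ∀ x, (∀ y, L (x * y) = 0) → x ∈ I)
    (h4 : pointIdeal v ^ 4 ≤ I) (hI1 : I ≤ pointIdeal v)
    (hI : Module.Finite k (MvPolynomial (Fin r) k ⧸ I.restrictScalars k)) (hd : DD I = 2 * r + 2) :
    hilbFn I (pointIdeal v) 0 = 1 ∧ hilbFn I (pointIdeal v) 1 = r ∧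
    hilbFn I (pointIdeal v) 2 = r ∧ hilbFn I (pointIdeal v) 3 = 1 ∧
    ∀ i, 4 ≤ i → hilbFn I (pointIdeal v) i = 0 := by
  have e0 : hilbFn I (pointIdeal v) 0 + DD (pointIdeal v ^ 0 ⊔ I) = DD (pointIdeal v ^ 1 ⊔ I) :=
    hilbFn_add I (pointIdeal v) 0 hI
  have e1 : hilbFn I (pointIdeal v) 1 + DD (pointIdeal v ^ 1 ⊔ I) = DD (pointIdeal v ^ 2 ⊔ I) :=
    hilbFn_add I (pointIdeal v) 1 hI
  have e2 : hilbFn I (pointIdeal v) 2 + DD (pointIdeal v ^ 2 ⊔ I) = DD (pointIdeal v ^ 3 ⊔ I) :=
    hilbFn_add I (pointIdeal v) 2 hI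
  have e3 : hilbFn I (pointIdeal v) 3 + DD (pointIdeal v ^ 3 ⊔ I) = DD (pointIdeal v ^ 4 ⊔ I) :=
    hilbFn_add I (pointIdeal v) 3 hI
  have d0 := DD_top v I
  have d1 := DD_pt v I hI1
  have d2 := DD_sq_le v I
  have d4 : ∀ i, 4 ≤ i → DD (pointIdeal v ^ i ⊔ I) = 2 * r + 2 := by
    intro i hi
    rw [sup_eq_right.2 ((Ideal.pow_le_pow_right hi).trans h4), hd]
  have q1 : DD I ≤ DD (pointIdeal v ^ 2 ⊔ I) + DD (pointIdeal v ^ 2 ⊔ I) := by
    apply dual_ineq L hL hnd le_sup_right le_sup_right _ hI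
    intro x hx y hy
    have h5 : x * y ∈ (pointIdeal v ^ 2 ⊔ I) * (pointIdeal v ^ 2 ⊔ I) := Ideal.mul_mem_mul hx hy
    refine (?_ : (pointIdeal v ^ 2 ⊔ I) * (pointIdeal v ^ 2 ⊔ I) ≤ I) h5
    rw [Ideal.sup_mul, Ideal.mul_sup]
    refine sup_le (sup_le ?_ Ideal.mul_le_right) Ideal.mul_le_left
    rw [← pow_add]
    exact h4
  have q2 : DD I ≤ DD (pointIdeal v ^ 3 ⊔ I) + DD (pointIdeal v ^ 1 ⊔ I) := by
    apply dual_ineq L hL hnd le_sup_right le_sup_right _ hI
    intro x hx y hy
    have h5 : x * y ∈ (pointIdeal v ^ 3 ⊔ I) * (pointIdeal v ^ 1 ⊔ I) := Ideal.mul_mem_mul hx hy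
    refine (?_ : (pointIdeal v ^ 3 ⊔ I) * (pointIdeal v ^ 1 ⊔ I) ≤ I) h5
    rw [Ideal.sup_mul, Ideal.mul_sup]
    refine sup_le (sup_le ?_ Ideal.mul_le_right) Ideal.mul_le_left
    rw [← pow_add]
    exact h4
  have q3 : DD (pointIdeal v ^ 3 ⊔ I) ≤ DD I := DD_mono le_sup_right hI
  have q4 : DD (pointIdeal v ^ 3 ⊔ I) ≠ DD I := by
    intro he
    have h5 : pointIdeal v ^ 3 ≤ I := le_sup_left.trans (eq_of_DD le_sup_right hI he)
    have q5 : DD I ≤ DD (pointIdeal v ^ 2 ⊔ I) + DD (pointIdeal v ^ 1 ⊔ I) := by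
      apply dual_ineq L hL hnd le_sup_right le_sup_right _ hI
      intro x hx y hy
      have h5' : x * y ∈ (pointIdeal v ^ 2 ⊔ I) * (pointIdeal v ^ 1 ⊔ I) := Ideal.mul_mem_mul hx hy
      refine (?_ : (pointIdeal v ^ 2 ⊔ I) * (pointIdeal v ^ 1 ⊔ I) ≤ I) h5'
      rw [Ideal.sup_mul, Ideal.mul_sup]
      refine sup_le (sup_le ?_ Ideal.mul_le_right) Ideal.mul_le_left
      rw [← pow_add]
      exact h5
    omega
  have d4' := d4 4 le_rfl
  refine ⟨by omega, by omega, by omega, by omega, ?_⟩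
  intro i hi
  have e := hilbFn_add I (pointIdeal v) i hI
  rw [d4 i hi, d4 (i + 1) (by omega)] at e
  omega

end point

end Pool.Agent.W455.Cub
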