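import Mathlib
import Pool.Agent.W455.Cub.Ann
import Pool.Agent.W455.Cub.Hf

set_option autoImplicit false
set_option linter.unusedSectionVars false

open scoped TensorProduct
open CategoryTheory AlgebraicGeometry MvPolynomial
open Pool.Agent.Helper226

universe u

namespace Pool.Agent.W455.Cub

section frac
variable {k : Type u} [Field k] {r : ℕ} {b : Fin (2 * r + 2) → MvPolynomial (Fin r) k}

/-- functions on the chart restricted to the family are fractions -/
theorem exists_frac (f : AR k b) : ∃ (a : A0 k r) (n : ℕ),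
    (∀ hb : dU b ≠ 0, clf (cK hb) f * (algebraMap (A0 k r) (KK k r) (dU b)) ^ n =
      algebraMap (A0 k r) (KK k r) a) ∧
    ∀ (R : Type u) [CommRing R] [Algebra k R] (p : T3 r → R) (y : Fin r → MA p)
      (h : IsUnit (Nmat p y b).det),
      clf (fch p y b h) f * (evA k p y (dU b)) ^ n = evA k p y a := by
  let W := Localization.Away (dU b)
  let pW : T3 r → W := fun α => algebraMap (A0 k r) W (pU k r α)
  let yW : Fin r → MA pW := fun i =>
    (MA.crd _).symm (fun j => algebraMap (A0 k r) W (X (Sum.inr (i, j))))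
  have cW : Compat (IsScalarTower.toAlgHom k (A0 k r) W) (pU k r) (yU k r) pW yW :=
    { hp := fun α => rfl
      hy := fun i j => by simp [yW, yU] }
  have hW : IsUnit (Nmat pW yW b).det := by
    rw [← cW.det b]
    exact IsLocalization.Away.algebraMap_isUnit (dU b)
  have lift : ∀ (R' : Type u) [CommRing R'] [Algebra k R'] (p' : T3 r → R') (y' : Fin r → MA p')
      (h' : IsUnit (Nmat p' y' b).det) (φ : A0 k r →ₐ[k] R')
      (_ : Compat φ (pU k r) (yU k r) p' y'),
      ∃ ψ : W →ₐ[k] R', (∀ a, ψ (algebraMap (A0 k r) W a) = φ a) ∧ Compat ψ pW yW p' y' := by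
    intro R' _ _ p' y' h' φ hφ
    have hu : IsUnit (φ (dU b)) := by
      unfold dU
      rw [hφ.det b]
      exact h'
    let ψ : W →ₐ[k] R' := IsLocalization.liftAlgHom (M := Submonoid.powers (dU b)) (f := φ) (by
      rintro ⟨_, n, rfl⟩
      rw [map_pow]
      exact hu.pow n)
    have hψ : ∀ a, ψ (algebraMap (A0 k r) W a) = φ a := by
      intro a
      simp [ψ]
    refine ⟨ψ, hψ, ?_, ?_⟩
    · intro α
      rw [hψ, hφ.hp]
    · intro i j
      rw [hφ.hy]
      simp only [yW, LinearEquiv.apply_symm_apply, hψ, yU]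
  have key : ∀ (R' : Type u) [CommRing R'] [Algebra k R'] (p' : T3 r → R') (y' : Fin r → MA p')
      (h' : IsUnit (Nmat p' y' b).det) (φ : A0 k r →ₐ[k] R')
      (_ : Compat φ (pU k r) (yU k r) p' y') (a : A0 k r) (n : ℕ),
      clf (fch pW yW b hW) f * (algebraMap (A0 k r) W (dU b)) ^ n = algebraMap (A0 k r) W a →
      clf (fch p' y' b h') f * (φ (dU b)) ^ n = φ a := by
    intro R' _ _ p' y' h' φ hφ a n han
    obtain ⟨ψ, h1, h2⟩ := lift R' p' y' h' φ hφ
    have h3 : clf (fch p' y' b h') = ψ.comp (clf (fch pW yW b hW)) := by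
      rw [← clf_map]
      congr 1
      exact (h2.fch hW h').symm
    rw [h3, AlgHom.comp_apply, ← h1, ← h1, ← map_pow, ← map_mul, han]
  obtain ⟨⟨a, s⟩, has⟩ := IsLocalization.surj (Submonoid.powers (dU b)) (clf (fch pW yW b hW) f)
  obtain ⟨n, hn⟩ := s.2
  simp only [← hn, map_pow] at has
  refine ⟨a, n, ?_, ?_⟩
  · intro hb
    exact key (KK k r) (pK k r) (yK k r) (isUnit_K hb) _ (compatK k r) a n has
  · intro R _ _ p y h
    exact key R p y h _ (evA_compat p y) a n has

end frac

section gram
variable {k : Type u} [Field k] {r : ℕ}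

/-- the Gram matrix of the last coordinate -/
noncomputable def gram {R : Type u} [CommRing R] [Algebra k R]
    {b : Fin (2 * r + 2) → MvPolynomial (Fin r) k} (c : Chart k b R) :
    Matrix (Fin (2 * r + 2)) (Fin (2 * r + 2)) R :=
  Matrix.of fun i j => c.q (b i * b j) (jl r)

variable {b : Fin (2 * r + 2) → MvPolynomial (Fin r) k}

lemma gram_map {R R' : Type u} [CommRing R] [Algebra k R] [CommRing R'] [Algebra k R']
    (c : Chart k b R) (φ : R →ₐ[k] R') : φ (gram c).det = (gram (c.map φ)).det := by
  rw [AlgHom.map_det]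
  rfl

lemma gram_clf (c : Chart k b k) : clf c (gram (uc k b)).det = (gram c).det := by
  rw [gram_map, uc_map_clf]

lemma gram_nondeg (c : Chart k b k) (h : (gram c).det ≠ 0) (x : MvPolynomial (Fin r) k)
    (hx : ∀ y, c.q (x * y) (jl r) = 0) : x ∈ c.ker := by
  rw [Chart.mem_ker]
  have h1 : Matrix.vecMul (c.q x) (gram c) = 0 := by
    funext j
    have h2 := hx (b j)
    rw [c.q_mul, Finset.sum_apply] at h2
    simp only [Matrix.vecMul, dotProduct, gram, Matrix.of_apply, Pi.zero_apply]
    exact h2
  exact Matrix.eq_zero_of_vecMul_eq_zero h h1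

lemma gram_base (T : TS k r) : (gram (c0 T)).det ≠ 0 := by
  have h1 : gram (c0 T) * gram (c0 T) = 1 := by
    have h2 : ∀ i j, gram (c0 T) i j = if dual (MA.ce r i) = MA.ce r j then 1 else 0 := by
      intro i j
      simp only [gram, Matrix.of_apply]
      rw [c0_q, crd_jl, ← e0_apply, bT, bT]
      have h3 := e0_dual T (MA.ce r i) (dual (MA.ce r j))
      rw [dual_dual] at h3
      rw [h3]
      congr 1
      apply propext
      constructor
      · intro h
        rw [h, dual_dual]
      · intro h
        rw [← h, dual_dual]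
    ext i j
    rw [Matrix.mul_apply, Matrix.one_apply]
    simp only [h2]
    rw [Finset.sum_eq_single ((MA.ce r).symm (dual (MA.ce r i)))]
    · rw [Equiv.apply_symm_apply, if_pos rfl, one_mul, dual_dual]
      simp only [EmbeddingLike.apply_eq_iff_eq]
    · intro l _ hl
      rw [if_neg, zero_mul]
      intro h
      apply hl
      rw [h, Equiv.symm_apply_apply]
    · simp
  intro h0
  have := congrArg Matrix.det h1
  rw [Matrix.det_mul, h0, zero_mul, Matrix.det_one] at this
  exact zero_ne_one this

end gram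

section poly
variable {k : Type u} [Field k] {r : ℕ}

/-- the universal cubic in the coefficients -/
noncomputable def pX (k : Type u) [Field k] (r : ℕ) : T3 r → MvPolynomial (Fin r →₀ ℕ) k :=
  fun α => X α.1

/-- pull back of functions on the parameter space to the space of cubics -/
noncomputable def toX (k : Type u) [Field k] (r : ℕ) :
    A0 k r →ₐ[k] MvPolynomial (Fin r →₀ ℕ) k := evA k (pX k r) (MA.ge (pX k r))

/-- evaluation at the coefficients of a polynomial -/
noncomputable def evF (F : MvPolynomial (Fin r) k) (D : MvPolynomial (Fin r →₀ ℕ) k) : k :=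
  eval (fun α => F.coeff α) D

lemma evF_toX (F : MvPolynomial (Fin r) k) (a : A0 k r) :
    evF F (toX k r a) = evA k (pF F) (MA.ge (pF F)) a := by
  have h : (aeval (fun α => F.coeff α) : MvPolynomial (Fin r →₀ ℕ) k →ₐ[k] k).comp (toX k r) =
      evA k (pF F) (MA.ge (pF F)) := by
    apply MvPolynomial.algHom_ext
    intro i
    rw [AlgHom.comp_apply, toX, evA, evA, aeval_X, aeval_X]
    rcases i with α | ⟨i, j⟩
    · simp [pX, pF]
    · simp only [Sum.elim_inr]
      rw [MA.crd_apply, MA.crd_apply]
      rcases MA.ce r j with _ | i' | v' | _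
      · simp [MA.cx, MA.ge]
      · simp only [MA.cx, MA.ge, MA.c1_mk, Pi.single_apply]
        split_ifs <;> simp
      · simp [MA.cx, MA.ge]
      · simp [MA.cx, MA.ge]
  have h1 := congrArg (fun φ : A0 k r →ₐ[k] k => φ a) h
  simp only [AlgHom.comp_apply] at h1
  have h2 := coe_aeval_eq_eval (fun α => F.coeff α)
  rw [← h1, evF, ← h2]
  rfl

lemma evF_dU (F : MvPolynomial (Fin r) k) (b : Fin (2 * r + 2) → MvPolynomial (Fin r) k) :
    evF F (toX k r (dU b)) = (Nmat (pF F) (MA.ge (pF F)) b).det := by
  rw [evF_toX]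
  exact (evA_compat (k := k) (pF F) (MA.ge (pF F))).det b

/-- the cubic of the system -/
noncomputable def FT (T : TS k r) : MvPolynomial (Fin r) k := ∑ α : T3 r, monomial α.1 (T.p α)

lemma pF_FT (T : TS k r) : pF (FT T) = T.p := by
  classical
  funext α
  rw [pF, FT, coeff_sum, Finset.sum_eq_single α]
  · rw [coeff_monomial, if_pos rfl]
  · intro β _ hne
    rw [coeff_monomial, if_neg]
    intro h
    exact hne (Subtype.ext h)
  · simp

lemma FT_hom (T : TS k r) : (FT T).IsHomogeneous 3 := by
  apply IsHomogeneous.sum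
  intro α _
  apply isHomogeneous_monomial
  exact α.2

end poly

end Pool.Agent.W455.Cub
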