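import Mathlib
import Pool.Agent.Helper226.LociDefs
import Pool.Agent.Helper226.VCDefs
import Pool.Agent.W455.Cub.AnnDef

set_option autoImplicit false

open scoped TensorProduct
open CategoryTheory AlgebraicGeometry MvPolynomial
open Pool.Agent.Helper226

universe u

namespace Pool.Agent.W455.Cub

variable {k : Type u} [Field k] {r : ℕ}

/-- `F` is a cubic form at whose coefficients the polynomial `D` does not vanish. -/
def GenCub (D : MvPolynomial (Fin r →₀ ℕ) k) (F : MvPolynomial (Fin r) k) : Prop :=
  F.IsHomogeneous 3 ∧ eval (fun α => F.coeff α) D ≠ 0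

/-- The algebra `k[x_1, ..., x_r]/I` is local, supported at the point `v`, with Hilbert function
`(1, r, r, 1)`. -/
def HasHF (I : Ideal (MvPolynomial (Fin r) k)) (v : Fin r → k) : Prop :=
  I.radical = pointIdeal v ∧ hilbFn I (pointIdeal v) 0 = 1 ∧ hilbFn I (pointIdeal v) 1 = r ∧
    hilbFn I (pointIdeal v) 2 = r ∧ hilbFn I (pointIdeal v) 3 = 1 ∧
    ∀ i, 4 ≤ i → hilbFn I (pointIdeal v) i = 0

/-- The algebra `k[x_1, ..., x_r]/I` is isomorphic to the algebra `k[x_1, ..., x_r]/Ann(F)` of a
cubic form `F` at which neither `D` nor `D'` vanishes. -/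
def CubLocus (D D' : MvPolynomial (Fin r →₀ ℕ) k) (I : Ideal (MvPolynomial (Fin r) k)) : Prop :=
  ∃ F : MvPolynomial (Fin r) k, GenCub D F ∧ GenCub D' F ∧
    Nonempty ((MvPolynomial (Fin r) k ⧸ I) ≃ₐ[k] (MvPolynomial (Fin r) k ⧸ annC F))

/-- The ideal of the fibre at the `k`-point `t` of `Spec R` of the family of closed subschemes of
affine `r`-space over `Spec R` with ideal `J`. -/
noncomputable def fib {R : Type u} [CommRing R] [Algebra k R]
    (J : Ideal (R ⊗[k] MvPolynomial (Fin r) k)) (t : R →ₐ[k] k) :
    Ideal (MvPolynomial (Fin r) k) :=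
  (J.map (Algebra.TensorProduct.map t (AlgHom.id k (MvPolynomial (Fin r) k)))).comap
    (Algebra.TensorProduct.includeRight :
      MvPolynomial (Fin r) k →ₐ[k] k ⊗[k] MvPolynomial (Fin r) k)

/-- The algebra of `F` is generic: for every flat family over a base `Spec R` of closed subschemes
of length `2r+2` of affine `r`-space, and every `k`-point `s` of the base at which the fibre is the
subscheme of `Ann(F)`, all fibres near `s` (where `h` does not vanish) are local algebras with
Hilbert function `(1, r, r, 1)`. -/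
def IsGenericAlg (F : MvPolynomial (Fin r) k) : Prop :=
  ∀ (R : Type u) [CommRing R] [Algebra k R],
    ∀ J ∈ HilbFamily k (MvPolynomial (Fin r) k) (2 * r + 2) R, ∀ s : R →ₐ[k] k,
      fib J s = annC F → ∃ h : R, s h ≠ 0 ∧ ∀ t : R →ₐ[k] k, t h ≠ 0 → ∃ v, HasHF (fib J t) v

/-- The statement for a Hilbert scheme `𝓗` of `2r+2` points of affine `r`-space. There is a
nonempty open set of cubic forms, given by `D ≠ 0`, such that:

* there is an irreducible component `Z` which is elementary (every `k`-point of `Z` is a
  subscheme supported at one point), and the subschemes isomorphic to the spectrum of the algebra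
  of a cubic form in the open set form a dense subset of `Z`; the same holds for every smaller
  nonempty open set of cubic forms, given by `D' ≠ 0`;
* for every cubic form `F` in the open set, its algebra is local, supported at the origin, with
  Hilbert function `(1, r, r, 1)`, and all its deformations have this Hilbert function: the algebra
  is generic, and the point of the Hilbert scheme of `Ann(F)` has an open neighbourhood `U` all of
  whose `k`-points are local algebras with Hilbert function `(1, r, r, 1)`. -/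
def CubicStatement (𝓗 : HilbertScheme k (MvPolynomial (Fin r) k) (2 * r + 2)) : Prop :=
  ∃ D : MvPolynomial (Fin r →₀ ℕ) k, (∃ F : MvPolynomial (Fin r) k, GenCub D F) ∧
    (∃ Z ∈ irreducibleComponents 𝓗.H,
      (∀ f : PointsOver k 𝓗.H 𝓗.s k, Set.range f.1 ⊆ Z →
        ∃ v, (𝓗.idealOf f).radical = pointIdeal v) ∧
      ∀ D' : MvPolynomial (Fin r →₀ ℕ) k, (∃ F : MvPolynomial (Fin r) k, GenCub D' F) →
        Z = closure (𝓗.locus (CubLocus D D'))) ∧
    ∀ F : MvPolynomial (Fin r) k, GenCub D F →
      HasHF (annC F) 0 ∧ IsGenericAlg F ∧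
      ∃ f₀ : PointsOver k 𝓗.H 𝓗.s k, 𝓗.idealOf f₀ = annC F ∧
        ∃ U : Set 𝓗.H, IsOpen U ∧ Set.range f₀.1 ⊆ U ∧
          ∀ f : PointsOver k 𝓗.H 𝓗.s k, Set.range f.1 ⊆ U → ∃ v, HasHF (𝓗.idealOf f) v

end Pool.Agent.W455.Cub
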