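import Mathlib
import Pool.Agent.W455.Cub.Frac
import Pool.Agent.W455.Cub.StDef

set_option autoImplicit false
set_option linter.unusedSectionVars false

open scoped TensorProduct
open CategoryTheory AlgebraicGeometry MvPolynomial
open Pool.Agent.Helper226

universe u

namespace Pool.Agent.W455.Cub

section lemmas
variable {k : Type u} [Field k] {r : ℕ} {b : Fin (2 * r + 2) → MvPolynomial (Fin r) k}

lemma idealOf_mor (c : Chart k b k) :
    (hilb k (MvPolynomial (Fin r) k) (2 * r + 2)).idealOf ⟨mor c, mor_str c⟩ = c.ker := by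
  unfold HilbertScheme.idealOf
  have : ((hilb k (MvPolynomial (Fin r) k) (2 * r + 2)).Φ k ⟨mor c, mor_str c⟩).1 = c.ideal :=
    homEquiv_mor c
  rw [this]
  rfl

lemma one_notMem_ker (c : Chart k b k) : (1 : MvPolynomial (Fin r) k) ∉ c.ker := by
  intro h
  have h1 := c.ker.mul_mem_left (b ((MA.ce r).symm (Sum.inl ()))) h
  rw [mul_one, Chart.mem_ker, c.q_b] at h1
  have := congrFun h1 ((MA.ce r).symm (Sum.inl ()))
  simp at this

lemma pow_four_le {I : Ideal (MvPolynomial (Fin r) k)} {v : Fin r → k}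
    (h : ∀ a1 a2 a3 a4 : Fin r,
      ((X a1 - C (v a1)) * (X a2 - C (v a2)) * (X a3 - C (v a3)) * (X a4 - C (v a4)) :
        MvPolynomial (Fin r) k) ∈ I) : pointIdeal v ^ 4 ≤ I := by
  have h1 : pointIdeal v ^ 4 = pointIdeal v * pointIdeal v * pointIdeal v * pointIdeal v := by ring
  rw [h1]
  unfold pointIdeal
  rw [Ideal.span_mul_span', Ideal.span_mul_span', Ideal.span_mul_span', Ideal.span_le]
  rintro _ ⟨_, ⟨_, ⟨_, ⟨a1, rfl⟩, _, ⟨a2, rfl⟩, rfl⟩, _, ⟨a3, rfl⟩, rfl⟩, _, ⟨a4, rfl⟩, rfl⟩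
  exact h a1 a2 a3 a4

lemma radical_eq {I : Ideal (MvPolynomial (Fin r) k)} {v : Fin r → k}
    (h4 : pointIdeal v ^ 4 ≤ I) (h1 : (1 : MvPolynomial (Fin r) k) ∉ I) :
    I.radical = pointIdeal v := by
  have hm := pt_maximal v
  symm
  apply hm.eq_of_le
  · intro h
    apply h1
    have h2 : (1 : MvPolynomial (Fin r) k) ∈ I.radical := by rw [h]; trivial
    obtain ⟨n, hn⟩ := h2
    rwa [one_pow] at hn
  · intro x hx
    exact ⟨4, h4 (Ideal.pow_mem_pow hx 4)⟩

lemma DD_ker (c : Chart k b k) : Module.Finite k (MvPolynomial (Fin r) k ⧸ c.ker.restrictScalars k) ∧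
    DD c.ker = 2 * r + 2 := by
  have hs : Function.Surjective c.q := by
    intro v
    refine ⟨∑ i, v i • b i, ?_⟩
    rw [map_sum]
    ext j
    simp [c.q_b, Pi.single_apply]
  have hk : c.ker.restrictScalars k = LinearMap.ker c.q := by
    ext x
    simp [Chart.mem_ker]
  unfold DD
  rw [hk]
  let e := c.q.quotKerEquivOfSurjective hs
  exact ⟨Module.Finite.equiv e.symm, by rw [e.finrank_eq, Module.finrank_fin_fun]⟩

variable [CharZero k]

/-- points near the base point -/
lemma hasHF_of_near (T : TS k r) (hr : 1 ≤ r) (c : Chart k (bT T) k)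
    (hZ : chartι k (Idx.single (bT T)) (zp c) ∈ ZZ T) (hg : (gram c).det ≠ 0) :
    ∃ v, HasHF c.ker v := by
  obtain ⟨v, hv⟩ := local_of_mem T c hZ
  have h4 := pow_four_le hv
  have hrad := radical_eq h4 (one_notMem_ker c)
  obtain ⟨hfin, hDD⟩ := DD_ker c
  let L : MvPolynomial (Fin r) k →ₗ[k] k := (LinearMap.proj (jl r)) ∘ₗ c.q
  have hL : ∀ x, L x = c.q x (jl r) := fun x => rfl
  refine ⟨v, hrad, ?_⟩
  apply hilbFn_gor v hr c.ker L _ _ h4 _ hfin hDD
  · intro x hx
    rw [hL, (Chart.mem_ker c x).1 hx]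
    rfl
  · intro x hx
    exact gram_nondeg c hg x hx
  · rw [← hrad]
    exact Ideal.le_radical

end lemmas

section closure
variable {k : Type u} [Field k] {r : ℕ}

/-- the cubic with given coefficients -/
noncomputable def FP (p : T3 r → k) : MvPolynomial (Fin r) k := ∑ α : T3 r, monomial α.1 (p α)

lemma coeff_FP (p : T3 r → k) (α : Fin r →₀ ℕ) :
    (FP p).coeff α = if h : α.degree = 3 then p ⟨α, h⟩ else 0 := by
  classical
  rw [FP, coeff_sum]
  split_ifs with h
  · rw [Finset.sum_eq_single ⟨α, h⟩]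
    · rw [coeff_monomial, if_pos rfl]
    · intro β _ hne
      rw [coeff_monomial, if_neg]
      intro h
      exact hne (Subtype.ext h)
    · simp
  · refine Finset.sum_eq_zero fun β _ => ?_
    rw [coeff_monomial, if_neg]
    intro h1
    exact h (h1 ▸ β.2)

lemma pF_FP (p : T3 r → k) : pF (FP p) = p := by
  funext α
  rw [pF, coeff_FP, dif_pos α.2]

lemma FP_hom (p : T3 r → k) : (FP p).IsHomogeneous 3 := by
  apply IsHomogeneous.sum
  intro α _
  apply isHomogeneous_monomial
  exact α.2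

lemma FP_pF (F : MvPolynomial (Fin r) k) (hF : F.IsHomogeneous 3) : FP (pF F) = F := by
  ext α
  rw [coeff_FP]
  split_ifs with h
  · rfl
  · by_contra hne
    apply h
    have := hF (Ne.symm hne)
    rw [← this, Finsupp.weight_apply, Finsupp.degree_eq_sum, Finsupp.sum_fintype _ _ (by simp)]
    simp

/-- functions of the cubic as functions on the parameter space -/
noncomputable def toA (k : Type u) [Field k] (r : ℕ) :
    MvPolynomial (Fin r →₀ ℕ) k →ₐ[k] A0 k r :=
  aeval (fun α => if h : α.degree = 3 then X (Sum.inl ⟨α, h⟩) else 0)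

lemma eval_toA (s : Vr r → k) (D : MvPolynomial (Fin r →₀ ℕ) k) :
    eval s (toA k r D) = eval (fun α => (FP (fun α => s (Sum.inl α))).coeff α) D := by
  have h : (aeval s : A0 k r →ₐ[k] k).comp (toA k r) =
      aeval (fun α => (FP (fun α => s (Sum.inl α))).coeff α) := by
    apply MvPolynomial.algHom_ext
    intro α
    rw [AlgHom.comp_apply, toA, aeval_X, aeval_X, coeff_FP]
    split_ifs
    · rw [aeval_X]
    · rw [map_zero]
  have h1 := congrArg (fun φ : MvPolynomial (Fin r →₀ ℕ) k →ₐ[k] k => φ D) h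
  have h2 := coe_aeval_eq_eval s
  have h3 := coe_aeval_eq_eval (fun α => (FP (fun α => s (Sum.inl α))).coeff α)
  rw [← h2, ← h3]
  exact h1

lemma toA_ne_zero {D : MvPolynomial (Fin r →₀ ℕ) k} (h : ∃ F : MvPolynomial (Fin r) k, GenCub D F) :
    toA k r D ≠ 0 := by
  obtain ⟨F, hF, hD⟩ := h
  intro h0
  apply hD
  have h1 := eval_toA (Sum.elim (pF F) (fun _ => 0)) D
  rw [h0, map_zero] at h1
  have h2 : FP (fun α => Sum.elim (pF F) (fun _ : Fin r × Fin (2 * r + 2) => (0 : k))
      (Sum.inl α)) = F := FP_pF F hF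
  rw [h2] at h1
  exact h1.symm

/-- the data of a point of the parameter space -/
noncomputable def yOf (s : Vr r → k) : Fin r → MA (fun α => s (Sum.inl α)) :=
  fun i => (MA.crd _).symm (fun j => s (Sum.inr (i, j)))

lemma evA_eq_eval (s : Vr r → k) (a : A0 k r) :
    evA k (fun α => s (Sum.inl α)) (yOf s) a = eval s a := by
  have h : evA k (fun α => s (Sum.inl α)) (yOf s) = aeval s := by
    apply MvPolynomial.algHom_ext
    intro i
    rw [evA, aeval_X, aeval_X]
    rcases i with α | ⟨i, j⟩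
    · rfl
    · simp [yOf]
  rw [h]
  have h2 := coe_aeval_eq_eval s
  rw [← h2]
  rfl

/-- the locus is contained in the closure of the generic point -/
lemma locus_subset (T : TS k r) (D D' : MvPolynomial (Fin r →₀ ℕ) k)
    (hD : ∀ F, GenCub D F → Function.Surjective (ev0 (pF F))) :
    (hilb k (MvPolynomial (Fin r) k) (2 * r + 2)).locus (CubLocus D D') ⊆ ZZ T := by
  intro x hx
  obtain ⟨b, c, ⟨F, hF, _, ⟨e⟩⟩, hr⟩ := exists_chart_of_mem_locus _ x hx
  rw [mem_range_mor_iff] at hr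
  rw [hr]
  have e' : (MvPolynomial (Fin r) k ⧸ c.ker) ≃ₐ[k] MA (pF F) :=
    e.trans (annEquiv F hF.1 (hD F hF))
  obtain ⟨y, h, hc⟩ := exists_fam c e'
  rw [hc]
  exact fam_mem _ (dU_ne_zero h) h

/-- the generic point is in the closure of the locus -/
lemma subset_locus [Infinite k] (T : TS k r) (D D' : MvPolynomial (Fin r →₀ ℕ) k)
    (hDne : ∃ F : MvPolynomial (Fin r) k, GenCub D F)
    (hD'ne : ∃ F : MvPolynomial (Fin r) k, GenCub D' F)
    (hD : ∀ F, GenCub D F → Function.Surjective (ev0 (pF F))) :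
    ZZ T ⊆ closure ((hilb k (MvPolynomial (Fin r) k) (2 * r + 2)).locus (CubLocus D D')) := by
  apply closure_minimal _ isClosed_closure
  rw [Set.singleton_subset_iff]
  have h1 : (zK (cK (dU_bT T)) : PrimeSpectrum (AR k (bT T))) ∈
      closure {z : PrimeSpectrum (AR k (bT T)) |
        chartι k (Idx.single (bT T)) (z : Spec (CommRingCat.of (AR k (bT T)))) ∈
        (hilb k (MvPolynomial (Fin r) k) (2 * r + 2)).locus (CubLocus D D')} := by
    refine PrimeSpectrum.isTopologicalBasis_basic_opens.mem_closure_iff.2 ?_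
    rintro _ ⟨f, rfl⟩ hf
    have hf' : clf (cK (dU_bT T)) f ≠ 0 := hf
    obtain ⟨a, n, h1, h2⟩ := exists_frac f
    have ha : a ≠ 0 := by
      intro h0
      have h3 := h1 (dU_bT T)
      rw [h0, map_zero] at h3
      rcases mul_eq_zero.1 h3 with h4 | h4
      · exact hf' h4
      · have h6 : algebraMap (A0 k r) (KK k r) (dU (bT T)) = 0 := by
          by_contra hne
          exact pow_ne_zero n hne h4
        exact dU_bT T ((IsFractionRing.injective (A0 k r) (KK k r)) (by rw [map_zero]; exact h6))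
    have hP : a * dU (bT T) * toA k r D * toA k r D' ≠ 0 :=
      mul_ne_zero (mul_ne_zero (mul_ne_zero ha (dU_bT T)) (toA_ne_zero hDne)) (toA_ne_zero hD'ne)
    obtain ⟨s, hs⟩ : ∃ s : Vr r → k, eval s (a * dU (bT T) * toA k r D * toA k r D') ≠ 0 := by
      by_contra hcon
      push Not at hcon
      exact hP (MvPolynomial.funext (fun s => by rw [hcon s, map_zero]))
    rw [map_mul, map_mul, map_mul, eval_toA, eval_toA] at hs
    have hs1 : eval s a ≠ 0 := fun h => hs (by rw [h]; ring)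
    have hs2 : eval s (dU (bT T)) ≠ 0 := fun h => hs (by rw [h]; ring)
    set p : T3 r → k := fun α => s (Sum.inl α) with hp
    have hs3 : eval (fun α => (FP p).coeff α) D ≠ 0 := fun h => hs (by rw [h]; ring)
    have hs4 : eval (fun α => (FP p).coeff α) D' ≠ 0 := fun h => hs (by rw [h]; ring)
    have hu : IsUnit (Nmat p (yOf s) (bT T)).det := by
      rw [← (evA_compat (k := k) p (yOf s)).det (bT T)]
      apply IsUnit.mk0
      change evA k p (yOf s) (dU (bT T)) ≠ 0
      rw [evA_eq_eval]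
      exact hs2
    refine ⟨(zp (fch p (yOf s) (bT T) hu) : PrimeSpectrum (AR k (bT T))), ?_, ?_⟩
    · change clf (fch p (yOf s) (bT T) hu) f ≠ 0
      intro h0
      have h3 := h2 k p (yOf s) hu
      rw [h0, zero_mul, evA_eq_eval] at h3
      exact hs1 h3.symm
    · apply chartι_zp_mem_locus
      refine ⟨FP p, ⟨FP_hom p, hs3⟩, ⟨FP_hom p, hs4⟩, ⟨?_⟩⟩
      have hsurj := hD (FP p) ⟨FP_hom p, hs3⟩
      have e1 := (annEquiv (FP p) (FP_hom p) hsurj).symm
      rw [pF_FP] at e1
      exact (fchEquiv hu).trans e1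
  have h2 := image_closure_subset_closure_image (chartι k (Idx.single (bT T))).continuous
    (s := {z : Spec (CommRingCat.of (AR k (bT T))) |
        chartι k (Idx.single (bT T)) z ∈
        (hilb k (MvPolynomial (Fin r) k) (2 * r + 2)).locus (CubLocus D D')})
  refine closure_mono ?_ (h2 ⟨_, h1, rfl⟩)
  rintro _ ⟨z, hz, rfl⟩
  exact hz

end closure

section statement
variable {k : Type u} [Field k] {r : ℕ}

lemma exists_one_tmul (x : k ⊗[k] MvPolynomial (Fin r) k) :
    ∃ y : MvPolynomial (Fin r) k, (1 : k) ⊗ₜ[k] y = x := by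
  induction x using TensorProduct.induction_on with
  | zero => exact ⟨0, by simp⟩
  | add x y hx hy =>
    obtain ⟨a, rfl⟩ := hx
    obtain ⟨b, rfl⟩ := hy
    exact ⟨a + b, by rw [TensorProduct.tmul_add]⟩
  | tmul r y =>
    refine ⟨r • y, ?_⟩
    rw [TensorProduct.tmul_smul, TensorProduct.smul_tmul', smul_eq_mul, mul_one]

lemma comap_includeRight_injective {I J : Ideal (k ⊗[k] MvPolynomial (Fin r) k)}
    (h : I.comap (Algebra.TensorProduct.includeRight :
      MvPolynomial (Fin r) k →ₐ[k] k ⊗[k] MvPolynomial (Fin r) k) =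
      J.comap (Algebra.TensorProduct.includeRight :
      MvPolynomial (Fin r) k →ₐ[k] k ⊗[k] MvPolynomial (Fin r) k)) : I = J := by
  ext x
  obtain ⟨y, rfl⟩ := exists_one_tmul x
  have h1 : y ∈ I.comap (Algebra.TensorProduct.includeRight :
      MvPolynomial (Fin r) k →ₐ[k] k ⊗[k] MvPolynomial (Fin r) k) ↔
      y ∈ J.comap (Algebra.TensorProduct.includeRight :
      MvPolynomial (Fin r) k →ₐ[k] k ⊗[k] MvPolynomial (Fin r) k) := by rw [h]
  exact h1

/-- genericity from a neighbourhood in the Hilbert scheme -/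
theorem isGeneric_of_nbhd (𝓗 : HilbertScheme k (MvPolynomial (Fin r) k) (2 * r + 2))
    (F : MvPolynomial (Fin r) k) (f₀ : PointsOver k 𝓗.H 𝓗.s k) (hf₀ : 𝓗.idealOf f₀ = annC F)
    (U : Set 𝓗.H) (hU : IsOpen U) (hU₀ : Set.range f₀.1 ⊆ U)
    (hall : ∀ f : PointsOver k 𝓗.H 𝓗.s k, Set.range f.1 ⊆ U → ∃ v, HasHF (𝓗.idealOf f) v) :
    IsGenericAlg F := by
  intro R _ _ J hJ s hs
  let fJ : PointsOver k 𝓗.H 𝓗.s R := (𝓗.Φ R).symm ⟨J, hJ⟩
  have hfJ : 𝓗.Φ R fJ = ⟨J, hJ⟩ := Equiv.apply_symm_apply _ _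
  have hp : ∀ t : R →ₐ[k] k, (Spec.map (CommRingCat.ofHom t.toRingHom) ≫ fJ.1) ≫ 𝓗.s =
      Spec.map (CommRingCat.ofHom (algebraMap k k)) := by
    intro t
    rw [Category.assoc, fJ.2, ← Spec.map_comp, ← CommRingCat.ofHom_comp]
    congr 2
    ext x
    exact t.commutes x
  let ft : (R →ₐ[k] k) → PointsOver k 𝓗.H 𝓗.s k := fun t => ⟨_, hp t⟩
  have hft : ∀ t, 𝓗.idealOf (ft t) = fib J t := by
    intro t
    have h1 := 𝓗.natural R k t fJ (ft t) rfl
    unfold HilbertScheme.idealOf fib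
    rw [h1, hfJ]
  have hst : ft s = f₀ := by
    apply (𝓗.Φ k).injective
    apply Subtype.ext
    apply comap_includeRight_injective
    have h1 := hft s
    rw [hs, ← hf₀] at h1
    exact h1
  let zR : (R →ₐ[k] k) → Spec (CommRingCat.of R) := fun t =>
    (⟨RingHom.ker t, RingHom.ker_isPrime _⟩ : PrimeSpectrum R)
  have hval : ∀ (t : R →ₐ[k] k) (y : Spec (CommRingCat.of k)), (ft t).1 y = fJ.1 (zR t) := by
    intro t y
    change (Spec.map (CommRingCat.ofHom t.toRingHom) ≫ fJ.1) y = fJ.1 (zR t)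
    rw [Scheme.Hom.comp_apply]
    congr 1
    apply PrimeSpectrum.ext
    exact range_specMap_field t y
  let y₀ : Spec (CommRingCat.of k) := (⟨⊥, Ideal.isPrime_bot⟩ : PrimeSpectrum k)
  have hs0 : fJ.1 (zR s) ∈ U := by
    rw [← hval s y₀, hst]
    exact hU₀ ⟨y₀, rfl⟩
  obtain ⟨_, ⟨h, rfl⟩, hsh, hhU⟩ :=
    PrimeSpectrum.isTopologicalBasis_basic_opens.exists_subset_of_mem_open
    (a := (zR s : PrimeSpectrum R)) (u := (fJ.1 ⁻¹' U : Set (Spec (CommRingCat.of R))))
    hs0 (hU.preimage fJ.1.continuous)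
  refine ⟨h, hsh, ?_⟩
  intro t ht
  rw [← hft t]
  apply hall
  rintro _ ⟨y, rfl⟩
  rw [hval t y]
  exact @hhU (zR t) ht

theorem main_hilb [CharZero k] (T : TS k r) (hr : 1 ≤ r) :
    CubicStatement (hilb k (MvPolynomial (Fin r) k) (2 * r + 2)) := by
  have hinf : Infinite k := CharZero.infinite k
  have h2 : (2 : k) ≠ 0 := two_ne_zero
  obtain ⟨u, hu1, hu2⟩ := exists_u T h2
  obtain ⟨au, nu, -, hau⟩ := exists_frac u
  obtain ⟨ag, ng, -, hag⟩ := exists_frac (gram (uc k (bT T))).det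
  set D : MvPolynomial (Fin r →₀ ℕ) k := toX k r (dU (bT T) * au * ag) with hD
  -- consequences of the genericity
  have hgen : ∀ F : MvPolynomial (Fin r) k, GenCub D F →
      ∃ h : IsUnit (Nmat (pF F) (MA.ge (pF F)) (bT T)).det,
        clf (fch (pF F) (MA.ge (pF F)) (bT T) h) u ≠ 0 ∧
        (gram (fch (pF F) (MA.ge (pF F)) (bT T) h)).det ≠ 0 := by
    rintro F ⟨hF, hDF⟩
    have h3 : evF F (toX k r (dU (bT T) * au * ag)) ≠ 0 := hDF
    have h4 : evF F (toX k r (dU (bT T) * au * ag)) = (Nmat (pF F) (MA.ge (pF F)) (bT T)).det *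
        evA k (pF F) (MA.ge (pF F)) au * evA k (pF F) (MA.ge (pF F)) ag := by
      rw [← evF_dU, ← evF_toX, ← evF_toX]
      simp only [evF, map_mul]
    rw [h4] at h3
    have hd : (Nmat (pF F) (MA.ge (pF F)) (bT T)).det ≠ 0 := fun h => h3 (by rw [h]; ring)
    have hu : evA k (pF F) (MA.ge (pF F)) au ≠ 0 := fun h => h3 (by rw [h]; ring)
    have hg : evA k (pF F) (MA.ge (pF F)) ag ≠ 0 := fun h => h3 (by rw [h]; ring)
    refine ⟨IsUnit.mk0 _ hd, ?_, ?_⟩
    · intro h0
      have h5 := hau k (pF F) (MA.ge (pF F)) (IsUnit.mk0 _ hd)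
      rw [h0, zero_mul] at h5
      exact hu h5.symm
    · intro h0
      have h5 := hag k (pF F) (MA.ge (pF F)) (IsUnit.mk0 _ hd)
      rw [gram_clf, h0, zero_mul] at h5
      exact hg h5.symm
  have hsurj : ∀ F : MvPolynomial (Fin r) k, GenCub D F → Function.Surjective (ev0 (pF F)) := by
    intro F hF
    obtain ⟨h, -, -⟩ := hgen F hF
    exact ev_surj h
  have hne : ∃ F : MvPolynomial (Fin r) k, GenCub D F := by
    refine ⟨FT T, FT_hom T, ?_⟩
    change evF (FT T) (toX k r (dU (bT T) * au * ag)) ≠ 0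
    have h4 : evF (FT T) (toX k r (dU (bT T) * au * ag)) =
        (Nmat (pF (FT T)) (MA.ge (pF (FT T))) (bT T)).det *
        evA k (pF (FT T)) (MA.ge (pF (FT T))) au * evA k (pF (FT T)) (MA.ge (pF (FT T))) ag := by
      rw [← evF_dU, ← evF_toX, ← evF_toX]
      simp only [evF, map_mul]
    rw [h4, pF_FT]
    have e1 := hau k T.p (MA.ge T.p) (isUnit_base T)
    have e2 := hag k T.p (MA.ge T.p) (isUnit_base T)
    rw [gram_clf] at e2
    have e3 : evA k T.p (MA.ge T.p) (dU (bT T)) = 1 := by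
      have := (evA_compat (k := k) T.p (MA.ge T.p)).det (bT T)
      rw [Nmat_base, Matrix.det_one] at this
      exact this
    rw [e3, one_pow, mul_one] at e1 e2
    rw [← e1, ← e2, Nmat_base, Matrix.det_one, one_mul]
    exact mul_ne_zero hu1 (gram_base T)
  refine ⟨D, hne, ⟨ZZ T, ZZ_mem T h2, ?_, ?_⟩, ?_⟩
  · intro f hf
    obtain ⟨b, c, h1, h3⟩ := exists_chart_of_field f
    have h4 : chartι k (Idx.single b) (zp c) ∈ ZZ T := by
      apply hf
      rw [h1]
      exact (mem_range_mor_iff c _).2 rfl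
    obtain ⟨v, hv⟩ := local_of_mem T c h4
    refine ⟨v, ?_⟩
    have h5 : (hilb k (MvPolynomial (Fin r) k) (2 * r + 2)).idealOf f = c.ker := by
      unfold HilbertScheme.idealOf
      rw [h3]
      rfl
    rw [h5]
    exact radical_eq (pow_four_le hv) (one_notMem_ker c)
  · intro D' hD'
    apply subset_antisymm
    · exact subset_locus T D D' hne hD' hsurj
    · exact closure_minimal (locus_subset T D D' hsurj) isClosed_closure
  · intro F hF
    obtain ⟨h, hFu, hFg⟩ := hgen F hF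
    set c := fch (pF F) (MA.ge (pF F)) (bT T) h with hc
    have hker : c.ker = annC F := by
      rw [annC_eq F hF.1 (hsurj F hF)]
      exact ker_fch h
    let f₀ : PointsOver k (hilb k (MvPolynomial (Fin r) k) (2 * r + 2)).H
      (hilb k (MvPolynomial (Fin r) k) (2 * r + 2)).s k := ⟨mor c, mor_str c⟩
    have hf₀ : (hilb k (MvPolynomial (Fin r) k) (2 * r + 2)).idealOf f₀ = annC F := by
      rw [← hker]
      exact idealOf_mor c
    let U : Set (HilbS k (MvPolynomial (Fin r) k) (2 * r + 2)) :=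
      chartι k (Idx.single (bT T)) '' {z | u * (gram (uc k (bT T))).det ∉
        (z : PrimeSpectrum (AR k (bT T))).asIdeal}
    have hU : IsOpen U := by
      apply (chartι k (Idx.single (bT T))).isOpenEmbedding.isOpenMap
      exact (PrimeSpectrum.basicOpen (u * (gram (uc k (bT T))).det)).2
    have hf₀U : Set.range f₀.1 ⊆ U := by
      intro x hx
      rw [(mem_range_mor_iff c x).1 hx]
      refine ⟨zp c, ?_, rfl⟩
      change clf c (u * (gram (uc k (bT T))).det) ≠ 0
      rw [map_mul, gram_clf]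
      exact mul_ne_zero hFu hFg
    have hall : ∀ f : PointsOver k (hilb k (MvPolynomial (Fin r) k) (2 * r + 2)).H
        (hilb k (MvPolynomial (Fin r) k) (2 * r + 2)).s k, Set.range f.1 ⊆ U →
        ∃ v, HasHF ((hilb k (MvPolynomial (Fin r) k) (2 * r + 2)).idealOf f) v := by
      intro f hf
      let y : Spec (CommRingCat.of k) := (⟨⊥, Ideal.isPrime_bot⟩ : PrimeSpectrum k)
      obtain ⟨o, ho, hoy⟩ := hf ⟨y, rfl⟩
      have hloc : chartι k (Idx.single (bT T)) o ∈
          (hilb k (MvPolynomial (Fin r) k) (2 * r + 2)).locus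
            (fun I => I = (hilb k (MvPolynomial (Fin r) k) (2 * r + 2)).idealOf f) := by
        rw [hoy]
        exact ⟨f, ⟨y, rfl⟩, rfl⟩
      obtain ⟨c', hc', rfl⟩ := exists_chart_in _ o hloc
      have h5 : clf c' (u * (gram (uc k (bT T))).det) ≠ 0 := ho
      rw [map_mul, gram_clf] at h5
      have h6 : chartι k (Idx.single (bT T)) (zp c') ∈ ZZ T :=
        mem_ZZ_of_u T hu2 _ (left_ne_zero_of_mul h5)
      obtain ⟨v, hv⟩ := hasHF_of_near T hr c' h6 (right_ne_zero_of_mul h5)
      rw [← hc']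
      exact ⟨v, hv⟩
    refine ⟨?_, isGeneric_of_nbhd _ F f₀ hf₀ U hU hf₀U hall, f₀, hf₀, U, hU, hf₀U, hall⟩
    obtain ⟨v, hv⟩ := hall f₀ hf₀U
    rw [hf₀] at hv
    have hv0 : v = 0 := by
      funext i
      have h7 : (X i : MvPolynomial (Fin r) k) ∈ pointIdeal v := by
        rw [← hv.1]
        refine ⟨4, ?_⟩
        rw [annC_eq F hF.1 (hsurj F hF), RingHom.mem_ker, map_pow, ev0_X]
        have := MA.mul4 (MA.ge (pF F) i) (MA.ge (pF F) i) (MA.ge (pF F) i) (MA.ge (pF F) i)
          rfl rfl rfl rfl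
        rw [← this]
        ring
      rw [pt_eq_ker, RingHom.mem_ker, eval_X] at h7
      exact h7
    rw [hv0] at hv
    exact hv

end statement

end Pool.Agent.W455.Cub
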