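import Mathlib
import Pool.Agent.W455.Cub.Main
import Pool.Agent.Helper413.Gal.Uniq

set_option autoImplicit false
set_option linter.unusedSectionVars false

open scoped TensorProduct
open CategoryTheory AlgebraicGeometry MvPolynomial
open Pool.Agent.Helper226 Pool.Agent.Helper413.Gal

universe u

namespace Pool.Agent.W455.Cub

section trans
variable {k : Type u} [Field k] {B : Type u} [CommRing B] [Algebra k B] {d : ℕ}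
variable (𝓗₁ 𝓗₂ : HilbertScheme k B d)

lemma idealOf_tr (f : PointsOver k 𝓗₁.H 𝓗₁.s k) :
    𝓗₂.idealOf (tr 𝓗₁ 𝓗₂ k f) = 𝓗₁.idealOf f := by
  unfold HilbertScheme.idealOf
  rw [Φ_tr]

/-- the homeomorphism of two Hilbert schemes -/
noncomputable def hom12 : 𝓗₁.H ≃ₜ 𝓗₂.H := Scheme.homeoOfIso (tiso 𝓗₁ 𝓗₂)

lemma hom12_apply (x : 𝓗₁.H) : hom12 𝓗₁ 𝓗₂ x = tmor 𝓗₁ 𝓗₂ x := rfl

lemma hom21_apply (x : 𝓗₁.H) : tmor 𝓗₂ 𝓗₁ (tmor 𝓗₁ 𝓗₂ x) = x := by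
  rw [← Scheme.Hom.comp_apply, tmor_tmor]
  rfl

lemma range_tr (f : PointsOver k 𝓗₁.H 𝓗₁.s k) :
    Set.range (tr 𝓗₁ 𝓗₂ k f).1 = hom12 𝓗₁ 𝓗₂ '' Set.range f.1 := by
  rw [tr_val]
  ext x
  constructor
  · rintro ⟨y, rfl⟩
    exact ⟨f.1 y, ⟨y, rfl⟩, by rw [hom12_apply, Scheme.Hom.comp_apply]⟩
  · rintro ⟨_, ⟨y, rfl⟩, rfl⟩
    exact ⟨y, by rw [hom12_apply, Scheme.Hom.comp_apply]⟩

lemma preimage_locus (P : Ideal B → Prop) :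
    hom12 𝓗₁ 𝓗₂ ⁻¹' (𝓗₂.locus P) = 𝓗₁.locus P := by
  ext x
  constructor
  · rintro ⟨f, hf, hP⟩
    refine ⟨tr 𝓗₂ 𝓗₁ k f, ?_, by rw [idealOf_tr]; exact hP⟩
    rw [range_tr]
    refine ⟨_, hf, ?_⟩
    rw [hom12_apply, hom12_apply, hom21_apply]
  · rintro ⟨f, hf, hP⟩
    refine ⟨tr 𝓗₁ 𝓗₂ k f, ?_, by rw [idealOf_tr]; exact hP⟩
    rw [range_tr]
    exact ⟨x, hf, rfl⟩

end trans

section
variable {k : Type u} [Field k] {r : ℕ}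

theorem CubicStatement.trans (𝓗₁ 𝓗₂ : HilbertScheme k (MvPolynomial (Fin r) k) (2 * r + 2))
    (h : CubicStatement 𝓗₂) : CubicStatement 𝓗₁ := by
  obtain ⟨D, hne, ⟨Z, hZ, hloc, hcl⟩, hgen⟩ := h
  set e := hom12 𝓗₁ 𝓗₂ with he
  refine ⟨D, hne, ⟨e ⁻¹' Z, ?_, ?_, ?_⟩, ?_⟩
  · apply preimage_mem_irreducibleComponents hZ e.isOpenEmbedding
    rw [e.range_coe, Set.inter_univ]
    exact hZ.1.1
  · intro f hf
    rw [← idealOf_tr 𝓗₁ 𝓗₂]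
    apply hloc
    rw [range_tr]
    rintro _ ⟨x, hx, rfl⟩
    exact hf hx
  · intro D' hD'
    rw [← preimage_locus 𝓗₁ 𝓗₂, ← e.preimage_closure, ← hcl D' hD']
  · intro F hF
    obtain ⟨h1, h1', f₀, h2, U, h3, h4, h5⟩ := hgen F hF
    refine ⟨h1, h1', tr 𝓗₂ 𝓗₁ k f₀, by rw [idealOf_tr, h2], e ⁻¹' U, h3.preimage e.continuous, ?_, ?_⟩
    · rw [range_tr]
      rintro _ ⟨x, hx, rfl⟩
      change e (hom12 𝓗₂ 𝓗₁ x) ∈ U
      rw [he, hom12_apply, hom12_apply, hom21_apply]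
      exact h4 hx
    · intro f hf
      rw [← idealOf_tr 𝓗₁ 𝓗₂]
      apply h5
      rw [range_tr]
      rintro _ ⟨x, hx, rfl⟩
      exact hf hx

end

end Pool.Agent.W455.Cub
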